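import Mathlib

/-! # Complete Pick pairs with a diagonal first kernel: definitions -/

set_option autoImplicit false

namespace Pool.Agent.K1H27.CP

open Finset Filter Topology
open scoped ComplexConjugate ComplexOrder

variable {g : ℕ}

/-- The monomial `x^a = x_1^{a_1} ⋯ x_g^{a_g}`. -/
def mon (a : Fin g →₀ ℕ) (x : Fin g → ℂ) : ℂ := ∏ j, x j ^ a j

/-- `|x|^{2a} = ∏ |x_j|^{2 a_j}`. -/
noncomputable def absMon (a : Fin g →₀ ℕ) (x : Fin g → ℂ) : ℝ := ∏ j, ‖x j‖ ^ (2 * a j)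

/-- A kernel on `Ω`: the function `f : Ω × Ω → ℂ` is positive semidefinite. -/
def IsKernel (Ω : Set (Fin g → ℂ)) (f : (Fin g → ℂ) → (Fin g → ℂ) → ℂ) : Prop :=
  (Matrix.of fun x y : Ω => f x y).PosSemidef

/-- `f` is holomorphic in the first and antiholomorphic in the second variable on `Ω`:
`(z, w) ↦ f (z, conj w)` is a holomorphic function of the `2g` variables `(z, w)`. -/
def IsHolomorphic (Ω : Set (Fin g → ℂ)) (f : (Fin g → ℂ) → (Fin g → ℂ) → ℂ) : Prop :=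
  DifferentiableOn ℂ (fun p : (Fin g → ℂ) × (Fin g → ℂ) => f p.1 (star p.2))
    {p | p.1 ∈ Ω ∧ star p.2 ∈ Ω}

/-- The expansion `f (z, w) = ∑_a c_a z^a conj(w)^a` at the origin. -/
def HasDiagonalExpansion (f : (Fin g → ℂ) → (Fin g → ℂ) → ℂ) (c : (Fin g →₀ ℕ) → ℝ) : Prop :=
  ∀ᶠ p in 𝓝 ((0, 0) : (Fin g → ℂ) × (Fin g → ℂ)),
    HasSum (fun a => (c a : ℂ) * mon a p.1 * conj (mon a p.2)) (f p.1 p.2)

/-- The function `(x, y) ↦ l(x,y) I_J - k(x,y) W(x) W(y)^*` on `S × S` with values in the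
`J × J` matrices, as a scalar function on `(S × {1, …, J}) × (S × {1, …, J})`. -/
def pickMatrix (S : Set (Fin g → ℂ)) (J : ℕ) (k l : (Fin g → ℂ) → (Fin g → ℂ) → ℂ)
    (W : (Fin g → ℂ) → Matrix (Fin J) (Fin J) ℂ) : Matrix (S × Fin J) (S × Fin J) ℂ :=
  Matrix.of fun a b => (l a.1 b.1 • (1 : Matrix (Fin J) (Fin J) ℂ)
    - k a.1 b.1 • (W a.1 * (W b.1).conjTranspose)) a.2 b.2

/-- `(k, l, Ω)` is a complete Pick (CP) pair. -/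
def IsCPPair (Ω : Set (Fin g → ℂ)) (k l : (Fin g → ℂ) → (Fin g → ℂ) → ℂ) : Prop :=
  ∀ J : ℕ, 1 ≤ J → ∀ F : Set (Fin g → ℂ), F.Finite → F ⊆ Ω →
    ∀ W : (Fin g → ℂ) → Matrix (Fin J) (Fin J) ℂ, (pickMatrix F J k l W).PosSemidef →
      ∃ Φ : (Fin g → ℂ) → Matrix (Fin J) (Fin J) ℂ,
        (∀ x ∈ F, Φ x = W x) ∧ (pickMatrix Ω J k l Φ).PosSemidef

/-- `ϑ` is the master certificate of the coefficients `k`: `ϑ_0 = 0`, `ϑ_{e_j} = k_{e_j}`, and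
`ϑ_b = max {0, k_b - ∑_{u + v = b, u, v ≠ 0} ϑ_u k_v}` for `|b| ≥ 2`. (These equations determine
`ϑ`.) -/
def IsMasterCertificate (k ϑ : (Fin g →₀ ℕ) → ℝ) : Prop :=
  ϑ 0 = 0 ∧ (∀ j, ϑ (Finsupp.single j 1) = k (Finsupp.single j 1)) ∧
    ∀ b : Fin g →₀ ℕ, 2 ≤ ∑ j, b j →
      ϑ b = max 0 (k b - ∑ p ∈ (antidiagonal b).filter (fun p => p.1 ≠ 0 ∧ p.2 ≠ 0),
        ϑ p.1 * k p.2)

/-- `Ω_ϑ`, the interior of `{x : sup_b ϑ_b |x|^{2b} < ∞}`. -/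
def OmegaTheta (ϑ : (Fin g →₀ ℕ) → ℝ) : Set (Fin g → ℂ) :=
  interior {x | BddAbove (Set.range fun b => ϑ b * absMon b x)}

/-- `Ω¹_ϑ`, the set of `x ∈ Ω_ϑ` with `∑_{b ≠ 0} ϑ_b |x|^{2b} < 1` (here `ϑ_0 = 0`). -/
def OmegaOne (ϑ : (Fin g →₀ ℕ) → ℝ) : Set (Fin g → ℂ) :=
  {x | x ∈ OmegaTheta ϑ ∧ Summable (fun b => ϑ b * absMon b x) ∧ ∑' b, ϑ b * absMon b x < 1}

end Pool.Agent.K1H27.CP
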