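import Mathlib
import Pool.Agent.K1H27.CP.Defs
import Pool.Agent.Helper417.Mer.HartogsExt
import Pool.Agent.Y785.MV.Osg

/-! # Joint holomorphy -/

set_option autoImplicit false

namespace Pool.Agent.K1H27.CP

open Filter Topology Metric Asymptotics
open scoped ComplexConjugate

variable {g : ℕ}

/-- conjugation on both sides preserves holomorphy -/
lemma diff_conj_star {h : (Fin g → ℂ) → ℂ} {v : Fin g → ℂ} (hh : DifferentiableAt ℂ h (star v)) :
    DifferentiableAt ℂ (fun v => conj (h (star v))) v := by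
  set D := fderiv ℂ h (star v) with hD
  have h0 : HasFDerivAt h D (star v) := hh.hasFDerivAt
  let D' : (Fin g → ℂ) →ₗ[ℂ] ℂ :=
    { toFun := fun k => conj (D (star k))
      map_add' := by
        intro x y
        simp [star_add, map_add]
      map_smul' := by
        intro m x
        have : star (m • x) = (conj m) • star x := by
          rw [star_smul]
          rfl
        simp only [this, map_smul, smul_eq_mul, map_mul, Complex.conj_conj, RingHom.id_apply] }
  have h1 : HasFDerivAt (fun v => conj (h (star v))) (LinearMap.toContinuousLinearMap D') v := by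
    rw [hasFDerivAt_iff_isLittleO_nhds_zero] at h0 ⊢
    have h2 := h0.comp_tendsto (k := (star : (Fin g → ℂ) → (Fin g → ℂ))) (l' := 𝓝 0)
      (continuous_star.tendsto' 0 0 (star_zero _))
    rw [← isLittleO_norm_norm] at h2 ⊢
    refine h2.congr (fun k => ?_) fun k => ?_
    · simp only [Function.comp_apply]
      have e1 : conj (h (star (v + k))) - conj (h (star v)) - (LinearMap.toContinuousLinearMap D') k
          = conj (h (star v + star k) - h (star v) - D (star k)) := by
        rw [map_sub, map_sub, star_add]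
        rfl
      rw [e1, RCLike.norm_conj]
    · simp only [Function.comp_apply, norm_star]
  exact h1.differentiableAt

/-- Osgood: a bounded separately holomorphic function on a product is holomorphic -/
theorem osgood_prod {F : (Fin g → ℂ) × (Fin g → ℂ) → ℂ} {a b : Fin g → ℂ} {R M : ℝ} (hR : 0 < R)
    (h1 : ∀ v ∈ ball b R, DifferentiableOn ℂ (fun x => F (x, v)) (ball a R))
    (h2 : ∀ x ∈ ball a R, DifferentiableOn ℂ (fun v => F (x, v)) (ball b R))
    (hM : ∀ x ∈ ball a R, ∀ v ∈ ball b R, ‖F (x, v)‖ ≤ M) : DifferentiableAt ℂ F (a, b) := by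
  have ha : a ∈ ball a R := mem_ball_self hR
  have hb : b ∈ ball b R := mem_ball_self hR
  have hM0 : 0 ≤ M := (norm_nonneg _).trans (hM a ha b hb)
  set D1 := fderiv ℂ (fun x => F (x, b)) a with hD1
  set D2 := fderiv ℂ (fun v => F (a, v)) b with hD2
  set D : (Fin g → ℂ) × (Fin g → ℂ) →L[ℂ] ℂ := D1.coprod D2 with hD
  have hbound : ∀ p : (Fin g → ℂ) × (Fin g → ℂ), p ∈ ball (a, b) (R / 2) →
      ‖F p - F (a, b) - D (p - (a, b))‖ ≤ 24 * M / R ^ 2 * ‖‖p - (a, b)‖ ^ 2‖ := by
    rintro ⟨x, v⟩ hp
    rw [mem_ball, Prod.dist_eq, max_lt_iff] at hp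
    have hx2 : x ∈ ball a (R / 2) := hp.1
    have hv2 : v ∈ ball b (R / 2) := hp.2
    have hx : x ∈ ball a R := ball_subset_ball (by linarith) hx2
    have hv : v ∈ ball b R := ball_subset_ball (by linarith) hv2
    set n := ‖((x, v) : (Fin g → ℂ) × (Fin g → ℂ)) - (a, b)‖ with hn
    have hn0 : 0 ≤ n := norm_nonneg _
    have hxa : ‖x - a‖ ≤ n := norm_fst_le (((x, v) : (Fin g → ℂ) × (Fin g → ℂ)) - (a, b))
    have hvb : ‖v - b‖ ≤ n := norm_snd_le (((x, v) : (Fin g → ℂ) × (Fin g → ℂ)) - (a, b))
    have e1 := Pool.Agent.Helper417.Mer.Hartogs673.norm_sub_sub_fderiv_le hR (h1 b hb)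
      (fun z hz => hM z hz b hb) hx
    have e2 := Pool.Agent.Helper417.Mer.Hartogs673.norm_sub_sub_fderiv_le hR (h2 x hx)
      (fun z hz => hM x hx z hz) hv
    -- the difference of the derivatives
    have e3 : ‖fderiv ℂ (fun v => F (x, v)) b - D2‖ ≤ 4 * (4 * M / R * ‖x - a‖) / R := by
      have hdx : DifferentiableAt ℂ (fun v => F (x, v)) b :=
        (h2 x hx).differentiableAt (ball_mem_nhds b hR)
      have hda : DifferentiableAt ℂ (fun v => F (a, v)) b :=
        (h2 a ha).differentiableAt (ball_mem_nhds b hR)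
      have e4 : fderiv ℂ (fun v => F (x, v)) b - D2 = fderiv ℂ (fun v => F (x, v) - F (a, v)) b := by
        rw [hD2, fderiv_fun_sub hdx hda]
      rw [e4]
      refine Pool.Agent.Helper417.Mer.Hartogs673.norm_fderiv_le_half (c := b)
        ((h2 x hx).sub (h2 a ha)) (fun z hz => ?_) (mem_ball_self (by linarith))
      exact Pool.Agent.Helper417.Mer.Hartogs673.lipschitz_half (c := a) (h1 z hz)
        (fun w hw => hM w hw z hz) (mem_ball_self (by linarith)) hx2
    have e5 : F (x, v) - F (a, b) - D ((x, v) - (a, b))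
        = (F (x, v) - F (x, b) - fderiv ℂ (fun v => F (x, v)) b (v - b))
          + (F (x, b) - F (a, b) - D1 (x - a))
          + (fderiv ℂ (fun v => F (x, v)) b - D2) (v - b) := by
      have : D ((x, v) - (a, b)) = D1 (x - a) + D2 (v - b) := by
        rw [hD]
        simp [ContinuousLinearMap.coprod_apply]
      rw [this, _root_.sub_apply]
      ring
    rw [e5, Real.norm_of_nonneg (by positivity)]
    have e6 : ‖(fderiv ℂ (fun v => F (x, v)) b - D2) (v - b)‖
        ≤ 4 * (4 * M / R * n) / R * n := by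
      refine (ContinuousLinearMap.le_opNorm _ _).trans ?_
      refine mul_le_mul (e3.trans ?_) hvb (norm_nonneg _) (by positivity)
      gcongr
    have e7 : 4 * M * (‖x - a‖ / R) ^ 2 ≤ 4 * M * (n / R) ^ 2 := by gcongr
    have e8 : 4 * M * (‖v - b‖ / R) ^ 2 ≤ 4 * M * (n / R) ^ 2 := by gcongr
    refine (norm_add₃_le).trans ?_
    have e9 : 24 * M / R ^ 2 * n ^ 2 = 4 * M * (n / R) ^ 2 + 4 * M * (n / R) ^ 2
        + 4 * (4 * M / R * n) / R * n := by
      field_simp
      ring
    rw [e9]
    have e2' := e2.trans e8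
    have e1' := e1.trans e7
    linarith
  have hO : (fun p => F p - F (a, b) - D (p - (a, b))) =O[𝓝 (a, b)] fun p => ‖p - (a, b)‖ ^ 2 := by
    refine IsBigO.of_bound (24 * M / R ^ 2) ?_
    filter_upwards [ball_mem_nhds (a, b) (by linarith : 0 < R / 2)] with p hp
    exact hbound p hp
  have hd0 := (hO.hasFDerivAt (𝕜 := ℂ) one_lt_two).differentiableAt
  have hd1 : DifferentiableAt ℂ (fun p : (Fin g → ℂ) × (Fin g → ℂ) => F (a, b) + D (p - (a, b)))
      (a, b) := by fun_prop
  have hd2 := hd0.add hd1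
  refine hd2.congr_of_eventuallyEq (Eventually.of_forall fun p => ?_)
  simp only [Pi.add_apply]
  ring

/-- the identity theorem -/
theorem ident {V : Type*} [NormedAddCommGroup V] [NormedSpace ℂ V] [FiniteDimensional ℂ V]
    {U : Set V} (hU : IsOpen U) (hc : IsPreconnected U) {f : V → ℂ} (hf : DifferentiableOn ℂ f U)
    {x : V} (hx : x ∈ U) (h0 : ∀ᶠ y in 𝓝 x, f y = 0) : ∀ y ∈ U, f y = 0 := by
  have h1 := Pool.Agent.Y785.MV.Osg.analytic hU hf
  exact h1.eqOn_zero_of_preconnected_of_eventuallyEq_zero hc hx h0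

end Pool.Agent.K1H27.CP
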