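import Mathlib
import Pool.Agent.K1H27.CP.Defs
import Pool.Agent.H770R3.ShimF

/-! # Certificates of complete Pick pairs -/

set_option autoImplicit false

namespace Pool.Agent.K1H27.CP

open Pool.Agent.H770R3.Shim
open scoped InnerProductSpace ComplexOrder ComplexConjugate
open Matrix

section general
variable {X : Type*} {N : ℕ}

/-- the Pick matrix over a finite set -/
noncomputable def pickM (k l : Matrix X X ℂ) (F : Finset X)
    (W : X → Matrix (Fin N) (Fin N) ℂ) : Matrix (F × Fin N) (F × Fin N) ℂ :=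
  Matrix.of fun a b =>
    (l a.1 b.1 • (1 : Matrix (Fin N) (Fin N) ℂ) - k a.1 b.1 • (W a.1 * (W b.1)ᴴ)) a.2 b.2

/-- the adjoint linear map of the value of `Φ` -/
noncomputable abbrev adjMap (Φ : X → Matrix (Fin N) (Fin N) ℂ) (x : X) : E N →ₗ[ℂ] E N :=
  Matrix.toEuclideanLin (Φ x)ᴴ

lemma inner_adjMap (A : Matrix (Fin N) (Fin N) ℂ) (v w : E N) :
    ⟪Matrix.toEuclideanLin Aᴴ v, w⟫_ℂ = ⟪v, Matrix.toEuclideanLin A w⟫_ℂ := by
  rw [Matrix.toEuclideanLin_conjTranspose_eq_adjoint, LinearMap.adjoint_inner_left]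

/-- the Pick matrix is positive iff the Pick inequality holds -/
lemma pick_iff {k l : Matrix X X ℂ} (hk : k.PosSemidef) (hl : l.PosSemidef) (F : Finset X)
    (W : X → Matrix (Fin N) (Fin N) ℂ) :
    (pickM k l F W).PosSemidef ↔
      ∀ h : X → E N, Q k F (fun i => adjMap W i (h i)) ≤ Q l F h := by
  classical
  have hP : pickM k l F W
      = formMat l F (fun _ => LinearMap.id) - formMat k F (adjMap W) := by
    ext a b
    simp only [pickM, formMat, Matrix.of_apply, Matrix.sub_apply, Matrix.smul_apply,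
      smul_eq_mul, LinearMap.id_apply]
    congr 1
    · congr 1
      rw [EuclideanSpace.inner_single_left]
      simp [Matrix.one_apply]
    · congr 1
      rw [inner_adjMap, EuclideanSpace.inner_single_left, map_one, one_mul]
      simp [Matrix.toLpLin_apply, Matrix.mul_apply, Matrix.mulVec, dotProduct]
  have hform : ∀ h : X → E N, (star (coord F h) ⬝ᵥ (pickM k l F W *ᵥ coord F h)).re
      = Q l F h - Q k F (fun i => adjMap W i (h i)) := by
    intro h
    rw [hP, Matrix.sub_mulVec, dotProduct_sub, formMat_apply, formMat_apply, Complex.sub_re]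
    rfl
  constructor
  · intro hp h
    have h1 := (Complex.nonneg_iff.mp (hp.dotProduct_mulVec_nonneg (coord F h))).1
    rw [hform] at h1
    linarith
  · intro hQ
    have hh : (pickM k l F W).IsHermitian := by
      rw [hP]
      exact (formMat_herm (psd_herm hl) F _).sub (formMat_herm (psd_herm hk) F _)
    refine Matrix.PosSemidef.of_dotProduct_mulVec_nonneg hh fun c => ?_
    let h : X → E N := fun i => if hi : i ∈ F then WithLp.toLp 2 (fun m => c (⟨i, hi⟩, m)) else 0
    have hc : coord F h = c := by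
      ext ⟨i, m⟩
      simp [coord, h]
    rw [Complex.nonneg_iff]
    constructor
    · rw [← hc, hform]
      linarith [hQ h]
    · exact (hh.im_star_dotProduct_mulVec_self c).symm

end general

variable {g : ℕ}

/-- the restriction of a kernel to a set, as a matrix -/
def rest (S : Set (Fin g → ℂ)) (f : (Fin g → ℂ) → (Fin g → ℂ) → ℂ) : Matrix S S ℂ :=
  Matrix.of fun x y => f x y

lemma IsKernel.mono {Ω S : Set (Fin g → ℂ)} {f : (Fin g → ℂ) → (Fin g → ℂ) → ℂ}
    (h : IsKernel Ω f) (hS : S ⊆ Ω) : IsKernel S f := by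
  have := h.submatrix (Set.inclusion hS)
  exact this

/-- a complete Pick pair has the one-point extension property on every subset -/
theorem onePoint {Ω S : Set (Fin g → ℂ)} (hS : S ⊆ Ω) {k l : (Fin g → ℂ) → (Fin g → ℂ) → ℂ}
    (hk : IsKernel Ω k) (hl : IsKernel Ω l) (hcp : IsCPPair Ω k l) (N : ℕ) :
    OnePoint N (rest S k) (rest S l) := by
  classical
  have hkS : (rest S k).PosSemidef := hk.mono hS
  have hlS : (rest S l).PosSemidef := hl.mono hS
  intro F z hz T hT h
  rcases Nat.eq_zero_or_pos N with hN | hN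
  · subst hN
    have : ∀ (g : Matrix S S ℂ) (h' : S → E 0), Q g F h' = 0 := by
      intro g h'
      unfold Q
      have : ∀ i ∈ F, (∑ j ∈ F, g i j * ⟪h' i, h' j⟫_ℂ) = 0 := fun i _ =>
        Finset.sum_eq_zero fun j _ => by
          rw [Subsingleton.elim (h' i) 0, inner_zero_left, mul_zero]
      rw [Finset.sum_eq_zero this]; simp
    rw [this, this]
  let W : (Fin g → ℂ) → Matrix (Fin N) (Fin N) ℂ := fun x =>
    if hx : x ∈ S then (Matrix.toEuclideanLin.symm (T ⟨x, hx⟩))ᴴ else 0
  have hW : ∀ x : S, adjMap (fun x : S => W x) x = T x := by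
    intro x
    simp only [adjMap, W, x.2, dif_pos, Matrix.conjTranspose_conjTranspose,
      LinearEquiv.apply_symm_apply]
  let F' : Set (Fin g → ℂ) := Subtype.val '' (F : Set S)
  have hF'fin : F'.Finite := F.finite_toSet.image _
  have hF'S : F' ⊆ S := by
    rintro _ ⟨x, -, rfl⟩
    exact x.2
  have hpick : (pickMatrix F' N k l W).PosSemidef := by
    have h1 : (pickM (rest S k) (rest S l) F (fun x : S => W x)).PosSemidef := by
      rw [pick_iff hkS hlS]
      intro h'
      simp only [hW]
      exact hT h'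
    have hmem : ∀ x : F', (⟨(x : Fin g → ℂ), hF'S x.2⟩ : S) ∈ F := by
      rintro ⟨x, s, hs, rfl⟩
      exact hs
    have h2 := h1.submatrix (fun a : F' × Fin N =>
      ((⟨⟨(a.1 : Fin g → ℂ), hF'S a.1.2⟩, hmem a.1⟩ : F), a.2))
    exact h2
  obtain ⟨Φ, hΦ1, hΦ2⟩ := hcp N hN F' hF'fin (hF'S.trans hS) W hpick
  have hΦQ : ∀ (G : Finset S) (h' : S → E N),
      Q (rest S k) G (fun i => adjMap (fun x : S => Φ x) i (h' i)) ≤ Q (rest S l) G h' := by
    intro G
    rw [← pick_iff hkS hlS]
    have h2 := hΦ2.submatrix (fun a : G × Fin N =>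
      ((⟨((a.1 : S) : Fin g → ℂ), hS a.1.1.2⟩ : Ω), a.2))
    exact h2
  let h' : S → E N := Function.update h z (-∑ j ∈ F, (rest S l z j / rest S l z z) • h j)
  have hne : ∀ i ∈ F, i ≠ z := fun i hi e => hz (e ▸ hi)
  have h1 := hΦQ (insert z F) h'
  rw [Q_insert hkS hz, Q_insert hlS hz] at h1
  have e1 : Q (red (rest S k) z) F (fun i => adjMap (fun x : S => Φ x) i (h' i))
      = Q (red (rest S k) z) F (fun i => T i (h i)) :=
    Q_congr _ fun i hi => by
      have : adjMap (fun x : S => Φ x) i = T i := by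
        rw [← hW i]
        simp only [adjMap]
        rw [hΦ1 i ⟨i, hi, rfl⟩]
      rw [this]
      simp only [h', Function.update_of_ne (hne i hi)]
  have e2 : Q (red (rest S l) z) F h' = Q (red (rest S l) z) F h :=
    Q_congr _ fun i hi => by simp only [h', Function.update_of_ne (hne i hi)]
  have e3 : h' z + ∑ j ∈ F, (rest S l z j / rest S l z z) • h' j = 0 := by
    have : ∑ j ∈ F, (rest S l z j / rest S l z z) • h' j
        = ∑ j ∈ F, (rest S l z j / rest S l z z) • h j :=
      Finset.sum_congr rfl fun j hj => by simp only [h', Function.update_of_ne (hne j hj)]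
    rw [this]
    simp [h']
  rw [e1, e2, e3, norm_zero] at h1
  have h2 := mul_nonneg (psd_diag_re hkS z)
    (sq_nonneg ‖(fun i => adjMap (fun x : S => Φ x) i (h' i)) z
      + ∑ j ∈ F, (rest S k z j / rest S k z z) • (fun i => adjMap (fun x : S => Φ x) i (h' i)) j‖)
  nlinarith

/-- the certificate on a subset on which `l` does not vanish on the diagonal -/
theorem exists_cert {Ω S : Set (Fin g → ℂ)} (hS : S ⊆ Ω)
    {k l : (Fin g → ℂ) → (Fin g → ℂ) → ℂ} (hk : IsKernel Ω k) (hl : IsKernel Ω l)
    (hcp : IsCPPair Ω k l) (hl0 : ∀ x ∈ S, l x x ≠ 0) {z : Fin g → ℂ} (hz : z ∈ S) :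
    ∃ p : (Fin g → ℂ) → (Fin g → ℂ) → ℂ, IsKernel S p ∧
      IsKernel S (fun x y => (l x y - l x z * l z y / l z z) - p x y * l x y) ∧
      IsKernel S (fun x y => p x y * k x y - (k x y - k x z * k z y / k z z)) := by
  classical
  obtain ⟨p, h1, h2, h3⟩ := cert (k := rest S k) (l := rest S l) (hk.mono hS) (hl.mono hS)
    (fun x hx => absurd hx (hl0 x x.2)) (onePoint hS hk hl hcp) ⟨z, hz⟩
  let p' : (Fin g → ℂ) → (Fin g → ℂ) → ℂ := fun x y =>
    if hx : x ∈ S then (if hy : y ∈ S then p ⟨x, hx⟩ ⟨y, hy⟩ else 0) else 0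
  have hp' : ∀ x y : S, p' x y = p x y := by
    intro x y
    simp only [p', x.2, y.2, dif_pos]
  refine ⟨p', ?_, ?_, ?_⟩
  · have : (Matrix.of fun x y : S => p' x y) = p := by
      ext x y
      exact hp' x y
    unfold IsKernel
    rw [this]
    exact h1
  · have : (Matrix.of fun x y : S => (l x y - l x z * l z y / l z z) - p' x y * l x y)
        = red (rest S l) ⟨z, hz⟩ - p ⊙ rest S l := by
      ext x y
      simp only [Matrix.of_apply, Matrix.sub_apply, Matrix.hadamard_apply, red, rest, hp']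
    unfold IsKernel
    rw [this]
    exact h2
  · have : (Matrix.of fun x y : S => p' x y * k x y - (k x y - k x z * k z y / k z z))
        = p ⊙ rest S k - red (rest S k) ⟨z, hz⟩ := by
      ext x y
      simp only [Matrix.of_apply, Matrix.sub_apply, Matrix.hadamard_apply, red, rest, hp']
    unfold IsKernel
    rw [this]
    exact h3

end Pool.Agent.K1H27.CP
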