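import Mathlib
import Pool.Agent.K1H27.CP.Defs

/-! # Averages over grids of roots of unity -/

set_option autoImplicit false

namespace Pool.Agent.K1H27.CP

open Finset Filter Topology
open scoped ComplexConjugate Real

variable {g : ℕ}

lemma mon_add (a b : Fin g →₀ ℕ) (x : Fin g → ℂ) : mon (a + b) x = mon a x * mon b x := by
  simp only [mon, Finsupp.add_apply, pow_add, Finset.prod_mul_distrib]

lemma mon_zero (x : Fin g → ℂ) : mon 0 x = 1 := by simp [mon]

lemma norm_mon_torus (a : Fin g →₀ ℕ) {x : Fin g → ℂ} (hx : ∀ j, ‖x j‖ = 1) : ‖mon a x‖ = 1 := by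
  simp [mon, norm_prod, hx]

/-- the primitive root of unity of order `M` -/
noncomputable def ze (M : ℕ) : ℂ := Complex.exp (2 * π * Complex.I / M)

lemma ze_prim {M : ℕ} (hM : M ≠ 0) : IsPrimitiveRoot (ze M) M := Complex.isPrimitiveRoot_exp M hM

lemma norm_ze (M : ℕ) : ‖ze M‖ = 1 := by
  have : ze M = Complex.exp (((2 * π / M : ℝ) : ℂ) * Complex.I) := by
    unfold ze
    congr 1
    push_cast
    ring
  rw [this, Complex.norm_exp_ofReal_mul_I]

/-- the points of the grid -/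
noncomputable def pt (M : ℕ) (n : Fin g → Fin M) : Fin g → ℂ := fun j => ze M ^ (n j : ℕ)

lemma norm_pt (M : ℕ) (n : Fin g → Fin M) (j : Fin g) : ‖pt M n j‖ = 1 := by
  simp [pt, norm_ze]

/-- congruence modulo `M` of multi-indices -/
noncomputable def dl (M : ℕ) (a b : Fin g →₀ ℕ) : ℂ :=
  open Classical in if ∀ j, a j ≡ b j [MOD M] then 1 else 0

lemma norm_dl_le (M : ℕ) (a b : Fin g →₀ ℕ) : ‖dl M a b‖ ≤ 1 := by
  unfold dl
  split_ifs
  · simp
  · simp

lemma dl_comm (M : ℕ) (a b : Fin g →₀ ℕ) : dl M a b = dl M b a := by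
  unfold dl
  congr 1
  exact propext ⟨fun h j => (h j).symm, fun h j => (h j).symm⟩

lemma dl_eventually (a b : Fin g →₀ ℕ) :
    ∀ᶠ M : ℕ in atTop, dl M a b = if a = b then 1 else 0 := by
  filter_upwards [eventually_gt_atTop (∑ j, (a j + b j))] with M hM
  unfold dl
  have hlt : ∀ j, a j < M ∧ b j < M := by
    intro j
    have := Finset.single_le_sum (f := fun j => a j + b j) (fun _ _ => Nat.zero_le _) (mem_univ j)
    omega
  by_cases h : a = b
  · subst h
    rw [if_pos (fun j => Nat.ModEq.refl _), if_pos rfl]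
  · rw [if_neg h, if_neg]
    intro h1
    exact h (Finsupp.ext fun j => Nat.ModEq.eq_of_lt_of_lt (h1 j) (hlt j).1 (hlt j).2)

lemma sum_one {M : ℕ} (hM : M ≠ 0) (a b : ℕ) :
    ∑ m : Fin M, (ze M ^ (m : ℕ)) ^ a * conj ((ze M ^ (m : ℕ)) ^ b)
      = if a ≡ b [MOD M] then (M : ℂ) else 0 := by
  have hz := ze_prim hM
  have hconj : conj (ze M) = (ze M)⁻¹ := by
    rw [Complex.inv_def, Complex.normSq_eq_norm_sq, norm_ze]
    simp
  have hz0 : ze M ≠ 0 := hz.ne_zero hM
  set ω : ℂ := ze M ^ ((a : ℤ) - b) with hω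
  have hω1 : ze M ^ a * ((ze M)⁻¹) ^ b = ω := by
    rw [hω, zpow_sub₀ hz0, zpow_natCast, zpow_natCast, inv_pow, div_eq_mul_inv]
  have hterm : ∀ m : Fin M, (ze M ^ (m : ℕ)) ^ a * conj ((ze M ^ (m : ℕ)) ^ b) = ω ^ (m : ℕ) := by
    intro m
    rw [← hω1, map_pow, map_pow, hconj, mul_pow, ← pow_mul, ← pow_mul, ← pow_mul, ← pow_mul,
      mul_comm _ a, mul_comm _ b]
  simp only [hterm]
  rw [Fin.sum_univ_eq_sum_range (fun m => ω ^ m) M]
  have hiff : ω = 1 ↔ a ≡ b [MOD M] := by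
    rw [hω, hz.zpow_eq_one_iff_dvd, Nat.modEq_iff_dvd, ← dvd_neg, neg_sub]
  split_ifs with h
  · rw [hiff.mpr h]
    simp
  · have h2 : ω ≠ 1 := fun h1 => h (hiff.mp h1)
    have h3 : ω ^ M = 1 := by
      rw [hω, ← zpow_natCast, ← zpow_mul, mul_comm, zpow_mul, zpow_natCast, hz.pow_eq_one, one_zpow]
    rw [geom_sum_eq h2, h3, sub_self, zero_div]

/-- orthogonality -/
lemma orth {M : ℕ} (hM : M ≠ 0) (a b : Fin g →₀ ℕ) :
    ((M : ℂ) ^ g)⁻¹ * ∑ n : Fin g → Fin M, mon a (pt M n) * conj (mon b (pt M n)) = dl M a b := by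
  have hM' : (M : ℂ) ≠ 0 := Nat.cast_ne_zero.mpr hM
  have h1 : ∑ n : Fin g → Fin M, mon a (pt M n) * conj (mon b (pt M n))
      = ∏ j, ∑ m : Fin M, (ze M ^ (m : ℕ)) ^ a j * conj ((ze M ^ (m : ℕ)) ^ b j) := by
    rw [Finset.prod_univ_sum, Fintype.piFinset_univ]
    refine Finset.sum_congr rfl fun n _ => ?_
    simp only [mon, pt, map_prod, Finset.prod_mul_distrib]
  rw [h1]
  simp only [sum_one hM]
  unfold dl
  split_ifs with h
  · have : ∀ j, (if a j ≡ b j [MOD M] then (M : ℂ) else 0) = M := fun j => if_pos (h j)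
    simp only [this]
    rw [Finset.prod_const, Finset.card_univ, Fintype.card_fin]
    exact inv_mul_cancel₀ (pow_ne_zero _ hM')
  · push Not at h
    obtain ⟨j, hj⟩ := h
    rw [Finset.prod_eq_zero (mem_univ j) (if_neg hj), mul_zero]

/-- `K (u, v) = ∑_i C_i u^{α_i} conj(v)^{β_i}` on the torus, absolutely convergent -/
def HasExp {I : Type*} (K : (Fin g → ℂ) → (Fin g → ℂ) → ℂ) (C : I → ℂ) (α β : I → (Fin g →₀ ℕ)) :
    Prop :=
  (Summable fun i => ‖C i‖) ∧ ∀ u v : Fin g → ℂ, (∀ j, ‖u j‖ = 1) → (∀ j, ‖v j‖ = 1) →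
    HasSum (fun i => C i * mon (α i) u * conj (mon (β i) v)) (K u v)

/-- the double average -/
noncomputable def A2 (M : ℕ) (K : (Fin g → ℂ) → (Fin g → ℂ) → ℂ) (a b : Fin g →₀ ℕ) : ℂ :=
  ((M : ℂ) ^ g)⁻¹ * (((M : ℂ) ^ g)⁻¹ * ∑ n : Fin g → Fin M, ∑ m : Fin g → Fin M,
    K (pt M n) (pt M m) * conj (mon a (pt M n)) * mon b (pt M m))

/-- the diagonal average -/
noncomputable def A1 (M : ℕ) (K : (Fin g → ℂ) → (Fin g → ℂ) → ℂ) : ℂ :=
  ((M : ℂ) ^ g)⁻¹ * ∑ n : Fin g → Fin M, K (pt M n) (pt M n)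

section limits
variable {I : Type*} {K : (Fin g → ℂ) → (Fin g → ℂ) → ℂ} {C : I → ℂ} {α β : I → (Fin g →₀ ℕ)}

lemma HasExp.A2_eq (h : HasExp K C α β) {M : ℕ} (hM : M ≠ 0) (a b : Fin g →₀ ℕ) :
    A2 M K a b = ∑' i, C i * dl M (α i) a * dl M b (β i) := by
  have h1 : HasSum (fun i => ((M : ℂ) ^ g)⁻¹ * (((M : ℂ) ^ g)⁻¹ *
      ∑ n : Fin g → Fin M, ∑ m : Fin g → Fin M,
        (C i * mon (α i) (pt M n) * conj (mon (β i) (pt M m))) * conj (mon a (pt M n))
          * mon b (pt M m))) (A2 M K a b) := by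
    unfold A2
    refine HasSum.mul_left _ (HasSum.mul_left _ ?_)
    refine hasSum_sum fun n _ => hasSum_sum fun m _ => ?_
    exact ((h.2 _ _ (norm_pt M n) (norm_pt M m)).mul_right _).mul_right _
  rw [← h1.tsum_eq]
  refine tsum_congr fun i => ?_
  rw [← orth hM (α i) a, ← orth hM b (β i)]
  have : ∑ n : Fin g → Fin M, ∑ m : Fin g → Fin M,
        (C i * mon (α i) (pt M n) * conj (mon (β i) (pt M m))) * conj (mon a (pt M n))
          * mon b (pt M m)
      = C i * (∑ n : Fin g → Fin M, mon (α i) (pt M n) * conj (mon a (pt M n)))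
        * ∑ m : Fin g → Fin M, mon b (pt M m) * conj (mon (β i) (pt M m)) := by
    rw [mul_assoc (C i), Finset.sum_mul_sum, Finset.mul_sum]
    refine Finset.sum_congr rfl fun n _ => ?_
    rw [Finset.mul_sum]
    refine Finset.sum_congr rfl fun m _ => ?_
    ring
  rw [this]
  ring

lemma HasExp.A1_eq (h : HasExp K C α β) {M : ℕ} (hM : M ≠ 0) :
    A1 M K = ∑' i, C i * dl M (α i) (β i) := by
  have h1 : HasSum (fun i => ((M : ℂ) ^ g)⁻¹ * ∑ n : Fin g → Fin M,
        (C i * mon (α i) (pt M n) * conj (mon (β i) (pt M n)))) (A1 M K) := by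
    unfold A1
    refine HasSum.mul_left _ ?_
    refine hasSum_sum fun n _ => ?_
    exact h.2 _ _ (norm_pt M n) (norm_pt M n)
  rw [← h1.tsum_eq]
  refine tsum_congr fun i => ?_
  rw [← orth hM (α i) (β i)]
  have : ∑ n : Fin g → Fin M, C i * mon (α i) (pt M n) * conj (mon (β i) (pt M n))
      = C i * ∑ n : Fin g → Fin M, mon (α i) (pt M n) * conj (mon (β i) (pt M n)) := by
    rw [Finset.mul_sum]
    refine Finset.sum_congr rfl fun n _ => ?_
    ring
  rw [this]
  ring

theorem HasExp.tendsto_A2 (h : HasExp K C α β) (a b : Fin g →₀ ℕ) :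
    Tendsto (fun M : ℕ => A2 M K a b) atTop
      (𝓝 (∑' i, C i * (if α i = a then 1 else 0) * (if b = β i then 1 else 0))) := by
  have h1 : Tendsto (fun M : ℕ => ∑' i, C i * dl M (α i) a * dl M b (β i)) atTop
      (𝓝 (∑' i, C i * (if α i = a then 1 else 0) * (if b = β i then 1 else 0))) := by
    refine tendsto_tsum_of_dominated_convergence h.1 (fun i => ?_) ?_
    · refine Tendsto.congr' ?_ tendsto_const_nhds
      filter_upwards [dl_eventually (α i) a, dl_eventually b (β i)] with M h2 h3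
      rw [h2, h3]
    · filter_upwards with M i
      rw [norm_mul, norm_mul]
      have h2 := norm_dl_le M (α i) a
      have h3 := norm_dl_le M b (β i)
      calc ‖C i‖ * ‖dl M (α i) a‖ * ‖dl M b (β i)‖ ≤ ‖C i‖ * 1 * 1 := by gcongr
        _ = ‖C i‖ := by ring
  refine h1.congr' ?_
  filter_upwards [eventually_gt_atTop 0] with M hM
  exact (h.A2_eq hM.ne' a b).symm

theorem HasExp.tendsto_A1 (h : HasExp K C α β) :
    Tendsto (fun M : ℕ => A1 M K) atTop
      (𝓝 (∑' i, C i * (if α i = β i then 1 else 0))) := by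
  have h1 : Tendsto (fun M : ℕ => ∑' i, C i * dl M (α i) (β i)) atTop
      (𝓝 (∑' i, C i * (if α i = β i then 1 else 0))) := by
    refine tendsto_tsum_of_dominated_convergence h.1 (fun i => ?_) ?_
    · refine Tendsto.congr' ?_ tendsto_const_nhds
      filter_upwards [dl_eventually (α i) (β i)] with M h2
      rw [h2]
    · filter_upwards with M i
      rw [norm_mul]
      have h2 := norm_dl_le M (α i) (β i)
      calc ‖C i‖ * ‖dl M (α i) (β i)‖ ≤ ‖C i‖ * 1 := by gcongr
        _ = ‖C i‖ := by ring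
  refine h1.congr' ?_
  filter_upwards [eventually_gt_atTop 0] with M hM
  exact (h.A1_eq hM.ne').symm

lemma HasExp.mul {I' : Type*} {K' : (Fin g → ℂ) → (Fin g → ℂ) → ℂ} {C' : I' → ℂ}
    {α' β' : I' → (Fin g →₀ ℕ)} (h : HasExp K C α β) (h' : HasExp K' C' α' β') :
    HasExp (fun u v => K u v * K' u v) (fun p : I × I' => C p.1 * C' p.2)
      (fun p => α p.1 + α' p.2) (fun p => β p.1 + β' p.2) := by
  constructor
  · have := Summable.mul_of_nonneg h.1 h'.1 (fun _ => norm_nonneg _) (fun _ => norm_nonneg _)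
    simpa only [norm_mul] using this
  · intro u v hu hv
    have h1 := h.2 u v hu hv
    have h2 := h'.2 u v hu hv
    have n1 : Summable fun i => ‖C i * mon (α i) u * conj (mon (β i) v)‖ := by
      simpa only [norm_mul, RCLike.norm_conj, norm_mon_torus _ hu, norm_mon_torus _ hv, mul_one]
        using h.1
    have n2 : Summable fun i => ‖C' i * mon (α' i) u * conj (mon (β' i) v)‖ := by
      simpa only [norm_mul, RCLike.norm_conj, norm_mon_torus _ hu, norm_mon_torus _ hv, mul_one]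
        using h'.1
    have n3 : Summable fun p : I × I' => (C p.1 * mon (α p.1) u * conj (mon (β p.1) v))
          * (C' p.2 * mon (α' p.2) u * conj (mon (β' p.2) v)) := by
      refine Summable.of_norm ?_
      have := Summable.mul_of_nonneg n1 n2 (fun _ => norm_nonneg _) (fun _ => norm_nonneg _)
      simpa only [norm_mul] using this
    have h3 := h1.mul h2 n3
    have h4 : (fun p : I × I' => C p.1 * C' p.2 * mon (α p.1 + α' p.2) u
        * conj (mon (β p.1 + β' p.2) v)) = fun p : I × I' =>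
        (C p.1 * mon (α p.1) u * conj (mon (β p.1) v))
          * (C' p.2 * mon (α' p.2) u * conj (mon (β' p.2) v)) := by
      funext p
      rw [mon_add, mon_add, map_mul]
      ring
    rw [h4]
    exact h3

end limits

end Pool.Agent.K1H27.CP
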