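import Mathlib
import Pool.Agent.K1H27.CP.Grid
import Pool.Agent.Helper655.BDMV

/-! # Power series expansions on polydiscs -/

set_option autoImplicit false

namespace Pool.Agent.K1H27.CP

open Finset Filter Topology
open scoped ComplexConjugate Real

variable {g : ℕ}

/-- pairs of multi-indices as functions -/
noncomputable def pairEquiv (g : ℕ) : (Fin g →₀ ℕ) × (Fin g →₀ ℕ) ≃ (Fin (g + g) → ℕ) :=
  (Finsupp.equivFunOnFinite.prodCongr Finsupp.equivFunOnFinite).trans (Fin.appendEquiv g g)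

lemma pairEquiv_castAdd (p : (Fin g →₀ ℕ) × (Fin g →₀ ℕ)) (j : Fin g) :
    pairEquiv g p (Fin.castAdd g j) = p.1 j := by
  show Fin.append _ _ (Fin.castAdd g j) = _
  rw [Fin.append_left]
  rfl

lemma pairEquiv_natAdd (p : (Fin g →₀ ℕ) × (Fin g →₀ ℕ)) (j : Fin g) :
    pairEquiv g p (Fin.natAdd g j) = p.2 j := by
  show Fin.append _ _ (Fin.natAdd g j) = _
  rw [Fin.append_right]
  rfl

/-- expansion of a holomorphic function of the pair `(u, v)` -/
theorem exp_pair {R : ℝ} (hR : 1 < R) (f : (Fin g → ℂ) × (Fin g → ℂ) → ℂ)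
    (hf : ∀ p : (Fin g → ℂ) × (Fin g → ℂ), ‖p.1‖ ≤ R → ‖p.2‖ ≤ R → DifferentiableAt ℂ f p)
    {M : ℝ} (hM : ∀ p : (Fin g → ℂ) × (Fin g → ℂ), ‖p.1‖ ≤ R → ‖p.2‖ ≤ R → ‖f p‖ ≤ M) :
    ∃ C : (Fin g →₀ ℕ) × (Fin g →₀ ℕ) → ℂ, (Summable fun p => ‖C p‖) ∧
      ∀ u v : Fin g → ℂ, ‖u‖ < R → ‖v‖ < R →
        HasSum (fun p => C p * mon p.1 u * mon p.2 v) (f (u, v)) := by
  have hR0 : 0 < R := by linarith
  set φ : (Fin (g + g) → ℂ) → (Fin g → ℂ) × (Fin g → ℂ) := fun w =>
    (fun j => w (Fin.castAdd g j), fun j => w (Fin.natAdd g j)) with hφ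
  have hφd : Differentiable ℂ φ := by
    refine Differentiable.prodMk ?_ ?_
    · rw [differentiable_pi]
      intro j
      fun_prop
    · rw [differentiable_pi]
      intro j
      fun_prop
  have hφn : ∀ w, ‖w‖ ≤ R → ‖(φ w).1‖ ≤ R ∧ ‖(φ w).2‖ ≤ R := by
    intro w hw
    constructor
    · exact (pi_norm_le_iff_of_nonneg hR0.le).mpr fun j => (norm_le_pi_norm w _).trans hw
    · exact (pi_norm_le_iff_of_nonneg hR0.le).mpr fun j => (norm_le_pi_norm w _).trans hw
  obtain ⟨a, ha, has⟩ := Pool.Agent.Helper655.BDMV.expansion hR0 (fun w => f (φ w))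
    (fun w hw => by
      rw [mem_closedBall_zero_iff] at hw
      exact (hf _ (hφn w hw).1 (hφn w hw).2).comp w (hφd w)) (M := M) (fun w hw => by
      rw [mem_closedBall_zero_iff] at hw
      exact hM _ (hφn w hw).1 (hφn w hw).2)
  have hM0 : 0 ≤ M := le_trans (norm_nonneg _) (hM 0 (by simpa using hR0.le) (by simpa using hR0.le))
  refine ⟨fun p => a (pairEquiv g p), ?_, ?_⟩
  · have h1 := (Pool.Agent.Helper655.BDMV.geom_prod (g + g) (fun _ => ((R⁻¹ : ℝ) : ℂ))
      (fun i => by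
        rw [Complex.norm_real, Real.norm_of_nonneg (by positivity)]
        exact inv_lt_one_of_one_lt₀ hR)).1
    have h2 : Summable fun β : Fin (g + g) → ℕ => ‖a β‖ := by
      refine Summable.of_nonneg_of_le (fun _ => norm_nonneg _) (fun β => ?_) (h1.mul_left M)
      rw [Pool.Agent.Helper655.BDMV.norm_mon]
      have h3 := ha β
      have h4 : ∏ i, ‖((R⁻¹ : ℝ) : ℂ)‖ ^ β i = (R ^ (∑ i, β i))⁻¹ := by
        rw [Complex.norm_real, Real.norm_of_nonneg (by positivity), Finset.prod_pow_eq_pow_sum,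
          inv_pow]
      rw [h4, ← div_eq_mul_inv, le_div_iff₀ (by positivity)]
      exact h3
    exact (pairEquiv g).summable_iff.mpr h2
  · intro u v hu hv
    set w : Fin (g + g) → ℂ := Fin.append u v with hw
    have hφw : φ w = (u, v) := by
      simp only [hφ, hw]
      ext j
      · simp only [Fin.append_left]
      · simp only [Fin.append_right]
    have hwn : ‖w‖ < R := by
      rw [pi_norm_lt_iff hR0]
      intro i
      refine Fin.addCases (fun j => ?_) (fun j => ?_) i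
      · rw [hw, Fin.append_left]
        exact (norm_le_pi_norm u j).trans_lt hu
      · rw [hw, Fin.append_right]
        exact (norm_le_pi_norm v j).trans_lt hv
    have h1 := has w hwn
    rw [hφw] at h1
    have h2 := (pairEquiv g).hasSum_iff.mpr h1
    have h3 : (fun p : (Fin g →₀ ℕ) × (Fin g →₀ ℕ) => a (pairEquiv g p) * mon p.1 u * mon p.2 v)
        = (fun β => Pool.Agent.Helper655.BDMV.mon w β • a β) ∘ (pairEquiv g) := by
      funext p
      simp only [Function.comp_apply, Pool.Agent.Helper655.BDMV.mon, smul_eq_mul]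
      rw [Fin.prod_univ_add]
      simp only [pairEquiv_castAdd, pairEquiv_natAdd, hw, Fin.append_left, Fin.append_right, mon]
      ring
    rw [h3]
    exact h2

/-- the scaled point `(y_j u_j)` -/
def sc (y : Fin g → ℝ) (u : Fin g → ℂ) : Fin g → ℂ := fun j => (y j : ℂ) * u j

/-- the weight `∏ y_j^{a_j}` -/
def yw (y : Fin g → ℝ) (a : Fin g →₀ ℕ) : ℝ := ∏ j, y j ^ a j

lemma mon_sc (y : Fin g → ℝ) (a : Fin g →₀ ℕ) (u : Fin g → ℂ) :
    mon a (sc y u) = (yw y a : ℂ) * mon a u := by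
  simp only [mon, sc, yw, mul_pow, Finset.prod_mul_distrib]
  push_cast
  rfl

lemma yw_pos {y : Fin g → ℝ} (hy : ∀ j, 0 < y j) (a : Fin g →₀ ℕ) : 0 < yw y a :=
  Finset.prod_pos fun j _ => pow_pos (hy j) _

lemma yw_add (y : Fin g → ℝ) (a b : Fin g →₀ ℕ) : yw y (a + b) = yw y a * yw y b := by
  simp only [yw, Finsupp.add_apply, pow_add, Finset.prod_mul_distrib]

lemma yw_zero (y : Fin g → ℝ) : yw y 0 = 1 := by simp [yw]

lemma star_sc (y : Fin g → ℝ) (u : Fin g → ℂ) : star (sc y u) = sc y (star u) := by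
  funext j
  simp [sc]

lemma mon_star (a : Fin g →₀ ℕ) (u : Fin g → ℂ) : mon a (star u) = conj (mon a u) := by
  simp [mon, map_prod]

lemma norm_torus_le {u : Fin g → ℂ} (hu : ∀ j, ‖u j‖ = 1) : ‖u‖ ≤ 1 :=
  (pi_norm_le_iff_of_nonneg zero_le_one).mpr fun j => (hu j).le

/-- uniqueness of the coefficients -/
lemma HasExp.unique {K : (Fin g → ℂ) → (Fin g → ℂ) → ℂ}
    {C : (Fin g →₀ ℕ) × (Fin g →₀ ℕ) → ℂ} {c' : (Fin g →₀ ℕ) → ℂ}
    (h : HasExp K C Prod.fst Prod.snd) (h' : HasExp K c' id id) (a b : Fin g →₀ ℕ) :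
    C (a, b) = if a = b then c' a else 0 := by
  classical
  have h1 := h.tendsto_A2 a b
  have h2 := h'.tendsto_A2 a b
  have h3 := tendsto_nhds_unique h1 h2
  rw [tsum_eq_single (a, b), tsum_eq_single a] at h3
  · simp only [id_eq, if_true, mul_one] at h3
    rw [h3]
    by_cases hab : a = b
    · simp [hab]
    · simp [hab, Ne.symm hab]
  · intro d hd
    simp [hd]
  · rintro ⟨a', b'⟩ hd
    by_cases h4 : a' = a
    · by_cases h5 : b = b'
      · exact absurd (by rw [h4, h5]) hd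
      · simp [h5]
    · simp [h4]

/-- the sesqui-holomorphic function `k` with the diagonal expansion `c` at the origin has this
expansion on every torus whose polydisc is contained in the domain -/
theorem diag_exp {k : (Fin g → ℂ) → (Fin g → ℂ) → ℂ} {c : (Fin g →₀ ℕ) → ℝ}
    (hc : ∀ a, 0 ≤ c a) (hk : HasDiagonalExpansion k c) {y : Fin g → ℝ} {R : ℝ} (hR : 1 < R)
    (hd : ∀ p : (Fin g → ℂ) × (Fin g → ℂ), ‖p.1‖ ≤ R → ‖p.2‖ ≤ R →
      DifferentiableAt ℂ (fun p => k (sc y p.1) (star (sc y p.2))) p) :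
    HasExp (fun u v => k (sc y u) (sc y v)) (fun a => ((c a * yw y a ^ 2 : ℝ) : ℂ)) id id := by
  classical
  set f : (Fin g → ℂ) × (Fin g → ℂ) → ℂ := fun p => k (sc y p.1) (star (sc y p.2)) with hf
  have hR0 : 0 < R := by linarith
  obtain ⟨M, hM⟩ : ∃ M, ∀ p : (Fin g → ℂ) × (Fin g → ℂ), ‖p.1‖ ≤ R → ‖p.2‖ ≤ R → ‖f p‖ ≤ M := by
    have hcomp : IsCompact (Metric.closedBall (0 : (Fin g → ℂ) × (Fin g → ℂ)) R) :=
      isCompact_closedBall _ _
    obtain ⟨M, hM⟩ := hcomp.exists_bound_of_continuousOn (f := f) (fun p hp => by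
      rw [mem_closedBall_zero_iff, Prod.norm_def, max_le_iff] at hp
      exact (hd p hp.1 hp.2).continuousAt.continuousWithinAt)
    refine ⟨M, fun p h1 h2 => hM p ?_⟩
    rw [mem_closedBall_zero_iff, Prod.norm_def, max_le_iff]
    exact ⟨h1, h2⟩
  obtain ⟨C, hC1, hC2⟩ := exp_pair hR f hd hM
  have hK : HasExp (fun u v => k (sc y u) (sc y v)) C Prod.fst Prod.snd := by
    refine ⟨hC1, fun u v hu hv => ?_⟩
    have h1 := hC2 u (star v) ((norm_torus_le hu).trans_lt hR) (by
      rw [norm_star]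
      exact (norm_torus_le hv).trans_lt hR)
    simp only [hf, star_sc, star_star, mon_star] at h1
    exact h1
  -- comparison on a small torus
  rw [HasDiagonalExpansion, Metric.eventually_nhds_iff] at hk
  obtain ⟨δ, hδ, hk⟩ := hk
  obtain ⟨ε, hε0, hε1, hε⟩ : ∃ ε : ℝ, 0 < ε ∧ ε ≤ 1 ∧ ∀ u : Fin g → ℂ, (∀ j, ‖u j‖ = 1) →
      ‖sc y ((ε : ℂ) • u)‖ < δ := by
    refine ⟨min 1 (δ / (2 * (‖y‖ + 1))), ?_, min_le_left _ _, ?_⟩
    · have : 0 < ‖y‖ + 1 := by positivity
      positivity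
    · intro u hu
      rw [pi_norm_lt_iff hδ]
      intro j
      simp only [sc, Pi.smul_apply, smul_eq_mul, norm_mul, hu j, mul_one, Complex.norm_real]
      have h1 : ‖y j‖ ≤ ‖y‖ := norm_le_pi_norm y j
      have h2 : 0 < ‖y‖ + 1 := by positivity
      have h3 : ‖min 1 (δ / (2 * (‖y‖ + 1)))‖ ≤ δ / (2 * (‖y‖ + 1)) := by
        rw [Real.norm_of_nonneg (by positivity)]
        exact min_le_right _ _
      calc ‖y j‖ * ‖min 1 (δ / (2 * (‖y‖ + 1)))‖ ≤ (‖y‖ + 1) * (δ / (2 * (‖y‖ + 1))) := by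
            gcongr
            linarith
        _ = δ / 2 := by field_simp
        _ < δ := by linarith
  have hmonε : ∀ (a : Fin g →₀ ℕ) (u : Fin g → ℂ), mon a ((ε : ℂ) • u)
      = ((ε ^ (∑ j, a j) : ℝ) : ℂ) * mon a u := by
    intro a u
    simp only [mon, Pi.smul_apply, smul_eq_mul, mul_pow, Finset.prod_mul_distrib,
      Finset.prod_pow_eq_pow_sum]
    push_cast
    rfl
  have hK1 : HasExp (fun u v => k (sc y ((ε : ℂ) • u)) (sc y ((ε : ℂ) • v)))
      (fun p => C p * ((ε ^ (∑ j, p.1 j) : ℝ) : ℂ) * ((ε ^ (∑ j, p.2 j) : ℝ) : ℂ))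
      Prod.fst Prod.snd := by
    constructor
    · refine Summable.of_nonneg_of_le (fun _ => norm_nonneg _) (fun p => ?_) hC1
      rw [norm_mul, norm_mul, Complex.norm_real, Complex.norm_real,
        Real.norm_of_nonneg (by positivity), Real.norm_of_nonneg (by positivity)]
      have h1 : ε ^ (∑ j, p.1 j) ≤ 1 := pow_le_one₀ hε0.le hε1
      have h2 : ε ^ (∑ j, p.2 j) ≤ 1 := pow_le_one₀ hε0.le hε1
      calc ‖C p‖ * ε ^ (∑ j, p.1 j) * ε ^ (∑ j, p.2 j) ≤ ‖C p‖ * 1 * 1 := by gcongr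
        _ = ‖C p‖ := by ring
    · intro u v hu hv
      have hn : ∀ u : Fin g → ℂ, (∀ j, ‖u j‖ = 1) → ‖(ε : ℂ) • u‖ < R := by
        intro u hu
        rw [norm_smul, Complex.norm_real, Real.norm_of_nonneg hε0.le]
        calc ε * ‖u‖ ≤ 1 * 1 := by
              have := norm_torus_le hu
              gcongr
          _ < R := by linarith
      have h1 := hC2 ((ε : ℂ) • u) (star ((ε : ℂ) • v)) (hn u hu) (by
        rw [norm_star]
        exact hn v hv)
      simp only [hf, star_sc, star_star, mon_star, hmonε, map_mul, Complex.conj_ofReal] at h1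
      convert h1 using 2
      ring
  have hK2 : HasExp (fun u v => k (sc y ((ε : ℂ) • u)) (sc y ((ε : ℂ) • v)))
      (fun a => ((c a * yw y a ^ 2 * (ε ^ (∑ j, a j)) ^ 2 : ℝ) : ℂ)) id id := by
    have hs : ∀ u v : Fin g → ℂ, (∀ j, ‖u j‖ = 1) → (∀ j, ‖v j‖ = 1) →
        HasSum (fun a => ((c a * yw y a ^ 2 * (ε ^ (∑ j, a j)) ^ 2 : ℝ) : ℂ) * mon (id a) u
          * conj (mon (id a) v)) (k (sc y ((ε : ℂ) • u)) (sc y ((ε : ℂ) • v))) := by
      intro u v hu hv
      have h1 := hk (y := (sc y ((ε : ℂ) • u), sc y ((ε : ℂ) • v))) (by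
        rw [Prod.dist_eq, max_lt_iff, dist_zero_right, dist_zero_right]
        exact ⟨hε u hu, hε v hv⟩)
      simp only [mon_sc, hmonε, map_mul, Complex.conj_ofReal] at h1
      convert h1 using 2
      simp only [id_eq]
      push_cast
      ring
    refine ⟨?_, hs⟩
    have h1 := hs 1 1 (by simp) (by simp)
    have h2 : ∀ a : Fin g →₀ ℕ, mon a (1 : Fin g → ℂ) = 1 := by
      intro a
      simp [mon]
    simp only [h2, id_eq, map_one, mul_one] at h1
    have h3 := h1.summable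
    rw [Complex.summable_ofReal] at h3
    refine h3.congr fun a => ?_
    rw [Complex.norm_real, Real.norm_of_nonneg]
    have := hc a
    positivity
  have huniq : ∀ a b, C (a, b) = if a = b then ((c a * yw y a ^ 2 : ℝ) : ℂ) else 0 := by
    intro a b
    have h1 := hK1.unique hK2 a b
    simp only at h1
    have hεa : ((ε ^ (∑ j, a j) : ℝ) : ℂ) ≠ 0 := by
      rw [Complex.ofReal_ne_zero]
      positivity
    have hεb : ((ε ^ (∑ j, b j) : ℝ) : ℂ) ≠ 0 := by
      rw [Complex.ofReal_ne_zero]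
      positivity
    by_cases hab : a = b
    · subst hab
      rw [if_pos rfl] at h1 ⊢
      have h2 : C (a, a) * (((ε ^ (∑ j, a j) : ℝ) : ℂ) * ((ε ^ (∑ j, a j) : ℝ) : ℂ))
          = ((c a * yw y a ^ 2 : ℝ) : ℂ)
            * (((ε ^ (∑ j, a j) : ℝ) : ℂ) * ((ε ^ (∑ j, a j) : ℝ) : ℂ)) := by
        rw [← mul_assoc, h1]
        push_cast
        ring
      exact mul_right_cancel₀ (mul_ne_zero hεa hεa) h2
    · rw [if_neg hab] at h1 ⊢
      rw [mul_assoc] at h1
      exact (mul_eq_zero.mp h1).resolve_right (mul_ne_zero hεa hεb)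
  -- conclusion
  have hinj : Function.Injective (fun a : Fin g →₀ ℕ => (a, a)) := fun a b h => (Prod.mk.inj h).1
  constructor
  · have h1 := hC1.comp_injective hinj
    refine h1.congr fun a => ?_
    simp only [Function.comp_apply]
    rw [huniq a a, if_pos rfl]
  · intro u v hu hv
    have h1 := hK.2 u v hu hv
    rw [← hinj.hasSum_iff] at h1
    · convert h1 using 2
      simp only [Function.comp_apply, huniq, if_true, id_eq]
    · rintro ⟨a, b⟩ hab
      have : a ≠ b := by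
        rintro rfl
        exact hab ⟨a, rfl⟩
      rw [huniq a b, if_neg this, zero_mul, zero_mul]

end Pool.Agent.K1H27.CP
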