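import Mathlib
import Pool.Agent.K1H27.CP.Exp

/-! # Coefficient inequalities -/

set_option autoImplicit false

namespace Pool.Agent.K1H27.CP

open Finset Filter Topology
open scoped ComplexConjugate Real ComplexOrder

variable {g : ℕ} {Ω : Set (Fin g → ℂ)} {f : (Fin g → ℂ) → (Fin g → ℂ) → ℂ}

lemma IsKernel.herm (h : IsKernel Ω f) {x y : Fin g → ℂ} (hx : x ∈ Ω) (hy : y ∈ Ω) :
    conj (f x y) = f y x := by
  have := h.1.apply ⟨y, hy⟩ ⟨x, hx⟩
  simpa using this

lemma IsKernel.fin (h : IsKernel Ω f) {ι : Type*} [Fintype ι] (x : ι → Fin g → ℂ)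
    (hx : ∀ i, x i ∈ Ω) : (Matrix.of fun i j => f (x i) (x j)).PosSemidef := by
  have := h.submatrix (fun i => (⟨x i, hx i⟩ : Ω))
  exact this

lemma IsKernel.sum_nonneg (h : IsKernel Ω f) {ι : Type*} [Fintype ι] (x : ι → Fin g → ℂ)
    (hx : ∀ i, x i ∈ Ω) (ξ : ι → ℂ) :
    0 ≤ (∑ i, ∑ j, f (x i) (x j) * conj (ξ i) * ξ j).re := by
  have h1 := (Complex.nonneg_iff.mp ((h.fin x hx).dotProduct_mulVec_nonneg ξ)).1
  have h2 : star ξ ⬝ᵥ ((Matrix.of fun i j => f (x i) (x j)).mulVec ξ)
      = ∑ i, ∑ j, f (x i) (x j) * conj (ξ i) * ξ j := by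
    simp only [dotProduct, Matrix.mulVec, Matrix.of_apply, Finset.mul_sum, Pi.star_apply,
      RCLike.star_def]
    refine Finset.sum_congr rfl fun i _ => Finset.sum_congr rfl fun j _ => ?_
    ring
  rw [h2] at h1
  exact h1

lemma IsKernel.diag_im (h : IsKernel Ω f) {x : Fin g → ℂ} (hx : x ∈ Ω) : (f x x).im = 0 := by
  have := h.herm hx hx
  exact Complex.conj_eq_iff_im.mp this

lemma IsKernel.diag_re (h : IsKernel Ω f) {x : Fin g → ℂ} (hx : x ∈ Ω) : 0 ≤ (f x x).re := by
  have := h.sum_nonneg (ι := Unit) (fun _ => x) (fun _ => hx) (fun _ => 1)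
  simpa using this

lemma IsKernel.diag_eq (h : IsKernel Ω f) {x : Fin g → ℂ} (hx : x ∈ Ω) :
    f x x = ((f x x).re : ℂ) := by
  apply Complex.ext
  · simp
  · simp [h.diag_im hx]

lemma re_A2_nonneg {K : (Fin g → ℂ) → (Fin g → ℂ) → ℂ} (h : IsKernel Ω f) {y : Fin g → ℝ}
    (hy : ∀ u : Fin g → ℂ, (∀ j, ‖u j‖ = 1) → sc y u ∈ Ω)
    (hK : ∀ u v, K u v = f (sc y u) (sc y v)) (M : ℕ) (a : Fin g →₀ ℕ) :
    0 ≤ (A2 M K a a).re := by
  unfold A2
  have h1 : (((M : ℂ) ^ g)⁻¹) = ((((M : ℝ) ^ g)⁻¹ : ℝ) : ℂ) := by push_cast; rfl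
  rw [h1, Complex.re_ofReal_mul, Complex.re_ofReal_mul]
  refine mul_nonneg (by positivity) (mul_nonneg (by positivity) ?_)
  simp only [hK]
  exact h.sum_nonneg (fun n : Fin g → Fin M => sc y (pt M n)) (fun n => hy _ (norm_pt M n))
    (fun n => mon a (pt M n))

/-- the finite sum in the product -/
lemma tsum_prod (C : (Fin g →₀ ℕ) × (Fin g →₀ ℕ) → ℂ) (c' : (Fin g →₀ ℕ) → ℂ) (a : Fin g →₀ ℕ) :
    ∑' p : ((Fin g →₀ ℕ) × (Fin g →₀ ℕ)) × (Fin g →₀ ℕ), C p.1 * c' p.2
      * (if p.1.1 + p.2 = a then 1 else 0) * (if a = p.1.2 + p.2 then 1 else 0)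
      = ∑ p ∈ antidiagonal a, C (p.1, p.1) * c' p.2 := by
  classical
  rw [tsum_eq_sum (s := (antidiagonal a).image
    fun p : (Fin g →₀ ℕ) × (Fin g →₀ ℕ) => ((p.1, p.1), p.2))]
  · rw [Finset.sum_image]
    · refine Finset.sum_congr rfl fun p hp => ?_
      rw [HasAntidiagonal.mem_antidiagonal] at hp
      simp [hp]
    · rintro ⟨a1, a2⟩ _ ⟨b1, b2⟩ _ hab
      simp only [Prod.mk.injEq] at hab
      rw [hab.1.1, hab.2]
  · rintro ⟨⟨p1, p2⟩, d⟩ hp
    by_cases h1 : p1 + d = a
    · by_cases h2 : a = p2 + d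
      · exfalso
        apply hp
        have h3 : p1 = p2 := add_right_cancel (h1.trans h2)
        subst h3
        exact Finset.mem_image.mpr ⟨(p1, d), HasAntidiagonal.mem_antidiagonal.mpr h1, rfl⟩
      · simp [h2]
    · simp [h1]

theorem coef {P k : (Fin g → ℂ) → (Fin g → ℂ) → ℂ} {z : Fin g → ℂ} (hz : z ∈ Ω)
    (hk : IsKernel Ω k) (hP : IsKernel Ω P) (hP1 : ∀ x ∈ Ω, (P x x).re ≤ 1)
    (hPk : IsKernel Ω fun x w => P x w * k x w - (k x w - k x z * k z w / k z z))
    {y : Fin g → ℝ} (hy : ∀ u : Fin g → ℂ, (∀ j, ‖u j‖ = 1) → sc y u ∈ Ω)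
    {C : (Fin g →₀ ℕ) × (Fin g →₀ ℕ) → ℂ} {c' : (Fin g →₀ ℕ) → ℝ}
    (hC : HasExp (fun u v => P (sc y u) (sc y v)) C Prod.fst Prod.snd)
    (hc : HasExp (fun u v => k (sc y u) (sc y v)) (fun a => (c' a : ℂ)) id id) :
    (∀ a, 0 ≤ (C (a, a)).re) ∧ (∀ T : Finset (Fin g →₀ ℕ), ∑ a ∈ T, (C (a, a)).re ≤ 1) ∧
      ∀ ε : ℝ, (∀ u : Fin g → ℂ, (∀ j, ‖u j‖ = 1) → ‖k (sc y u) z - 1‖ ≤ ε) →
        0 < (k z z).re → ∀ a, a ≠ 0 → c' a - ε ^ 2 / (k z z).re
          ≤ ∑ p ∈ antidiagonal a, (C (p.1, p.1)).re * c' p.2 := by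
  classical
  have hpos : ∀ a, 0 ≤ (C (a, a)).re := by
    intro a
    have h1 := hC.tendsto_A2 a a
    rw [tsum_eq_single (a, a)] at h1
    · simp only [if_true, mul_one] at h1
      exact ge_of_tendsto ((Complex.continuous_re.tendsto _).comp h1)
        (Eventually.of_forall fun M => re_A2_nonneg hP hy (fun _ _ => rfl) M a)
    · rintro ⟨a', b'⟩ hd
      by_cases h4 : a' = a
      · by_cases h5 : a = b'
        · exact absurd (by rw [h4, ← h5]) hd
        · simp [h5]
      · simp [h4]
  have hinj : Function.Injective (fun a : Fin g →₀ ℕ => (a, a)) := fun a b h => (Prod.mk.inj h).1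
  have hsumC : Summable fun a => C (a, a) := (hC.1.comp_injective hinj).of_norm
  refine ⟨hpos, ?_, ?_⟩
  · intro T
    have h1 := hC.tendsto_A1
    have h2 : ∑' p : (Fin g →₀ ℕ) × (Fin g →₀ ℕ), C p * (if p.1 = p.2 then 1 else 0)
        = ∑' a, C (a, a) := by
      rw [← hinj.tsum_eq]
      · refine tsum_congr fun a => ?_
        simp
      · rintro ⟨a, b⟩ hab
        simp only [Function.mem_support, ne_eq] at hab
        by_cases h : a = b
        · exact ⟨a, by rw [h]⟩
        · simp [h] at hab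
    rw [h2] at h1
    have h3 : (∑' a, C (a, a)).re ≤ 1 := by
      refine le_of_tendsto ((Complex.continuous_re.tendsto _).comp h1) ?_
      filter_upwards [eventually_gt_atTop 0] with M hM
      simp only [Function.comp_apply, A1]
      have h4 : (((M : ℂ) ^ g)⁻¹) = ((((M : ℝ) ^ g)⁻¹ : ℝ) : ℂ) := by push_cast; rfl
      rw [h4, Complex.re_ofReal_mul, Complex.re_sum]
      have h5 : ∑ n : Fin g → Fin M, (P (sc y (pt M n)) (sc y (pt M n))).re
          ≤ ∑ n : Fin g → Fin M, (1 : ℝ) :=
        Finset.sum_le_sum fun n _ => hP1 _ (hy _ (norm_pt M n))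
      have h6 : ∑ n : Fin g → Fin M, (1 : ℝ) = (M : ℝ) ^ g := by simp
      rw [h6] at h5
      have hM' : (0 : ℝ) < M := by exact_mod_cast hM
      rw [inv_mul_le_iff₀ (by positivity), mul_one]
      exact h5
    rw [Complex.re_tsum hsumC] at h3
    have h4 : Summable fun a => (C (a, a)).re := by
      have := hsumC.hasSum
      exact (Complex.hasSum_re this).summable
    exact (h4.sum_le_tsum T fun a _ => hpos a).trans h3
  · intro ε hε hkz a ha
    have h1 := (hC.mul hc).tendsto_A2 a a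
    have h2 := hc.tendsto_A2 a a
    rw [tsum_eq_single a] at h2
    rotate_left
    · intro b hb
      simp [hb]
    simp only [id_eq, if_true, mul_one] at h2
    have h1' := tsum_prod C (fun d => (c' d : ℂ)) a
    simp only [id_eq] at h1
    rw [h1'] at h1
    have h3 := (Complex.continuous_re.tendsto _).comp (h1.sub h2)
    have h4 : (∑ p ∈ antidiagonal a, C (p.1, p.1) * (c' p.2 : ℂ) - (c' a : ℂ)).re
        = ∑ p ∈ antidiagonal a, (C (p.1, p.1)).re * c' p.2 - c' a := by
      rw [Complex.sub_re, Complex.re_sum, Complex.ofReal_re]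
      congr 1
      refine Finset.sum_congr rfl fun p _ => ?_
      rw [Complex.re_mul_ofReal]
    rw [h4] at h3
    have h5 : - (ε ^ 2 / (k z z).re)
        ≤ ∑ p ∈ antidiagonal a, (C (p.1, p.1)).re * c' p.2 - c' a := by
      refine ge_of_tendsto h3 ?_
      filter_upwards [eventually_gt_atTop 0, dl_eventually a 0] with M hM hdl
      simp only [Function.comp_apply]
      have h6 := re_A2_nonneg hPk hy (K := fun u v => P (sc y u) (sc y v) * k (sc y u) (sc y v)
        - (k (sc y u) (sc y v) - k (sc y u) z * k z (sc y v) / k z z)) (fun _ _ => rfl) M a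
      set t : ℂ := ((M : ℂ) ^ g)⁻¹ * ∑ n : Fin g → Fin M,
        k (sc y (pt M n)) z * conj (mon a (pt M n)) with ht
      have h7 : A2 M (fun u v => P (sc y u) (sc y v) * k (sc y u) (sc y v)
          - (k (sc y u) (sc y v) - k (sc y u) z * k z (sc y v) / k z z)) a a
          = A2 M (fun u v => P (sc y u) (sc y v) * k (sc y u) (sc y v)) a a
            - A2 M (fun u v => k (sc y u) (sc y v)) a a + t * conj t / k z z := by
        have e1 : t * conj t / k z z = ((M : ℂ) ^ g)⁻¹ * (((M : ℂ) ^ g)⁻¹ *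
            ∑ n : Fin g → Fin M, ∑ m : Fin g → Fin M,
              (k (sc y (pt M n)) z * k z (sc y (pt M m)) / k z z) * conj (mon a (pt M n))
                * mon a (pt M m)) := by
          have e2 : conj t = ((M : ℂ) ^ g)⁻¹ * ∑ m : Fin g → Fin M,
              k z (sc y (pt M m)) * mon a (pt M m) := by
            rw [ht, map_mul, map_sum, map_inv₀, map_pow, Complex.conj_natCast]
            congr 1
            refine Finset.sum_congr rfl fun m _ => ?_
            rw [map_mul, Complex.conj_conj, hk.herm (hy _ (norm_pt M m)) hz]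
          have e3 : ∑ n : Fin g → Fin M, ∑ m : Fin g → Fin M,
              (k (sc y (pt M n)) z * k z (sc y (pt M m)) / k z z) * conj (mon a (pt M n))
                * mon a (pt M m)
              = (∑ n : Fin g → Fin M, k (sc y (pt M n)) z * conj (mon a (pt M n)))
                * (∑ m : Fin g → Fin M, k z (sc y (pt M m)) * mon a (pt M m)) / k z z := by
            rw [Finset.sum_mul_sum, Finset.sum_div]
            refine Finset.sum_congr rfl fun n _ => ?_
            rw [Finset.sum_div]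
            refine Finset.sum_congr rfl fun m _ => ?_
            ring
          rw [e2, e3, ht]
          ring
        rw [e1]
        unfold A2
        rw [← mul_sub, ← mul_sub, ← mul_add, ← mul_add]
        congr 2
        rw [← Finset.sum_sub_distrib, ← Finset.sum_add_distrib]
        refine Finset.sum_congr rfl fun n _ => ?_
        rw [← Finset.sum_sub_distrib, ← Finset.sum_add_distrib]
        refine Finset.sum_congr rfl fun m _ => ?_
        ring
      rw [h7] at h6
      have h8 : ‖t‖ ≤ ε := by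
        have e1 : ∑ n : Fin g → Fin M, conj (mon a (pt M n)) = 0 := by
          have e2 := orth hM.ne' a 0
          rw [hdl, if_neg ha] at e2
          have e3 : ((M : ℂ) ^ g)⁻¹ ≠ 0 :=
            inv_ne_zero (pow_ne_zero _ (Nat.cast_ne_zero.mpr hM.ne'))
          have e4 := (mul_eq_zero.mp e2).resolve_left e3
          simp only [mon_zero, map_one, mul_one] at e4
          rw [← map_sum, e4, map_zero]
        have e2 : t = ((M : ℂ) ^ g)⁻¹ * ∑ n : Fin g → Fin M,
            (k (sc y (pt M n)) z - 1) * conj (mon a (pt M n)) := by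
          rw [ht]
          congr 1
          simp only [sub_mul, one_mul, Finset.sum_sub_distrib, e1, sub_zero]
        rw [e2, norm_mul]
        have e3 : ‖∑ n : Fin g → Fin M, (k (sc y (pt M n)) z - 1) * conj (mon a (pt M n))‖
            ≤ (M : ℝ) ^ g * ε := by
          refine (norm_sum_le _ _).trans ?_
          have e4 : ∑ n : Fin g → Fin M, ‖(k (sc y (pt M n)) z - 1) * conj (mon a (pt M n))‖
              ≤ ∑ n : Fin g → Fin M, ε := by
            refine Finset.sum_le_sum fun n _ => ?_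
            rw [norm_mul, RCLike.norm_conj, norm_mon_torus _ (norm_pt M n), mul_one]
            exact hε _ (norm_pt M n)
          refine e4.trans (le_of_eq ?_)
          simp
        have hM' : (0 : ℝ) < M := by exact_mod_cast hM
        rw [norm_inv, norm_pow, Complex.norm_natCast, inv_mul_le_iff₀ (by positivity)]
        exact e3
      have h9 : (t * conj t / k z z).re ≤ ε ^ 2 / (k z z).re := by
        have e1 : t * conj t / k z z = ((‖t‖ ^ 2 / (k z z).re : ℝ) : ℂ) := by
          rw [Complex.mul_conj, Complex.normSq_eq_norm_sq, hk.diag_eq hz]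
          push_cast
          rfl
        rw [e1, Complex.ofReal_re]
        have := norm_nonneg t
        gcongr
      rw [Complex.add_re] at h6
      linarith
    linarith

end Pool.Agent.K1H27.CP
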