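import Mathlib
import Pool.Agent.K1H27.CP.Cert
import Pool.Agent.Helper417.Mer.HartogsExt

/-! # Kernels dominated by a holomorphic kernel -/

set_option autoImplicit false

namespace Pool.Agent.K1H27.CP

open Pool.Agent.H770R3.Shim
open scoped InnerProductSpace ComplexOrder ComplexConjugate Topology
open Matrix Filter

universe u

section model
variable {X : Type u}

/-- the operator valued kernel -/
noncomputable def tensorFn (k : Matrix X X ℂ) : Matrix X X (E 1 →L[ℂ] E 1) :=
  Matrix.of fun x y => k x y • ContinuousLinearMap.id ℂ (E 1)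

theorem tensorFn_psd {k : Matrix X X ℂ} (hk : k.PosSemidef) : (tensorFn k).PosSemidef := by
  have hh : (tensorFn k).IsHermitian := by
    refine Matrix.ext fun x y => ?_
    rw [Matrix.conjTranspose_apply]
    apply ContinuousLinearMap.ext
    intro v
    apply ext_inner_right ℂ
    intro w
    rw [ContinuousLinearMap.star_eq_adjoint, ContinuousLinearMap.adjoint_inner_left]
    simp only [tensorFn, Matrix.of_apply, _root_.smul_apply, ContinuousLinearMap.id_apply,
      inner_smul_left, inner_smul_right, psd_herm hk]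
  have key : (tensorFn k).PosSemidef ↔ (tensorFn k).IsHermitian ∧
      ∀ (vv : X →₀ E 1), 0 ≤ RCLike.re (vv.sum fun x w ↦
        vv.sum fun x' w' ↦ ⟪(tensorFn k) x' x w, w'⟫_ℂ) := RKHS.posSemidef_tfae.out 0 2
  refine key.mpr ⟨hh, fun vv => ?_⟩
  have h1 := Q_nonneg hk vv.support vv
  have h2 : (vv.sum fun x w ↦ vv.sum fun x' w' ↦ ⟪(tensorFn k) x' x w, w'⟫_ℂ)
      = ∑ i ∈ vv.support, ∑ j ∈ vv.support, k i j * ⟪vv i, vv j⟫_ℂ := by
    simp only [Finsupp.sum]
    refine Finset.sum_congr rfl fun i _ => Finset.sum_congr rfl fun j _ => ?_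
    simp only [tensorFn, Matrix.of_apply, _root_.smul_apply, ContinuousLinearMap.id_apply,
      inner_smul_left, psd_herm hk]
  rw [h2]
  exact h1

/-- the unit vector -/
noncomputable def v0 : E 1 := EuclideanSpace.single 0 1

lemma inner_v0 : ⟪v0, v0⟫_ℂ = 1 := by
  simp [v0]

lemma eq_smul_v0 (v : E 1) : v = v 0 • v0 := by
  ext i
  rw [Subsingleton.elim i 0]
  simp [v0]

/-- a Hilbert space model of a positive semidefinite matrix -/
theorem exists_model (k : Matrix X X ℂ) (hk : k.PosSemidef) :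
    ∃ (H : Type u) (_ : NormedAddCommGroup H) (_ : InnerProductSpace ℂ H) (_ : CompleteSpace H)
      (e : X → H), (∀ x y, ⟪e x, e y⟫_ℂ = k x y) ∧
        (Submodule.span ℂ (Set.range e)).topologicalClosure = ⊤ := by
  have : Fact (tensorFn k).PosSemidef := ⟨tensorFn_psd hk⟩
  refine ⟨RKHS.OfKernel (tensorFn k), inferInstance, inferInstance, inferInstance,
    fun x => RKHS.kerFun (RKHS.OfKernel (tensorFn k)) x v0, ?_, ?_⟩
  · intro x y
    rw [← RKHS.kernel_inner, RKHS.OfKernel.kernel_ofKernel]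
    simp only [tensorFn, Matrix.of_apply, _root_.smul_apply, ContinuousLinearMap.id_apply,
      inner_smul_left, psd_herm hk, inner_v0, mul_one]
  · rw [eq_top_iff, ← RKHS.kerFun_dense (𝕜 := ℂ) (X := X) (V := E 1)
      (H := RKHS.OfKernel (tensorFn k))]
    refine Submodule.topologicalClosure_mono ?_
    rw [Submodule.span_le]
    rintro _ ⟨x, v, rfl⟩
    rw [eq_smul_v0 v, map_smul]
    exact Submodule.smul_mem _ _ (Submodule.subset_span ⟨x, rfl⟩)

/-- the norm of a combination -/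
lemma norm_comb {H : Type*} [NormedAddCommGroup H] [InnerProductSpace ℂ H] {k : Matrix X X ℂ}
    {e : X → H} (he : ∀ x y, ⟪e x, e y⟫_ℂ = k x y) (v : X →₀ ℂ) :
    ‖Finsupp.linearCombination ℂ e v‖ ^ 2
      = (∑ i ∈ v.support, ∑ j ∈ v.support, conj (v i) * k i j * v j).re := by
  have h1 : ((‖Finsupp.linearCombination ℂ e v‖ ^ 2 : ℝ) : ℂ)
      = ∑ i ∈ v.support, ∑ j ∈ v.support, conj (v i) * k i j * v j := by
    have h2 := inner_self_eq_norm_sq_to_K (𝕜 := ℂ) (Finsupp.linearCombination ℂ e v)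
    push_cast
    rw [← Complex.coe_algebraMap, ← h2, Finsupp.linearCombination_apply, Finsupp.sum, sum_inner]
    refine Finset.sum_congr rfl fun i _ => ?_
    rw [inner_sum]
    refine Finset.sum_congr rfl fun j _ => ?_
    rw [inner_smul_left, inner_smul_right, he]
    ring
  have h3 := congrArg Complex.re h1
  rw [Complex.ofReal_re] at h3
  exact h3

/-- a dominated kernel function is represented by a vector of the bigger space -/
theorem exists_rep {k K : Matrix X X ℂ} (hk : k.PosSemidef) (hkK : (K - k).PosSemidef)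
    {H : Type*} [NormedAddCommGroup H] [InnerProductSpace ℂ H] [CompleteSpace H] {e : X → H}
    (he : ∀ x y, ⟪e x, e y⟫_ℂ = K x y) (y : X) : ∃ f : H, ∀ x, ⟪e x, f⟫_ℂ = k x y := by
  classical
  obtain ⟨H', _, _, _, e', he', -⟩ := exists_model k hk
  set Ψ : (X →₀ ℂ) →ₗ[ℂ] H := Finsupp.linearCombination ℂ e with hΨ
  set Θ : (X →₀ ℂ) →ₗ[ℂ] H' := Finsupp.linearCombination ℂ e' with hΘ
  have hle : ∀ v, ‖Θ v‖ ≤ ‖Ψ v‖ := by
    intro v
    rw [← sq_le_sq₀ (norm_nonneg _) (norm_nonneg _), hΨ, hΘ, norm_comb he, norm_comb he']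
    have h1 := psd_sum hkK v.support v
    have h2 : (∑ i ∈ v.support, ∑ j ∈ v.support, conj (v i) * (K - k) i j * v j)
        = (∑ i ∈ v.support, ∑ j ∈ v.support, conj (v i) * K i j * v j)
          - ∑ i ∈ v.support, ∑ j ∈ v.support, conj (v i) * k i j * v j := by
      rw [← Finset.sum_sub_distrib]
      refine Finset.sum_congr rfl fun i _ => ?_
      rw [← Finset.sum_sub_distrib]
      refine Finset.sum_congr rfl fun j _ => ?_
      rw [Matrix.sub_apply]
      ring
    rw [h2, Complex.sub_re] at h1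
    linarith
  let lam : (X →₀ ℂ) →ₗ[ℂ] ℂ := (innerSL ℂ (e' y) : H' →ₗ[ℂ] ℂ) ∘ₗ Θ
  have hlam : ∀ v, lam v = ⟪e' y, Θ v⟫_ℂ := fun v => rfl
  have hlamle : ∀ v, ‖lam v‖ ≤ ‖e' y‖ * ‖Ψ v‖ := by
    intro v
    rw [hlam]
    exact (norm_inner_le_norm _ _).trans (mul_le_mul_of_nonneg_left (hle v) (norm_nonneg _))
  obtain ⟨s, hs⟩ := Ψ.rangeRestrict.exists_rightInverse_of_surjective
    (LinearMap.range_eq_top.mpr Ψ.surjective_rangeRestrict)
  have hs' : ∀ w : LinearMap.range Ψ, Ψ (s w) = w := by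
    intro w
    have h1 : Ψ.rangeRestrict (s w) = w := LinearMap.congr_fun hs w
    exact congrArg Subtype.val h1
  let lam' : LinearMap.range Ψ →L[ℂ] ℂ := (lam ∘ₗ s).mkContinuous ‖e' y‖ (by
    intro w
    have := hlamle (s w)
    rw [hs'] at this
    exact this)
  obtain ⟨G, hG1, -⟩ := exists_extension_norm_eq (LinearMap.range Ψ) lam'
  have hGΨ : ∀ v, G (Ψ v) = lam v := by
    intro v
    have h1 := hG1 ⟨Ψ v, v, rfl⟩
    rw [h1]
    have h2 : lam' ⟨Ψ v, v, rfl⟩ = lam (s ⟨Ψ v, v, rfl⟩) := rfl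
    rw [h2]
    have h3 := hlamle (s ⟨Ψ v, v, rfl⟩ - v)
    rw [map_sub, map_sub, hs', sub_self, norm_zero, mul_zero] at h3
    exact sub_eq_zero.mp (norm_le_zero_iff.mp h3)
  let f : H := (InnerProductSpace.toDual ℂ H).symm G
  refine ⟨f, fun x => ?_⟩
  have h1 : ⟪f, Ψ (Finsupp.single x 1)⟫_ℂ = lam (Finsupp.single x 1) := by
    rw [← hGΨ]
    exact InnerProductSpace.toDual_symm_apply
  have h2 : Ψ (Finsupp.single x 1) = e x := by simp [Ψ]
  have h3 : lam (Finsupp.single x 1) = k y x := by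
    rw [hlam]
    simp only [Θ, Finsupp.linearCombination_single, one_smul, he']
  rw [h2, h3] at h1
  rw [← inner_conj_symm, h1, psd_herm hk]

end model

variable {g : ℕ}

/-- the functions `x ↦ ⟪e x, h⟫` are holomorphic -/
theorem holo_model {S : Set (Fin g → ℂ)} (hS : IsOpen S) {l : (Fin g → ℂ) → (Fin g → ℂ) → ℂ}
    (hl1 : ∀ y ∈ S, DifferentiableOn ℂ (fun x => l x y) S)
    (hl2 : ∀ x ∈ S, ∃ r > 0, ∃ M : ℝ, ∀ x' ∈ Metric.ball x r, x' ∈ S ∧ ‖l x' x'‖ ≤ M)
    {H : Type*} [NormedAddCommGroup H] [InnerProductSpace ℂ H] {e : S → H}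
    (he : ∀ x y, ⟪e x, e y⟫_ℂ = l x y)
    (hd : (Submodule.span ℂ (Set.range e)).topologicalClosure = ⊤) (h : H) :
    DifferentiableOn ℂ (fun x => open Classical in if hx : x ∈ S then ⟪e ⟨x, hx⟩, h⟫_ℂ else 0)
      S := by
  classical
  set φ : H → (Fin g → ℂ) → ℂ := fun h x => if hx : x ∈ S then ⟪e ⟨x, hx⟩, h⟫_ℂ else 0 with hφ
  have hspan : ∀ h ∈ Submodule.span ℂ (Set.range e), DifferentiableOn ℂ (φ h) S := by
    intro h hh
    induction hh using Submodule.span_induction with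
    | mem h hh =>
      obtain ⟨y, rfl⟩ := hh
      refine (hl1 y y.2).congr fun x hx => ?_
      simp only [hφ, dif_pos hx, he]
    | zero =>
      refine (differentiableOn_const (0 : ℂ)).congr fun x hx => ?_
      simp only [hφ, dif_pos hx, inner_zero_right]
    | add h h' _ _ i1 i2 =>
      refine (i1.add i2).congr fun x hx => ?_
      simp only [hφ, dif_pos hx, inner_add_right, Pi.add_apply]
    | smul c h _ i1 =>
      refine (i1.const_mul c).congr fun x hx => ?_
      simp only [hφ, dif_pos hx, inner_smul_right]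
  have hmem : h ∈ closure (Submodule.span ℂ (Set.range e) : Set H) := by
    have : h ∈ (Submodule.span ℂ (Set.range e)).topologicalClosure := by
      rw [hd]
      exact Submodule.mem_top
    exact this
  obtain ⟨s, hs1, hs2⟩ := mem_closure_iff_seq_limit.mp hmem
  intro x hx
  obtain ⟨r, hr, M, hM⟩ := hl2 x hx
  have hen : ∀ x' (hx' : x' ∈ Metric.ball x r), ‖e ⟨x', (hM x' hx').1⟩‖ ≤ Real.sqrt M := by
    intro x' hx'
    apply Real.le_sqrt_of_sq_le
    have h1 := inner_self_eq_norm_sq_to_K (𝕜 := ℂ) (e ⟨x', (hM x' hx').1⟩)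
    rw [he] at h1
    have h2 := (hM x' hx').2
    have h3 : ‖l x' x'‖ = ‖e ⟨x', (hM x' hx').1⟩‖ ^ 2 := by
      have h4 := congrArg norm h1
      simpa using h4
    linarith
  have hlim : TendstoUniformlyOn (fun n => φ (s n)) (φ h) atTop (Metric.ball x r) := by
    rw [Metric.tendstoUniformlyOn_iff]
    intro ε hε
    have h1 : Tendsto (fun n => ‖s n - h‖) atTop (𝓝 0) := by
      rw [tendsto_iff_norm_sub_tendsto_zero] at hs2
      exact hs2
    have h2 := h1.mul_const (Real.sqrt M)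
    rw [zero_mul] at h2
    filter_upwards [h2.eventually (gt_mem_nhds hε)] with n hn x' hx'
    have hx'S := (hM x' hx').1
    simp only [hφ, dif_pos hx'S]
    rw [dist_eq_norm, ← inner_sub_right]
    calc ‖⟪e ⟨x', hx'S⟩, h - s n⟫_ℂ‖ ≤ ‖e ⟨x', hx'S⟩‖ * ‖h - s n‖ := norm_inner_le_norm _ _
      _ ≤ Real.sqrt M * ‖h - s n‖ := by
          have := hen x' hx'
          gcongr
      _ = ‖s n - h‖ * Real.sqrt M := by rw [norm_sub_rev, mul_comm]
      _ < ε := hn
  have hfin := Pool.Agent.Helper417.Mer.Hartogs673.differentiableOn_of_uniform_limit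
    (f := fun n => φ (s n)) (g := φ h) (c := x) (R := r)
    (fun n => (hspan (s n) (hs1 n)).mono fun x' hx' => (hM x' hx').1) hlim
  exact ((hfin x (Metric.mem_ball_self (by positivity))).differentiableAt
    (Metric.ball_mem_nhds x (by positivity))).differentiableWithinAt

/-- a kernel dominated by a holomorphic kernel is holomorphic in the first variable -/
theorem dom_holo {S : Set (Fin g → ℂ)} (hS : IsOpen S) {l L : (Fin g → ℂ) → (Fin g → ℂ) → ℂ}
    (hl : IsKernel S l) (hL : IsKernel S L) (hlL : IsKernel S fun x y => l x y - L x y)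
    (hl1 : ∀ y ∈ S, DifferentiableOn ℂ (fun x => l x y) S)
    (hl2 : ∀ x ∈ S, ∃ r > 0, ∃ M : ℝ, ∀ x' ∈ Metric.ball x r, x' ∈ S ∧ ‖l x' x'‖ ≤ M)
    {y : Fin g → ℂ} (hy : y ∈ S) : DifferentiableOn ℂ (fun x => L x y) S := by
  classical
  obtain ⟨H, _, _, _, e, he, hd⟩ := exists_model (rest S l) hl
  obtain ⟨f, hf⟩ := exists_rep (k := rest S L) (K := rest S l) hL hlL he ⟨y, hy⟩
  refine (holo_model hS hl1 hl2 (e := e) he hd f).congr fun x hx => ?_
  simp only [dif_pos hx, hf]
  rfl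

end Pool.Agent.K1H27.CP
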