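import Mathlib
import Pool.Agent.K1H27.CP.Ana
import Pool.Agent.K1H27.CP.Dom
import Pool.Agent.K1H27.CP.Coef
import Pool.Agent.Y189.UD.Ret

/-! # The holomorphic certificate -/

set_option autoImplicit false

namespace Pool.Agent.K1H27.CP

open Filter Topology Metric
open scoped ComplexConjugate ComplexOrder

variable {g : ℕ} {Ω : Set (Fin g → ℂ)}

/-- the domain of the pair `(z, conj w)` -/
def WW (Ω : Set (Fin g → ℂ)) : Set ((Fin g → ℂ) × (Fin g → ℂ)) := {p | p.1 ∈ Ω ∧ star p.2 ∈ Ω}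

lemma WW_open (hΩ : IsOpen Ω) : IsOpen (WW Ω) :=
  (hΩ.preimage continuous_fst).inter (hΩ.preimage (continuous_star.comp continuous_snd))

lemma WW_preconnected (hc : IsPreconnected Ω) : IsPreconnected (WW Ω) := by
  have h1 : IsPreconnected ((star : (Fin g → ℂ) → (Fin g → ℂ)) '' Ω) :=
    hc.image _ continuous_star.continuousOn
  have h2 : (star : (Fin g → ℂ) → (Fin g → ℂ)) '' Ω = {v | star v ∈ Ω} := by
    ext v
    constructor
    · rintro ⟨x, hx, rfl⟩
      simpa using hx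
    · intro hv
      exact ⟨star v, hv, star_star v⟩
  rw [h2] at h1
  have h3 := hc.prod h1
  exact h3

lemma isKernel_of_fin {S : Set (Fin g → ℂ)} {f : (Fin g → ℂ) → (Fin g → ℂ) → ℂ}
    (h : ∀ (n : ℕ) (x : Fin n → Fin g → ℂ), (∀ i, x i ∈ S) →
      (Matrix.of fun i j => f (x i) (x j)).PosSemidef) : IsKernel S f := by
  classical
  refine Pool.Agent.H770R3.Shim.psd_of_sum (fun x y => ?_) fun F c => ?_
  · have h1 := (h 2 ![(x : Fin g → ℂ), y] (by
      intro i
      fin_cases i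
      · exact x.2
      · exact y.2)).1.apply 1 0
    simpa using h1
  · set e := F.equivFin with he
    have h1 := h F.card (fun i => ((e.symm i : F) : Fin g → ℂ)) (fun i => ((e.symm i : F) : S).2)
    have h2 := (Complex.nonneg_iff.mp (h1.dotProduct_mulVec_nonneg
      (fun i => c (e.symm i : F)))).1
    have h3 : (star (fun i => c ((e.symm i : F) : S)) ⬝ᵥ
        ((Matrix.of fun i j => f ((e.symm i : F) : Fin g → ℂ) ((e.symm j : F) : Fin g → ℂ)).mulVec
          fun i => c ((e.symm i : F) : S)))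
        = ∑ i ∈ F, ∑ j ∈ F, conj (c i) * (Matrix.of fun x y : S => f x y) i j * c j := by
      rw [← Finset.sum_coe_sort F
        (fun i => ∑ j ∈ F, conj (c i) * (Matrix.of fun x y : S => f x y) i j * c j),
        ← Equiv.sum_comp e.symm]
      simp only [dotProduct, Matrix.mulVec, Matrix.of_apply, Finset.mul_sum, Pi.star_apply,
        RCLike.star_def]
      refine Finset.sum_congr rfl fun i _ => ?_
      rw [← Finset.sum_coe_sort F
        (fun j => conj (c (e.symm i : F)) * f ((e.symm i : F) : Fin g → ℂ) j * c j),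
        ← Equiv.sum_comp e.symm]
      refine Finset.sum_congr rfl fun j _ => ?_
      ring
    rw [h3] at h2
    exact h2

lemma IsKernel.mul {S : Set (Fin g → ℂ)} {f f' : (Fin g → ℂ) → (Fin g → ℂ) → ℂ}
    (h : IsKernel S f) (h' : IsKernel S f') : IsKernel S fun x y => f x y * f' x y := by
  refine isKernel_of_fin fun n x hx => ?_
  exact (h.fin x hx).hadamard (h'.fin x hx)

lemma IsKernel.add {S : Set (Fin g → ℂ)} {f f' : (Fin g → ℂ) → (Fin g → ℂ) → ℂ}
    (h : IsKernel S f) (h' : IsKernel S f') : IsKernel S fun x y => f x y + f' x y := by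
  refine isKernel_of_fin fun n x hx => ?_
  exact (h.fin x hx).add (h'.fin x hx)

/-- the rank one kernel -/
lemma isKernel_rankOne {S : Set (Fin g → ℂ)} {k : (Fin g → ℂ) → (Fin g → ℂ) → ℂ}
    {z : Fin g → ℂ} (hk : IsKernel Ω k) (hS : S ⊆ Ω) (hz : z ∈ Ω) :
    IsKernel S fun x y => k x z * k z y / k z z := by
  refine isKernel_of_fin fun n x hx => ?_
  have h1 : (Matrix.of fun i j => k (x i) z * k z (x j) / k z z)
      = ((((k z z).re)⁻¹ : ℝ) : ℂ) • Matrix.vecMulVec (fun i => k (x i) z)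
        (star fun i => k (x i) z) := by
    ext i j
    simp only [Matrix.of_apply, Matrix.smul_apply, Matrix.vecMulVec_apply, Pi.star_apply,
      RCLike.star_def, smul_eq_mul]
    rw [hk.herm (hS (hx j)) hz]
    have h2 := hk.diag_eq hz
    rw [div_eq_mul_inv]
    conv_lhs => rw [h2]
    push_cast
    ring
  rw [h1]
  refine Matrix.PosSemidef.smul (Matrix.posSemidef_vecMulVec_self_star _) ?_
  rw [Complex.nonneg_iff]
  constructor
  · rw [Complex.ofReal_re]
    exact inv_nonneg.mpr (hk.diag_re hz)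
  · simp

/-- limits of positive semidefinite matrices -/
lemma posSemidef_lim {ι : Type*} {l : Filter ι} [l.NeBot] {n : ℕ} {A : ι → Matrix (Fin n) (Fin n) ℂ}
    {B : Matrix (Fin n) (Fin n) ℂ} (hA : ∀ᶠ t in l, (A t).PosSemidef)
    (h : ∀ i j, Tendsto (fun t => A t i j) l (𝓝 (B i j))) : B.PosSemidef := by
  rw [Matrix.posSemidef_iff_dotProduct_mulVec]
  constructor
  · ext i j
    rw [Matrix.conjTranspose_apply]
    refine tendsto_nhds_unique (h j i).star ((h i j).congr' ?_)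
    filter_upwards [hA] with t ht
    exact (ht.isHermitian.apply i j).symm
  · intro y
    have h1 : Tendsto (fun t => star y ⬝ᵥ ((A t).mulVec y)) l (𝓝 (star y ⬝ᵥ (B.mulVec y))) := by
      simp only [dotProduct, Matrix.mulVec]
      exact tendsto_finsetSum _ fun i _ => (tendsto_finsetSum _ fun j _ =>
        (h i j).mul_const _).const_mul _
    refine ge_of_tendsto h1 ?_
    filter_upwards [hA] with t ht
    exact (Matrix.posSemidef_iff_dotProduct_mulVec.1 ht).2 y

section setup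
variable {l : (Fin g → ℂ) → (Fin g → ℂ) → ℂ} {y0 : Fin g → ℂ}

/-- the set on which `l (x, y0)` does not vanish -/
def SS (Ω : Set (Fin g → ℂ)) (l : (Fin g → ℂ) → (Fin g → ℂ) → ℂ) (y0 : Fin g → ℂ) :
    Set (Fin g → ℂ) := {x | x ∈ Ω ∧ l x y0 ≠ 0}

lemma SS_subset : SS Ω l y0 ⊆ Ω := fun _ hx => hx.1

lemma holo_fst (hl : IsHolomorphic Ω l) {y : Fin g → ℂ} (hy : y ∈ Ω) :
    DifferentiableOn ℂ (fun x => l x y) Ω := by
  have h1 : DifferentiableOn ℂ (fun x : Fin g → ℂ => ((x, star y) : (Fin g → ℂ) × (Fin g → ℂ)))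
      Ω := by fun_prop
  have h2 := DifferentiableOn.comp hl h1 (fun x hx => ⟨hx, by simpa using hy⟩)
  refine h2.congr fun x _ => ?_
  simp

lemma holo_snd (hl : IsHolomorphic Ω l) {x : Fin g → ℂ} (hx : x ∈ Ω) :
    DifferentiableOn ℂ (fun v => l x (star v)) {v | star v ∈ Ω} := by
  have h1 : DifferentiableOn ℂ (fun v : Fin g → ℂ => ((x, v) : (Fin g → ℂ) × (Fin g → ℂ)))
      {v | star v ∈ Ω} := by fun_prop
  have h2 := DifferentiableOn.comp (t := {p : (Fin g → ℂ) × (Fin g → ℂ) | p.1 ∈ Ω ∧ star p.2 ∈ Ω})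
    (g := fun p : (Fin g → ℂ) × (Fin g → ℂ) => l p.1 (star p.2)) hl h1 (fun v hv => ⟨hx, hv⟩)
  exact h2

lemma continuousOn_pair (hl : IsHolomorphic Ω l) :
    ContinuousOn (fun p : (Fin g → ℂ) × (Fin g → ℂ) => l p.1 p.2) (Ω ×ˢ Ω) := by
  have h1 : ContinuousOn (fun p : (Fin g → ℂ) × (Fin g → ℂ) => (p.1, star p.2)) (Ω ×ˢ Ω) :=
    (continuous_fst.prodMk (continuous_star.comp continuous_snd)).continuousOn
  have h2 := hl.continuousOn.comp h1 (fun p hp => ⟨hp.1, by simpa using hp.2⟩)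
  refine h2.congr fun p _ => ?_
  simp

lemma SS_open (hΩ : IsOpen Ω) (hl : IsHolomorphic Ω l) (hy0 : y0 ∈ Ω) : IsOpen (SS Ω l y0) := by
  have h1 := (holo_fst hl hy0).continuousOn.isOpen_inter_preimage hΩ
    (isOpen_compl_singleton (x := (0 : ℂ)))
  exact h1

lemma SS_diag (hlk : IsKernel Ω l) (hy0 : y0 ∈ Ω) {x : Fin g → ℂ} (hx : x ∈ SS Ω l y0) :
    l x x ≠ 0 := by
  intro h0
  exact hx.2 (Pool.Agent.H770R3.Shim.psd_zero_row (g := rest Ω l) hlk (z := ⟨x, hx.1⟩) h0
    ⟨y0, hy0⟩)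

/-- density of `S` -/
lemma SS_dense (hΩ : IsOpen Ω) (hc : IsPreconnected Ω) (hl : IsHolomorphic Ω l) (hy0 : y0 ∈ Ω)
    (hne : l y0 y0 ≠ 0) : Ω ⊆ closure (SS Ω l y0) := by
  intro x hx
  rw [_root_.mem_closure_iff]
  intro O hO hxO
  by_contra hcon
  have h1 : ∀ᶠ y in 𝓝 x, l y y0 = 0 := by
    filter_upwards [(hO.inter hΩ).mem_nhds ⟨hxO, hx⟩] with y hy
    by_contra h2
    exact hcon ⟨y, hy.1, hy.2, h2⟩
  exact hne (ident hΩ hc (holo_fst hl hy0) hx h1 y0 hy0)

/-- `l (a, w)` does not vanish identically near a point -/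
lemma nonzero_near (hΩ : IsOpen Ω) (hc : IsPreconnected Ω) (hl : IsHolomorphic Ω l)
    (hlk : IsKernel Ω l) (hy0 : y0 ∈ Ω) {a b : Fin g → ℂ} (ha : a ∈ SS Ω l y0) (hb : b ∈ Ω) :
    ¬ ∀ᶠ w in 𝓝 b, l a w = 0 := by
  intro h1
  have h2 : IsOpen {v : Fin g → ℂ | star v ∈ Ω} := hΩ.preimage continuous_star
  have h3 : IsPreconnected {v : Fin g → ℂ | star v ∈ Ω} := by
    have h1 : IsPreconnected ((star : (Fin g → ℂ) → (Fin g → ℂ)) '' Ω) :=
      hc.image _ continuous_star.continuousOn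
    have h2 : (star : (Fin g → ℂ) → (Fin g → ℂ)) '' Ω = {v | star v ∈ Ω} := by
      ext v
      constructor
      · rintro ⟨x, hx, rfl⟩
        simpa using hx
      · intro hv
        exact ⟨star v, hv, star_star v⟩
    rwa [h2] at h1
  have h4 : ∀ᶠ v in 𝓝 (star b), l a (star v) = 0 := by
    have : Tendsto (star : (Fin g → ℂ) → (Fin g → ℂ)) (𝓝 (star b)) (𝓝 b) :=
      continuous_star.tendsto' _ _ (star_star b)
    exact this.eventually h1
  have h5 := ident h2 h3 (holo_snd hl ha.1) (x := star b)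
    (show star (star b) ∈ Ω by simpa using hb) h4 (star a)
    (show star (star a) ∈ Ω by simpa using ha.1)
  rw [star_star] at h5
  exact SS_diag hlk hy0 ha h5

/-- families of points in general position are dense -/
lemma good_dense (hΩ : IsOpen Ω) (hc : IsPreconnected Ω) (hl : IsHolomorphic Ω l)
    (hlk : IsKernel Ω l) (hy0 : y0 ∈ Ω) (hne : l y0 y0 ≠ 0) {n : ℕ} (x : Fin n → Fin g → ℂ)
    (hx : ∀ i, x i ∈ Ω) :
    x ∈ closure {x' : Fin n → Fin g → ℂ | (∀ i, x' i ∈ SS Ω l y0) ∧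
      ∀ i j, l (x' i) (x' j) ≠ 0} := by
  classical
  have hSo := SS_open hΩ hl hy0
  -- generic position for a finite set of pairs
  have claim : ∀ T : Finset (Fin n × Fin n), ∀ x : Fin n → Fin g → ℂ, (∀ i, x i ∈ SS Ω l y0) →
      ∀ V ∈ 𝓝 x, ∃ x' ∈ V, (∀ i, x' i ∈ SS Ω l y0) ∧
        ∀ p ∈ T, p.1 ≠ p.2 → l (x' p.1) (x' p.2) ≠ 0 := by
    intro T
    induction T using Finset.induction_on with
    | empty =>
      intro x hx V hV
      exact ⟨x, mem_of_mem_nhds hV, hx, by simp⟩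
    | insert p T hp ih =>
      intro x hx V hV
      obtain ⟨V', hV'V, hV'o, hxV'⟩ := _root_.mem_nhds_iff.mp hV
      obtain ⟨x1, hx1V, hx1S, hx1T⟩ := ih x hx V' (hV'o.mem_nhds hxV')
      by_cases hpp : p.1 = p.2
      · refine ⟨x1, hV'V hx1V, hx1S, fun q hq hqq => ?_⟩
        rcases Finset.mem_insert.mp hq with rfl | hq
        · exact absurd hpp hqq
        · exact hx1T q hq hqq
      -- the open set of good points
      have hev1 : ∀ᶠ y in 𝓝 x1, y ∈ V' := hV'o.mem_nhds hx1V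
      have hev2 : ∀ᶠ y in 𝓝 x1, ∀ i, y i ∈ SS Ω l y0 :=
        eventually_all.mpr fun i =>
          (continuous_apply i).continuousAt.eventually (hSo.mem_nhds (hx1S i))
      have hev3 : ∀ᶠ y in 𝓝 x1, ∀ q ∈ T, q.1 ≠ q.2 → l (y q.1) (y q.2) ≠ 0 := by
        rw [Filter.eventually_all_finset]
        intro q hq
        by_cases hqq : q.1 = q.2
        · exact Eventually.of_forall fun y h => absurd hqq h
        · have hca : ContinuousAt (fun p : (Fin g → ℂ) × (Fin g → ℂ) => l p.1 p.2)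
              (x1 q.1, x1 q.2) :=
            (continuousOn_pair hl).continuousAt
              ((hΩ.prod hΩ).mem_nhds ⟨(hx1S q.1).1, (hx1S q.2).1⟩)
          have hcb : ContinuousAt (fun y : Fin n → Fin g → ℂ => (y q.1, y q.2)) x1 :=
            ((continuous_apply q.1).prodMk (continuous_apply q.2)).continuousAt
          have hcc : ContinuousAt (fun y : Fin n → Fin g → ℂ => l (y q.1) (y q.2)) x1 :=
            ContinuousAt.comp (g := fun p : (Fin g → ℂ) × (Fin g → ℂ) => l p.1 p.2)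
              (f := fun y : Fin n → Fin g → ℂ => (y q.1, y q.2)) (x := x1) hca hcb
          filter_upwards [hcc.eventually_ne (hx1T q hq hqq)] with y hy _
          exact hy
      have hupd : Tendsto (fun w => Function.update x1 p.2 w) (𝓝 (x1 p.2)) (𝓝 x1) := by
        have h1 : Continuous (fun w => Function.update x1 p.2 w) :=
          continuous_const.update p.2 continuous_id
        have h2 := h1.tendsto (x1 p.2)
        rwa [Function.update_eq_self] at h2
      have hfr : ∃ᶠ w in 𝓝 (x1 p.2), ¬ l (x1 p.1) w = 0 :=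
        Filter.not_eventually.mp (nonzero_near hΩ hc hl hlk hy0 (hx1S p.1) (hx1S p.2).1)
      obtain ⟨w, hw1, hw2, hw3, hw4⟩ :=
        (hfr.and_eventually (hupd.eventually (hev1.and (hev2.and hev3)))).exists
      refine ⟨Function.update x1 p.2 w, hV'V hw2, hw3, fun q hq hqq => ?_⟩
      rcases Finset.mem_insert.mp hq with rfl | hq
      · rw [Function.update_of_ne hqq, Function.update_self]
        exact hw1
      · exact hw4 q hq hqq
  rw [_root_.mem_closure_iff]
  intro O hO hxO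
  have h1 : x ∈ closure (Set.pi Set.univ fun _ : Fin n => SS Ω l y0) := by
    rw [closure_pi_set]
    intro i _
    exact SS_dense hΩ hc hl hy0 hne (hx i)
  rw [_root_.mem_closure_iff] at h1
  obtain ⟨x1, hx1O, hx1S⟩ := h1 O hO hxO
  obtain ⟨x2, hx2O, hx2S, hx2T⟩ := claim Finset.univ x1 (fun i => hx1S i (Set.mem_univ i)) O
    (hO.mem_nhds hx1O)
  refine ⟨x2, hx2O, hx2S, fun i j => ?_⟩
  by_cases hij : i = j
  · subst hij
    exact SS_diag hlk hy0 (hx2S i)
  · exact hx2T (i, j) (Finset.mem_univ _) hij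

/-- extension of positivity from families in general position -/
lemma isKernel_ext (hΩ : IsOpen Ω) (hc : IsPreconnected Ω) (hl : IsHolomorphic Ω l)
    (hlk : IsKernel Ω l) (hy0 : y0 ∈ Ω) (hne : l y0 y0 ≠ 0)
    {T T' : (Fin g → ℂ) → (Fin g → ℂ) → ℂ}
    (hT : ContinuousOn (fun p : (Fin g → ℂ) × (Fin g → ℂ) => T p.1 p.2) (Ω ×ˢ Ω))
    (hT' : IsKernel (SS Ω l y0) T')
    (hTT : ∀ x ∈ SS Ω l y0, ∀ w ∈ SS Ω l y0, l x w ≠ 0 → T x w = T' x w) : IsKernel Ω T := by
  refine isKernel_of_fin fun n x hx => ?_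
  set G := {x' : Fin n → Fin g → ℂ | (∀ i, x' i ∈ SS Ω l y0) ∧ ∀ i j, l (x' i) (x' j) ≠ 0} with hG
  have hmem := good_dense hΩ hc hl hlk hy0 hne x hx
  rw [mem_closure_iff_nhdsWithin_neBot] at hmem
  refine posSemidef_lim (l := 𝓝[G] x)
    (A := fun x' => Matrix.of fun i j => T (x' i) (x' j)) ?_ fun i j => ?_
  · filter_upwards [self_mem_nhdsWithin] with x' hx'
    have h1 : (Matrix.of fun i j => T (x' i) (x' j)) = Matrix.of fun i j => T' (x' i) (x' j) := by
      ext i j
      exact hTT _ (hx'.1 i) _ (hx'.1 j) (hx'.2 i j)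
    rw [h1]
    exact hT'.fin x' hx'.1
  · simp only [Matrix.of_apply]
    have hca : ContinuousAt (fun p : (Fin g → ℂ) × (Fin g → ℂ) => T p.1 p.2) (x i, x j) :=
      hT.continuousAt ((hΩ.prod hΩ).mem_nhds ⟨hx i, hx j⟩)
    have hcb : ContinuousAt (fun y : Fin n → Fin g → ℂ => (y i, y j)) x :=
      ((continuous_apply i).prodMk (continuous_apply j)).continuousAt
    have hcc : ContinuousAt (fun y : Fin n → Fin g → ℂ => T (y i) (y j)) x :=
      ContinuousAt.comp (g := fun p : (Fin g → ℂ) × (Fin g → ℂ) => T p.1 p.2)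
        (f := fun y : Fin n → Fin g → ℂ => (y i, y j)) (x := x) hca hcb
    exact hcc.continuousWithinAt

/-- the holomorphic certificate -/
theorem exists_P {k : (Fin g → ℂ) → (Fin g → ℂ) → ℂ} (hΩ : IsOpen Ω) (hc : IsPreconnected Ω)
    (hkk : IsKernel Ω k) (hk : IsHolomorphic Ω k) (hlk : IsKernel Ω l) (hl : IsHolomorphic Ω l)
    (hcp : IsCPPair Ω k l) (hy0 : y0 ∈ Ω) (hne : l y0 y0 ≠ 0) {z : Fin g → ℂ}
    (hz : z ∈ SS Ω l y0) :
    ∃ P : (Fin g → ℂ) → (Fin g → ℂ) → ℂ, IsHolomorphic Ω P ∧ (∀ x ∈ Ω, ∀ w ∈ Ω, ‖P x w‖ ≤ 1) ∧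
      IsKernel Ω P ∧ IsKernel Ω (fun x w => P x w * k x w - (k x w - k x z * k z w / k z z)) ∧
      P z z = 0 := by
  classical
  set S := SS Ω l y0 with hS
  have hSo : IsOpen S := SS_open hΩ hl hy0
  have hSΩ : S ⊆ Ω := SS_subset
  obtain ⟨p, hp1, hp2, hp3⟩ := exists_cert hSΩ hkk hlk hcp (fun x hx => SS_diag hlk hy0 hx) hz
  have hlS : IsKernel S l := hlk.mono hSΩ
  -- diagonal values
  have hldiag : ∀ x ∈ S, 0 < (l x x).re := by
    intro x hx
    rcases (hlS.diag_re hx).lt_or_eq with h | h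
    · exact h
    · exfalso
      apply SS_diag hlk hy0 hx
      rw [hlS.diag_eq hx, ← h]
      simp
  have hpd : ∀ x ∈ S, (p x x).re ≤ 1 := by
    intro x hx
    have h1 := hp2.diag_re hx
    have h2 : (l x z * l z x / l z z).re = ‖l x z‖ ^ 2 / (l z z).re := by
      rw [← hlS.herm hx hz, Complex.mul_conj, Complex.normSq_eq_norm_sq, hlS.diag_eq hz,
        ← Complex.ofReal_div, Complex.ofReal_re, Complex.ofReal_re]
    have h3 : (p x x * l x x).re = (p x x).re * (l x x).re := by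
      conv_lhs => rw [hlS.diag_eq hx]
      rw [Complex.re_mul_ofReal]
    rw [Complex.sub_re, Complex.sub_re, h2, h3] at h1
    have h4 : 0 ≤ ‖l x z‖ ^ 2 / (l z z).re := by
      have := hldiag z hz
      positivity
    have h5 := hldiag x hx
    by_contra hcon
    push Not at hcon
    nlinarith
  have hp_le : ∀ x ∈ S, ∀ w ∈ S, ‖p x w‖ ≤ 1 := by
    intro x hx w hw
    exact Pool.Agent.H770R3.Shim.psd_entry_le (g := rest S p) hp1 (fun x => hpd x x.2) ⟨x, hx⟩ ⟨w, hw⟩
  have hpz : p z z = 0 := by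
    have h1 := hp2.diag_re hz
    have h3 : (p z z * l z z).re = (p z z).re * (l z z).re := by
      conv_lhs => rw [hlS.diag_eq hz]
      rw [Complex.re_mul_ofReal]
    have h0 : l z z ≠ 0 := SS_diag hlk hy0 hz
    have h2 : l z z - l z z * l z z / l z z = 0 := by
      field_simp
      ring
    rw [h2, zero_sub, Complex.neg_re, h3] at h1
    have h4 := hldiag z hz
    have h5 := hp1.diag_re hz
    have h6 : (p z z).re = 0 := by nlinarith
    rw [hp1.diag_eq hz, h6]
    simp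
  -- the product `L = p l`
  set L : (Fin g → ℂ) → (Fin g → ℂ) → ℂ := fun x w => p x w * l x w with hL
  have hLk : IsKernel S L := hp1.mul hlS
  have hlL : IsKernel S fun x w => l x w - L x w := by
    have h1 := hp2.add (isKernel_rankOne hlk hSΩ hz.1)
    have h2 : (fun x w => (l x w - l x z * l z w / l z z) - p x w * l x w
        + l x z * l z w / l z z) = fun x w => l x w - L x w := by
      funext x w
      simp only [hL]
      ring
    rw [h2] at h1
    exact h1
  have hlbdd : ∀ x ∈ S, ∃ r > 0, ∃ M : ℝ, ∀ x' ∈ ball x r, x' ∈ S ∧ ‖l x' x'‖ ≤ M := by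
    intro x hx
    have h1 : ContinuousAt (fun x => l x x) x := by
      have hca : ContinuousAt (fun p : (Fin g → ℂ) × (Fin g → ℂ) => l p.1 p.2) (x, x) :=
        (continuousOn_pair hl).continuousAt ((hΩ.prod hΩ).mem_nhds ⟨hx.1, hx.1⟩)
      exact ContinuousAt.comp (g := fun p : (Fin g → ℂ) × (Fin g → ℂ) => l p.1 p.2)
        (f := fun x => (x, x)) hca (continuous_id.prodMk continuous_id).continuousAt
    have h2 : ∀ᶠ x' in 𝓝 x, x' ∈ S ∧ ‖l x' x'‖ < ‖l x x‖ + 1 :=
      Filter.Eventually.and (hSo.mem_nhds hx)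
        (h1.norm.eventually (gt_mem_nhds (lt_add_one _)))
    obtain ⟨r, hr, h3⟩ := Metric.eventually_nhds_iff_ball.mp h2
    exact ⟨r, hr, ‖l x x‖ + 1, fun x' hx' => ⟨(h3 x' hx').1, (h3 x' hx').2.le⟩⟩
  have hLholo : ∀ y ∈ S, DifferentiableOn ℂ (fun x => L x y) S := fun y hy =>
    dom_holo hSo hlS hLk hlL (fun y hy => (holo_fst hl (hSΩ hy)).mono hSΩ) hlbdd hy
  -- joint holomorphy of `L`
  set F : (Fin g → ℂ) × (Fin g → ℂ) → ℂ := fun q => L q.1 (star q.2) with hF
  have hFd : ∀ q : (Fin g → ℂ) × (Fin g → ℂ), q.1 ∈ S → star q.2 ∈ S →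
      DifferentiableAt ℂ F q := by
    rintro ⟨a, b⟩ ha hb
    simp only at ha hb
    have hca : ContinuousAt (fun q : (Fin g → ℂ) × (Fin g → ℂ) => l q.1 (star q.2)) (a, b) :=
      (hl.continuousOn).continuousAt ((WW_open hΩ).mem_nhds ⟨hSΩ ha, hSΩ hb⟩)
    have hev : ∀ᶠ q in 𝓝 (a, b), (q.1 ∈ S ∧ star q.2 ∈ S) ∧
        ‖l q.1 (star q.2)‖ < ‖l a (star b)‖ + 1 := by
      refine Filter.Eventually.and ?_ (hca.norm.eventually (gt_mem_nhds (lt_add_one _)))
      exact ((hSo.preimage continuous_fst).inter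
        (hSo.preimage (continuous_star.comp continuous_snd))).mem_nhds ⟨ha, hb⟩
    obtain ⟨R, hR, hball⟩ := Metric.eventually_nhds_iff_ball.mp hev
    have hin : ∀ x ∈ ball a R, ∀ v ∈ ball b R, (x ∈ S ∧ star v ∈ S) ∧
        ‖l x (star v)‖ < ‖l a (star b)‖ + 1 := by
      intro x hx v hv
      refine hball (x, v) ?_
      rw [mem_ball, Prod.dist_eq, max_lt_iff]
      exact ⟨hx, hv⟩
    refine osgood_prod (M := ‖l a (star b)‖ + 1) hR (fun v hv => ?_) (fun x hx => ?_)
      fun x hx v hv => ?_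
    · have hvS := (hin a (mem_ball_self hR) v hv).1.2
      exact (hLholo _ hvS).mono fun x hx => (hin x hx v hv).1.1
    · have hxS := (hin x hx b (mem_ball_self hR)).1.1
      intro v hv
      have hvS := (hin x hx v hv).1.2
      have h1 : DifferentiableAt ℂ (fun y => L y x) (star v) :=
        (hLholo x hxS).differentiableAt (hSo.mem_nhds hvS)
      have h2 := diff_conj_star h1
      refine (h2.congr_of_eventuallyEq ?_).differentiableWithinAt
      have h3 : ∀ᶠ v' in 𝓝 v, star v' ∈ S :=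
        (hSo.preimage continuous_star).mem_nhds hvS
      filter_upwards [h3] with v' hv'
      simp only [hF]
      exact (hLk.herm hv' hxS).symm
    · obtain ⟨⟨h1, h2⟩, h3⟩ := hin x hx v hv
      simp only [hF, hL]
      rw [norm_mul]
      have h4 := hp_le x h1 _ h2
      calc ‖p x (star v)‖ * ‖l x (star v)‖ ≤ 1 * ‖l x (star v)‖ := by gcongr
        _ ≤ ‖l a (star b)‖ + 1 := by rw [one_mul]; exact h3.le
  -- division
  set lt : (Fin g → ℂ) × (Fin g → ℂ) → ℂ := fun q => l q.1 (star q.2) with hlt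
  have hltd : DifferentiableOn ℂ lt (WW Ω) := hl
  set B : (Fin g → ℂ) × (Fin g → ℂ) → ℂ := fun q => l q.1 y0 * l y0 (star q.2) * lt q with hB
  have hWo := WW_open hΩ
  have hBd : DifferentiableOn ℂ B (WW Ω) := by
    refine DifferentiableOn.mul (DifferentiableOn.mul ?_ ?_) hltd
    · exact (holo_fst hl hy0).comp differentiable_fst.differentiableOn fun q hq => hq.1
    · exact (holo_snd hl hy0).comp differentiable_snd.differentiableOn fun q hq => hq.2
  set A : Set ((Fin g → ℂ) × (Fin g → ℂ)) := {q | B q = 0} with hA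
  have hthin : Pool.Agent.Y189.UD.ThinIn (WW Ω) A := by
    intro q hq
    refine ⟨WW Ω, hWo, hq, B, hBd, fun y hy => hy.1, fun h0 => ?_⟩
    have h1 := ident hWo (WW_preconnected hc) hBd hq h0 (y0, star y0)
      ⟨hy0, by simpa using hy0⟩
    simp only [hB, hlt, star_star] at h1
    exact hne (by simpa using h1)
  have hWA : IsOpen (WW Ω \ A) := by
    have h1 := hBd.continuousOn.isOpen_inter_preimage hWo (isOpen_compl_singleton (x := (0 : ℂ)))
    exact h1
  have hmemWA : ∀ q ∈ WW Ω \ A, q.1 ∈ S ∧ star q.2 ∈ S ∧ lt q ≠ 0 := by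
    rintro q ⟨⟨h1, h2⟩, h3⟩
    have h4 : B q ≠ 0 := h3
    simp only [hB, mul_ne_zero_iff] at h4
    refine ⟨⟨h1, h4.1.1⟩, ⟨h2, fun h0 => h4.1.2 ?_⟩, h4.2⟩
    rw [← hlk.herm h2 hy0, h0, map_zero]
  have hmemWA' : ∀ x ∈ S, ∀ w ∈ S, l x w ≠ 0 → (x, star w) ∈ WW Ω \ A := by
    intro x hx w hw hxw
    refine ⟨⟨hSΩ hx, by simpa using hSΩ hw⟩, ?_⟩
    show ¬ B (x, star w) = 0
    simp only [hB, hlt, star_star]
    refine mul_ne_zero (mul_ne_zero hx.2 ?_) hxw
    intro h0
    apply hw.2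
    rw [← hlk.herm hy0 (hSΩ hw), h0, map_zero]
  obtain ⟨G, hG1, hG2⟩ := Pool.Agent.Y189.UD.riemann_ext hWo hthin hWA
    (f := fun q => F q * (lt q)⁻¹) (by
      intro q hq
      obtain ⟨h1, h2, h3⟩ := hmemWA q hq
      exact ((hFd q h1 h2).mul ((hltd.differentiableAt (hWo.mem_nhds hq.1)).inv h3)
        ).differentiableWithinAt) (fun q _ => ⟨Set.univ, univ_mem, 1, fun q' hq' => by
      obtain ⟨h1, h2, h3⟩ := hmemWA q' hq'.2
      simp only [hF, hL, hlt]
      have h3' : l q'.1 (star q'.2) ≠ 0 := h3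
      rw [mul_assoc, mul_inv_cancel₀ h3', mul_one]
      exact hp_le _ h1 _ h2⟩)
  have hGp : ∀ x ∈ S, ∀ w ∈ S, l x w ≠ 0 → G (x, star w) = p x w := by
    intro x hx w hw hxw
    rw [hG2 _ (hmemWA' x hx w hw hxw)]
    simp only [hF, hL, hlt, star_star]
    rw [mul_assoc, mul_inv_cancel₀ hxw, mul_one]
  have hcontP : ContinuousOn (fun q : (Fin g → ℂ) × (Fin g → ℂ) => G (q.1, star q.2)) (Ω ×ˢ Ω) := by
    have h1 : ContinuousOn (fun p : (Fin g → ℂ) × (Fin g → ℂ) => (p.1, star p.2)) (Ω ×ˢ Ω) :=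
      (continuous_fst.prodMk (continuous_star.comp continuous_snd)).continuousOn
    exact hG1.continuousOn.comp h1 (fun p hp => ⟨hp.1, by simpa using hp.2⟩)
  refine ⟨fun x w => G (x, star w), ?_, ?_, ?_, ?_, ?_⟩
  · unfold IsHolomorphic
    simp only [star_star]
    exact hG1
  · intro x hx w hw
    have hmem : (x, star w) ∈ closure (WW Ω \ A) :=
      hthin.dense ⟨hx, by simpa using hw⟩ hWo
    have hca : ContinuousWithinAt (fun q => ‖G q‖) (WW Ω \ A) (x, star w) :=
      ((hG1.continuousOn.continuousAt (hWo.mem_nhds ⟨hx, by simpa using hw⟩)).norm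
        ).continuousWithinAt
    have h1 := hca.mem_closure (t := Set.Iic 1) hmem (fun q hq => by
      obtain ⟨h1, h2, h3⟩ := hmemWA q hq
      have h4 := hGp q.1 h1 (star q.2) h2 h3
      rw [star_star] at h4
      show ‖G q‖ ≤ 1
      have h5 : G q = G (q.1, q.2) := rfl
      rw [h5, h4]
      exact hp_le _ h1 _ h2)
    rw [closure_Iic] at h1
    exact h1
  · exact isKernel_ext hΩ hc hl hlk hy0 hne hcontP hp1 hGp
  · refine isKernel_ext hΩ hc hl hlk hy0 hne ?_ hp3 ?_
    · have hck := continuousOn_pair hk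
      have h1 : ContinuousOn (fun q : (Fin g → ℂ) × (Fin g → ℂ) => k q.1 z) (Ω ×ˢ Ω) :=
        hck.comp (f := fun q : (Fin g → ℂ) × (Fin g → ℂ) => (q.1, z))
          (continuous_fst.prodMk continuous_const).continuousOn
          (fun q hq => ⟨hq.1, hSΩ hz⟩)
      have h2 : ContinuousOn (fun q : (Fin g → ℂ) × (Fin g → ℂ) => k z q.2) (Ω ×ˢ Ω) :=
        hck.comp (f := fun q : (Fin g → ℂ) × (Fin g → ℂ) => (z, q.2))
          (continuous_const.prodMk continuous_snd).continuousOn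
          (fun q hq => ⟨hSΩ hz, hq.2⟩)
      exact (hcontP.mul hck).sub (hck.sub ((h1.mul h2).div_const _))
    · intro x hx w hw hxw
      show G (x, star w) * k x w - _ = _
      rw [hGp x hx w hw hxw]
  · show G (z, star z) = 0
    rw [hGp z hz z hz (SS_diag hlk hy0 hz), hpz]

end setup

end Pool.Agent.K1H27.CP
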