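import Mathlib
import Pool.Agent.K1H27.CP.Ext

/-! # The degenerate pair: `l = 0` on the whole space -/

set_option autoImplicit false

namespace Pool.Agent.K1H27.CP

open Finset Filter Topology
open scoped ComplexConjugate ComplexOrder

variable {g : ℕ}

/-- product of exponential series -/
theorem exp_prod : ∀ (n : ℕ) (z : Fin n → ℂ),
    (Summable fun β : Fin n → ℕ => ‖∏ j, (z j ^ β j / ((β j).factorial : ℂ))‖) ∧
    HasSum (fun β : Fin n → ℕ => ∏ j, (z j ^ β j / ((β j).factorial : ℂ)))
      (∏ j, Complex.exp (z j)) := by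
  intro n
  induction n with
  | zero =>
    intro z
    constructor
    · exact (hasSum_unique _).summable
    · have := hasSum_unique (fun β : Fin 0 → ℕ => ∏ j, (z j ^ β j / ((β j).factorial : ℂ)))
      simp only [Finset.univ_eq_empty, Finset.prod_empty] at this ⊢
      exact this
  | succ n ih =>
    intro z
    obtain ⟨h1, h2⟩ := ih (fun i => z i.succ)
    have h3 : Summable fun k : ℕ => ‖z 0 ^ k / ((k.factorial : ℕ) : ℂ)‖ :=
      NormedSpace.norm_expSeries_div_summable (z 0)
    have h4 : HasSum (fun k : ℕ => z 0 ^ k / ((k.factorial : ℕ) : ℂ)) (Complex.exp (z 0)) := by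
      rw [Complex.exp_eq_exp_ℂ]
      exact NormedSpace.expSeries_div_hasSum_exp (z 0)
    have h5 : Summable fun p : ℕ × (Fin n → ℕ) => ‖(z 0 ^ p.1 / ((p.1.factorial : ℕ) : ℂ))
        * ∏ j, (z (Fin.succ j) ^ p.2 j / ((p.2 j).factorial : ℂ))‖ :=
      Summable.mul_norm (f := fun k : ℕ => z 0 ^ k / ((k.factorial : ℕ) : ℂ))
        (g := fun β : Fin n → ℕ => ∏ j, (z (Fin.succ j) ^ β j / ((β j).factorial : ℂ))) h3 h1
    have h6 := h4.mul h2 h5.of_norm
    have hcons : ∀ p : ℕ × (Fin n → ℕ), ∏ j, (z j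
          ^ (Fin.consEquiv (fun _ : Fin (n + 1) => ℕ) p) j
          / (((Fin.consEquiv (fun _ : Fin (n + 1) => ℕ) p) j).factorial : ℂ))
        = (z 0 ^ p.1 / ((p.1.factorial : ℕ) : ℂ))
          * ∏ j, (z (Fin.succ j) ^ p.2 j / ((p.2 j).factorial : ℂ)) := by
      intro p
      rw [Fin.prod_univ_succ]
      rfl
    constructor
    · rw [← (Fin.consEquiv (fun _ : Fin (n + 1) => ℕ)).summable_iff]
      refine h5.congr (fun p => ?_)
      simp only [Function.comp]
      rw [hcons]
    · rw [← (Fin.consEquiv (fun _ : Fin (n + 1) => ℕ)).hasSum_iff, Fin.prod_univ_succ]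
      have h7 : ((fun β : Fin (n + 1) → ℕ => ∏ j, (z j ^ β j / ((β j).factorial : ℂ)))
          ∘ (Fin.consEquiv (fun _ : Fin (n + 1) => ℕ)))
          = fun p : ℕ × (Fin n → ℕ) => (z 0 ^ p.1 / ((p.1.factorial : ℕ) : ℂ))
          * ∏ j, (z (Fin.succ j) ^ p.2 j / ((p.2 j).factorial : ℂ)) := by
        funext p
        exact hcons p
      rw [h7]
      exact h6

/-- the kernel `exp ⟨z, w⟩` -/
noncomputable def ke (z w : Fin g → ℂ) : ℂ := Complex.exp (∑ j, z j * conj (w j))

lemma isKernel_inner : IsKernel Set.univ fun z w : Fin g → ℂ => ∑ j, z j * conj (w j) := by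
  classical
  have h : ∀ s : Finset (Fin g), IsKernel Set.univ
      fun z w : Fin g → ℂ => ∑ j ∈ s, z j * conj (w j) := by
    intro s
    induction s using Finset.induction_on with
    | empty =>
      refine isKernel_of_fin fun n x _ => ?_
      have : (Matrix.of fun i j : Fin n => ∑ m ∈ (∅ : Finset (Fin g)), x i m * conj (x j m))
          = (0 : Matrix (Fin n) (Fin n) ℂ) := by
        ext i j
        simp
      rw [this]
      exact Matrix.PosSemidef.zero
    | insert a s ha ih =>
      have h1 : IsKernel Set.univ fun z w : Fin g → ℂ => z a * conj (w a) := by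
        refine isKernel_of_fin fun n x _ => ?_
        exact Matrix.posSemidef_vecMulVec_self_star (fun i => x i a)
      have h2 := h1.add ih
      simp only [Finset.sum_insert ha]
      exact h2
  exact h Finset.univ

lemma isKernel_ke : IsKernel Set.univ (ke : (Fin g → ℂ) → (Fin g → ℂ) → ℂ) := by
  set s : (Fin g → ℂ) → (Fin g → ℂ) → ℂ := fun z w => ∑ j, z j * conj (w j) with hs
  have hone : IsKernel Set.univ fun _ _ : Fin g → ℂ => (1 : ℂ) := by
    refine isKernel_of_fin fun n x _ => ?_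
    have h1 := Matrix.posSemidef_vecMulVec_self_star (fun _ : Fin n => (1 : ℂ))
    have h2 : Matrix.vecMulVec (fun _ : Fin n => (1 : ℂ)) (star fun _ : Fin n => (1 : ℂ))
        = Matrix.of fun _ _ => (1 : ℂ) := by
      ext i j
      simp [Matrix.vecMulVec_apply]
    rw [h2] at h1
    exact h1
  have hpow : ∀ m : ℕ, IsKernel Set.univ fun z w : Fin g → ℂ => s z w ^ m := by
    intro m
    induction m with
    | zero => simpa using hone
    | succ m ih =>
      have h1 := ih.mul isKernel_inner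
      simp only [pow_succ]
      exact h1
  refine isKernel_of_fin fun n x hx => ?_
  refine posSemidef_lim (l := atTop) (A := fun N : ℕ => Matrix.of fun i j =>
    ∑ m ∈ range N, s (x i) (x j) ^ m / ((m.factorial : ℕ) : ℂ)) (Eventually.of_forall fun N => ?_)
    fun i j => ?_
  · have h1 : (Matrix.of fun i j => ∑ m ∈ range N, s (x i) (x j) ^ m / ((m.factorial : ℕ) : ℂ))
        = ∑ m ∈ range N, (((m.factorial : ℝ)⁻¹ : ℝ) : ℂ)
          • Matrix.of fun i j => s (x i) (x j) ^ m := by
      ext i j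
      rw [Matrix.sum_apply]
      simp only [Matrix.of_apply, Matrix.smul_apply, smul_eq_mul]
      refine Finset.sum_congr rfl fun m _ => ?_
      push_cast
      rw [div_eq_mul_inv, mul_comm]
    rw [h1]
    refine Matrix.posSemidef_sum _ fun m _ => ?_
    refine ((hpow m).fin x hx).smul ?_
    rw [Complex.nonneg_iff]
    constructor
    · rw [Complex.ofReal_re]
      positivity
    · simp
  · simp only [Matrix.of_apply, ke]
    have h1 := NormedSpace.expSeries_div_hasSum_exp (s (x i) (x j))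
    have h2 := h1.tendsto_sum_nat
    rw [← Complex.exp_eq_exp_ℂ] at h2
    exact h2

lemma holo_ke : IsHolomorphic Set.univ (ke : (Fin g → ℂ) → (Fin g → ℂ) → ℂ) := by
  have h1 : Differentiable ℂ fun p : (Fin g → ℂ) × (Fin g → ℂ) =>
      Complex.exp (∑ j, p.1 j * p.2 j) := by fun_prop
  refine h1.differentiableOn.congr fun p _ => ?_
  simp [ke]

lemma diag_ke : HasDiagonalExpansion (ke : (Fin g → ℂ) → (Fin g → ℂ) → ℂ)
    (fun a => ∏ j, ((a j).factorial : ℝ)⁻¹) := by
  refine Eventually.of_forall fun p => ?_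
  have h1 := (exp_prod g (fun j => p.1 j * conj (p.2 j))).2
  rw [← Complex.exp_sum] at h1
  have h2 := (Finsupp.equivFunOnFinite (α := Fin g) (M := ℕ)).hasSum_iff.mpr h1
  have h3 : (fun a : Fin g →₀ ℕ => (((∏ j, ((a j).factorial : ℝ)⁻¹ : ℝ)) : ℂ) * mon a p.1
      * conj (mon a p.2)) = ((fun β : Fin g → ℕ =>
        ∏ j, (p.1 j * conj (p.2 j)) ^ β j / ((β j).factorial : ℂ)) ∘ Finsupp.equivFunOnFinite) := by
    funext a
    simp only [Function.comp_apply, Finsupp.equivFunOnFinite_apply, mon, map_prod, map_pow]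
    push_cast
    rw [← Finset.prod_mul_distrib, ← Finset.prod_mul_distrib]
    refine Finset.prod_congr rfl fun j _ => ?_
    rw [mul_pow, div_eq_mul_inv]
    ring
  simp only [ke]
  rw [h3]
  exact h2

lemma ke_diag (x : Fin g → ℂ) : ∃ r : ℝ, 0 < r ∧ ke x x = (r : ℂ) := by
  refine ⟨Real.exp (∑ j, ‖x j‖ ^ 2), Real.exp_pos _, ?_⟩
  simp only [ke]
  push_cast
  congr 1
  refine Finset.sum_congr rfl fun j _ => ?_
  rw [Complex.mul_conj, Complex.normSq_eq_norm_sq]
  push_cast
  rfl

lemma cp_ke : IsCPPair Set.univ (ke : (Fin g → ℂ) → (Fin g → ℂ) → ℂ) (fun _ _ => 0) := by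
  intro J _ F _ _ W hW
  have h0 : ∀ x ∈ F, W x = 0 := by
    intro x hx
    ext i j
    have h1 := hW.diag_nonneg (i := (⟨x, hx⟩, i))
    obtain ⟨r, hr, hrx⟩ := ke_diag x
    have h2 : pickMatrix F J ke (fun _ _ => 0) W (⟨x, hx⟩, i) (⟨x, hx⟩, i)
        = ((-(r * ∑ m, ‖W x i m‖ ^ 2) : ℝ) : ℂ) := by
      simp only [pickMatrix, Matrix.of_apply, zero_smul, zero_sub, Matrix.neg_apply,
        Matrix.smul_apply, smul_eq_mul, Matrix.mul_apply, Matrix.conjTranspose_apply, hrx]
      push_cast
      congr 2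
      refine Finset.sum_congr rfl fun m _ => ?_
      rw [RCLike.star_def, Complex.mul_conj, Complex.normSq_eq_norm_sq]
      push_cast
      rfl
    rw [h2, Complex.nonneg_iff, Complex.ofReal_re] at h1
    have h3 : ∑ m, ‖W x i m‖ ^ 2 ≤ 0 := by
      have := h1.1
      by_contra hcon
      push Not at hcon
      have := mul_pos hr hcon
      linarith
    have h4 := Finset.single_le_sum (f := fun m => ‖W x i m‖ ^ 2) (fun m _ => by positivity)
      (Finset.mem_univ j)
    have h5 : ‖W x i j‖ ^ 2 ≤ 0 := h4.trans h3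
    have h6 : ‖W x i j‖ = 0 := by
      have := norm_nonneg (W x i j)
      nlinarith
    rw [norm_eq_zero] at h6
    rw [h6]
    rfl
  refine ⟨fun _ => 0, fun x hx => (h0 x hx).symm, ?_⟩
  have h1 : pickMatrix Set.univ J ke (fun _ _ => 0) (fun _ : Fin g → ℂ => (0 : Matrix (Fin J) (Fin J) ℂ))
      = 0 := by
    ext a b
    simp [pickMatrix]
  rw [h1]
  exact Matrix.PosSemidef.zero

end Pool.Agent.K1H27.CP
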