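import Mathlib
import Pool.Agent.K1H27.CP.Defs

/-! # Minimality of the master certificate -/

set_option autoImplicit false

namespace Pool.Agent.K1H27.CP

open Finset Filter Topology
open MvPowerSeries (coeff constantCoeff)

variable {g : ℕ}

/-- the formal power series with the coefficients `c` -/
def ps (c : (Fin g →₀ ℕ) → ℝ) : MvPowerSeries (Fin g) ℝ := c

lemma coeff_ps (c : (Fin g →₀ ℕ) → ℝ) (a : Fin g →₀ ℕ) : coeff a (ps c) = c a := rfl

/-- the degree -/
def deg (a : Fin g →₀ ℕ) : ℕ := ∑ j, a j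

lemma deg_add (a b : Fin g →₀ ℕ) : deg (a + b) = deg a + deg b := by
  simp [deg, Finset.sum_add_distrib]

lemma deg_eq_zero {a : Fin g →₀ ℕ} : deg a = 0 ↔ a = 0 := by
  constructor
  · intro h
    ext j
    have := (Finset.sum_eq_zero_iff.mp h) j (mem_univ j)
    simpa using this
  · rintro rfl
    simp [deg]

lemma deg_eq_one {a : Fin g →₀ ℕ} (h : deg a = 1) : ∃ j, a = Finsupp.single j 1 := by
  have hne : a ≠ 0 := fun h0 => by rw [deg_eq_zero.mpr h0] at h; omega
  obtain ⟨j, hj⟩ : ∃ j, a j ≠ 0 := by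
    by_contra hcon
    push Not at hcon
    exact hne (Finsupp.ext hcon)
  refine ⟨j, ?_⟩
  have hle : Finsupp.single j 1 ≤ a := by
    rw [Finsupp.single_le_iff]
    omega
  obtain ⟨b, hb⟩ := exists_add_of_le hle
  have h1 : deg (Finsupp.single j 1 : Fin g →₀ ℕ) = 1 := by
    simp only [deg]
    rw [Finset.sum_eq_single j]
    · simp
    · intro i _ hi
      simp [hi.symm]
    · simp
  have h2 : deg b = 0 := by
    rw [hb, deg_add, h1] at h
    omega
  rw [deg_eq_zero.mp h2, add_zero] at hb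
  exact hb

variable {c ϑ q : (Fin g →₀ ℕ) → ℝ}

theorem theta_nonneg (hc : ∀ a, 0 < c a) (h : IsMasterCertificate c ϑ) (a : Fin g →₀ ℕ) :
    0 ≤ ϑ a := by
  rcases Nat.lt_or_ge (deg a) 2 with h2 | h2
  · rcases Nat.lt_or_ge (deg a) 1 with h1 | h1
    · rw [deg_eq_zero.mp (show deg a = 0 by omega), h.1]
    · obtain ⟨j, rfl⟩ := deg_eq_one (show deg a = 1 by omega)
      rw [h.2.1]
      exact (hc _).le
  · rw [h.2.2 a h2]
    exact le_max_left _ _

/-- splitting off the two end terms of the sum over the antidiagonal -/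
lemma sum_antidiagonal_split {a : Fin g →₀ ℕ} (ha : a ≠ 0) (f : (Fin g →₀ ℕ) × (Fin g →₀ ℕ) → ℝ) :
    ∑ p ∈ antidiagonal a, f p = f (0, a) + f (a, 0)
      + ∑ p ∈ (antidiagonal a).filter (fun p => p.1 ≠ 0 ∧ p.2 ≠ 0), f p := by
  classical
  rw [← Finset.sum_filter_add_sum_filter_not (antidiagonal a) (fun p => p.1 ≠ 0 ∧ p.2 ≠ 0) f,
    add_comm]
  congr 1
  have : (antidiagonal a).filter (fun p => ¬ (p.1 ≠ 0 ∧ p.2 ≠ 0))
      = {((0 : Fin g →₀ ℕ), a), (a, 0)} := by
    ext ⟨x, y⟩
    simp only [mem_filter, HasAntidiagonal.mem_antidiagonal, mem_insert, mem_singleton, Prod.mk.injEq]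
    constructor
    · rintro ⟨h1, h2⟩
      rw [not_and_or, not_not, not_not] at h2
      rcases h2 with h2 | h2
      · left
        subst h2
        exact ⟨rfl, by simpa using h1⟩
      · right
        subst h2
        exact ⟨by simpa using h1, rfl⟩
    · rintro (⟨rfl, rfl⟩ | ⟨rfl, rfl⟩) <;> simp
  rw [this, Finset.sum_pair]
  intro h
  rw [Prod.mk.injEq] at h
  exact ha h.2

/-- the defect of the master certificate -/
lemma eta_eq (hc0 : c 0 = 1) (hc : ∀ a, 0 < c a) (h : IsMasterCertificate c ϑ)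
    {a : Fin g →₀ ℕ} (ha : ϑ a ≠ 0) : coeff a (1 - ps c * (1 - ps ϑ)) = 0 := by
  classical
  have hane : a ≠ 0 := fun h0 => ha (by rw [h0, h.1])
  have e1 : coeff a (1 - ps c * (1 - ps ϑ)) = - c a + ∑ p ∈ antidiagonal a, ϑ p.1 * c p.2 := by
    have : (1 - ps c * (1 - ps ϑ)) = 1 - ps c + ps ϑ * ps c := by ring
    rw [this, map_add, map_sub, MvPowerSeries.coeff_one, if_neg hane, MvPowerSeries.coeff_mul,
      coeff_ps]
    simp only [coeff_ps]
    ring
  rw [e1, sum_antidiagonal_split hane]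
  rw [h.1, hc0]
  rcases Nat.lt_or_ge (deg a) 2 with h2 | h2
  · have h1 : deg a ≠ 0 := fun h0 => hane (deg_eq_zero.mp h0)
    have hd : deg a = 1 := by omega
    have hempty : (antidiagonal a).filter (fun p => p.1 ≠ 0 ∧ p.2 ≠ 0) = ∅ := by
      ext ⟨x, y⟩
      simp only [mem_filter, HasAntidiagonal.mem_antidiagonal, notMem_empty, iff_false]
      rintro ⟨h3, h4, h5⟩
      have h6 : deg x ≠ 0 := fun h0 => h4 (deg_eq_zero.mp h0)
      have h7 : deg y ≠ 0 := fun h0 => h5 (deg_eq_zero.mp h0)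
      rw [← h3, deg_add] at hd
      omega
    rw [hempty, Finset.sum_empty]
    obtain ⟨j, rfl⟩ := deg_eq_one hd
    simp only
    rw [h.2.1]
    ring
  · have h3 := h.2.2 a h2
    have h4 : 0 < ϑ a := lt_of_le_of_ne (theta_nonneg hc h a) (Ne.symm ha)
    rw [h3] at h4
    have h5 : ϑ a = c a - ∑ p ∈ (antidiagonal a).filter (fun p => p.1 ≠ 0 ∧ p.2 ≠ 0),
        ϑ p.1 * c p.2 := by
      rw [h3]
      refine max_eq_right ?_
      by_contra hcon
      push Not at hcon
      rw [max_eq_left hcon.le] at h4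
      exact lt_irrefl _ h4
    simp only
    rw [h5]
    ring

lemma constantCoeff_one_sub (h0 : q 0 = 0) : constantCoeff (1 - ps q) = (1 : ℝ) := by
  rw [map_sub, map_one, ← MvPowerSeries.coeff_zero_eq_constantCoeff_apply, coeff_ps, h0, sub_zero]

lemma mul_inv_one_sub (h0 : q 0 = 0) : (1 - ps q) * (1 - ps q)⁻¹ = 1 := by
  refine MvPowerSeries.mul_inv_cancel _ ?_
  rw [constantCoeff_one_sub h0]
  exact one_ne_zero

/-- a product with a series without constant term: nonnegativity of a coefficient follows from the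
nonnegativity of the coefficients of smaller degree -/
lemma coeff_mul_nonneg {A B : MvPowerSeries (Fin g) ℝ} {a : Fin g →₀ ℕ} (hA0 : coeff 0 A = 0)
    (hA : ∀ b, 0 ≤ coeff b A) (hB : ∀ b, deg b < deg a → 0 ≤ coeff b B) :
    0 ≤ coeff a (A * B) := by
  classical
  rw [MvPowerSeries.coeff_mul]
  refine Finset.sum_nonneg fun p hp => ?_
  rw [HasAntidiagonal.mem_antidiagonal] at hp
  by_cases h1 : p.1 = 0
  · rw [h1, hA0, zero_mul]
  · have h2 : deg p.1 ≠ 0 := fun h0 => h1 (deg_eq_zero.mp h0)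
    refine mul_nonneg (hA _) (hB _ ?_)
    rw [← hp, deg_add]
    omega

lemma inv_one_sub_nonneg (hq : ∀ a, 0 ≤ q a) (hq0 : q 0 = 0) (a : Fin g →₀ ℕ) :
    0 ≤ coeff a (1 - ps q)⁻¹ := by
  classical
  have hs : (1 - ps q)⁻¹ = 1 + ps q * (1 - ps q)⁻¹ := by
    have := mul_inv_one_sub hq0
    linear_combination this
  induction hn : deg a using Nat.strong_induction_on generalizing a with
  | _ n ih =>
    rw [hs, map_add]
    refine add_nonneg ?_ ?_
    · rw [MvPowerSeries.coeff_one]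
      split_ifs <;> norm_num
    · exact coeff_mul_nonneg (by rw [coeff_ps, hq0]) (fun b => by rw [coeff_ps]; exact hq b)
        fun b hb => ih (deg b) (hn ▸ hb) b rfl

/-- the comparison of the two inverses -/
theorem sigma_le (hc0 : c 0 = 1) (hc : ∀ a, 0 < c a) (h : IsMasterCertificate c ϑ)
    (hq : ∀ a, 0 ≤ q a) (hq0 : q 0 = 0)
    (hqc : ∀ a, a ≠ 0 → c a ≤ ∑ p ∈ antidiagonal a, q p.1 * c p.2) (a : Fin g →₀ ℕ) :
    coeff a (1 - ps ϑ)⁻¹ ≤ coeff a (1 - ps q)⁻¹ := by
  classical
  set s := (1 - ps q)⁻¹ with hs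
  set σ := (1 - ps ϑ)⁻¹ with hσ
  have hs1 : (1 - ps q) * s = 1 := mul_inv_one_sub hq0
  have hσ1 : (1 - ps ϑ) * σ = 1 := mul_inv_one_sub h.1
  set H := 1 - ps c * (1 - ps q) with hH
  set η := 1 - ps c * (1 - ps ϑ) with hη
  set G := s * (1 - ps ϑ) - 1 with hG
  have hH0 : coeff 0 H = 0 := by
    rw [hH, map_sub, MvPowerSeries.coeff_mul]
    simp [coeff_ps, hc0, hq0]
  have hHn : ∀ b, 0 ≤ coeff b H := by
    intro b
    by_cases hb : b = 0
    · rw [hb, hH0]
    · have e1 : coeff b H = - c b + ∑ p ∈ antidiagonal b, q p.1 * c p.2 := by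
        have : H = 1 - ps c + ps q * ps c := by rw [hH]; ring
        rw [this, map_add, map_sub, MvPowerSeries.coeff_one, if_neg hb, MvPowerSeries.coeff_mul,
          coeff_ps]
        simp only [coeff_ps]
        ring
      rw [e1]
      have := hqc b hb
      linarith
  have eI : G = H + H * G - η := by
    have : (1 - H) * (1 + G) = 1 - η := by
      rw [hH, hG, hη]
      linear_combination (ps c * (1 - ps ϑ)) * hs1
    linear_combination this
  have eII : G = ps q + ps q * G - ps ϑ := by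
    have : (1 - ps q) * (1 + G) = 1 - ps ϑ := by
      rw [hG]
      linear_combination (1 - ps ϑ) * hs1
    linear_combination this
  have hGn : ∀ b, 0 ≤ coeff b G := by
    intro b
    induction hn : deg b using Nat.strong_induction_on generalizing b with
    | _ n ih =>
      have ih' : ∀ d, deg d < deg b → 0 ≤ coeff d G := fun d hd => ih (deg d) (hn ▸ hd) d rfl
      by_cases hb : ϑ b = 0
      · rw [eII, map_sub, map_add, coeff_ps, coeff_ps, hb, sub_zero]
        exact add_nonneg (hq b) (coeff_mul_nonneg (by rw [coeff_ps, hq0])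
          (fun b => by rw [coeff_ps]; exact hq b) ih')
      · have h1 : coeff b η = 0 := eta_eq hc0 hc h hb
        rw [eI, map_sub, map_add, h1, sub_zero]
        exact add_nonneg (hHn b) (coeff_mul_nonneg hH0 hHn ih')
  have hs2 : s = σ * (1 + G) := by
    rw [hG]
    linear_combination (-s) * hσ1
  have h3 : s = σ + σ * G := by rw [hs2]; ring
  rw [h3, map_add]
  have h4 : 0 ≤ coeff a (σ * G) := by
    rw [MvPowerSeries.coeff_mul]
    exact Finset.sum_nonneg fun p _ =>
      mul_nonneg (inv_one_sub_nonneg (theta_nonneg hc h) h.1 _) (hGn _)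
  linarith

variable {w : (Fin g →₀ ℕ) → ℝ}

/-- the weighted coefficients of the inverse are summable -/
theorem summable_inv (hq : ∀ a, 0 ≤ q a) (hq0 : q 0 = 0) (hw : ∀ a, 0 ≤ w a)
    (hwm : ∀ a b, w (a + b) = w a * w b) (hw1 : w 0 = 1) {ρ : ℝ} (hρ : ρ < 1)
    (hsum : ∀ T : Finset (Fin g →₀ ℕ), ∑ a ∈ T, q a * w a ≤ ρ) :
    Summable fun a => coeff a (1 - ps q)⁻¹ * w a := by
  classical
  have hρ0 : 0 ≤ ρ := by simpa using hsum ∅
  set s : (Fin g →₀ ℕ) → ℝ := fun a => coeff a (1 - ps q)⁻¹ with hs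
  have hsn : ∀ a, 0 ≤ s a := inv_one_sub_nonneg hq hq0
  have hrec : ∀ a, s a = (if a = 0 then 1 else 0) + ∑ p ∈ antidiagonal a, q p.1 * s p.2 := by
    intro a
    have h1 : (1 - ps q)⁻¹ = 1 + ps q * (1 - ps q)⁻¹ := by
      have := mul_inv_one_sub hq0
      linear_combination this
    have h2 : s a = coeff a (1 + ps q * (1 - ps q)⁻¹) := by
      simp only [hs]
      exact congrArg _ h1
    rw [h2, map_add, MvPowerSeries.coeff_one, MvPowerSeries.coeff_mul]
    rfl
  have hbox : ∀ n : Fin g →₀ ℕ, ∑ a ∈ Iic n, s a * w a ≤ (1 - ρ)⁻¹ := by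
    intro n
    have h1 : ∑ a ∈ Iic n, s a * w a
        = 1 + ∑ a ∈ Iic n, ∑ p ∈ antidiagonal a, (q p.1 * w p.1) * (s p.2 * w p.2) := by
      have h2 : ∀ a, s a * w a = (if a = 0 then 1 else 0)
          + ∑ p ∈ antidiagonal a, (q p.1 * w p.1) * (s p.2 * w p.2) := by
        intro a
        conv_lhs => rw [hrec a]
        rw [add_mul, Finset.sum_mul]
        congr 1
        · split_ifs with h
          · rw [h, hw1, one_mul]
          · rw [zero_mul]
        · refine Finset.sum_congr rfl fun p hp => ?_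
          rw [HasAntidiagonal.mem_antidiagonal] at hp
          rw [← hp, hwm]
          ring
      rw [Finset.sum_congr rfl fun a _ => h2 a, Finset.sum_add_distrib]
      congr 1
      rw [Finset.sum_ite_eq']
      simp
    have h3 : ∑ a ∈ Iic n, ∑ p ∈ antidiagonal a, (q p.1 * w p.1) * (s p.2 * w p.2)
        ≤ (∑ a ∈ Iic n, q a * w a) * ∑ a ∈ Iic n, s a * w a := by
      rw [Finset.sum_mul_sum, ← Finset.sum_product', Finset.sum_sigma']
      refine le_trans (le_of_eq ?_) (Finset.sum_le_sum_of_subset_of_nonneg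
        (s := (Finset.sigma (Iic n) fun a => antidiagonal a).image fun x => (x.2.1, x.2.2)) ?_ ?_)
      · rw [Finset.sum_image]
        rintro ⟨a, x, y⟩ hx ⟨b, x', y'⟩ hy hxy
        simp only [Finset.coe_sigma, Set.mem_sigma_iff, Finset.mem_coe, HasAntidiagonal.mem_antidiagonal] at hx hy
        simp only [Prod.mk.injEq] at hxy
        obtain ⟨rfl, rfl⟩ := hxy
        obtain ⟨-, rfl⟩ := hx
        obtain ⟨-, rfl⟩ := hy
        rfl
      · intro x hx
        rw [Finset.mem_image] at hx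
        obtain ⟨⟨a, u, v⟩, h4, rfl⟩ := hx
        simp only [Finset.mem_sigma, Finset.mem_Iic, HasAntidiagonal.mem_antidiagonal] at h4
        simp only [Finset.mem_product, Finset.mem_Iic]
        obtain ⟨h5, rfl⟩ := h4
        exact ⟨le_trans le_self_add h5, le_trans le_add_self h5⟩
      · rintro ⟨u, v⟩ _ _
        exact mul_nonneg (mul_nonneg (hq _) (hw _)) (mul_nonneg (hsn _) (hw _))
    have h4 : 0 ≤ ∑ a ∈ Iic n, s a * w a := Finset.sum_nonneg fun a _ => mul_nonneg (hsn a) (hw a)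
    have h5 := mul_le_mul_of_nonneg_right (hsum (Iic n)) h4
    rw [← one_div, le_div_iff₀ (by linarith)]
    nlinarith
  refine summable_of_sum_le (c := (1 - ρ)⁻¹) (fun a => mul_nonneg (hsn a) (hw a)) fun T => ?_
  refine le_trans (Finset.sum_le_sum_of_subset_of_nonneg (t := Iic (T.sup id)) ?_ ?_) (hbox _)
  · intro a ha
    rw [Finset.mem_Iic]
    exact Finset.le_sup (f := id) ha
  · intro a _ _
    exact mul_nonneg (hsn a) (hw a)

/-- the weighted sum of the master certificate is smaller than one -/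
theorem theta_lt_one (hc0 : c 0 = 1) (hc : ∀ a, 0 < c a) (h : IsMasterCertificate c ϑ)
    (hq : ∀ a, 0 ≤ q a) (hq0 : q 0 = 0)
    (hqc : ∀ a, a ≠ 0 → c a ≤ ∑ p ∈ antidiagonal a, q p.1 * c p.2) (hw : ∀ a, 0 ≤ w a)
    (hwm : ∀ a b, w (a + b) = w a * w b) (hw1 : w 0 = 1) {ρ : ℝ} (hρ : ρ < 1)
    (hsum : ∀ T : Finset (Fin g →₀ ℕ), ∑ a ∈ T, q a * w a ≤ ρ) :
    Summable (fun a => ϑ a * w a) ∧ ∑' a, ϑ a * w a < 1 := by
  classical
  have hth := theta_nonneg hc h
  set σ : (Fin g →₀ ℕ) → ℝ := fun a => coeff a (1 - ps ϑ)⁻¹ with hσ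
  have hσn : ∀ a, 0 ≤ σ a := inv_one_sub_nonneg hth h.1
  have hσs : Summable fun a => σ a * w a := by
    refine Summable.of_nonneg_of_le (fun a => mul_nonneg (hσn a) (hw a)) (fun a => ?_)
      (summable_inv hq hq0 hw hwm hw1 hρ hsum)
    exact mul_le_mul_of_nonneg_right (sigma_le hc0 hc h hq hq0 hqc a) (hw a)
  have hrec : ∀ a, ∑ p ∈ antidiagonal a, ϑ p.1 * σ p.2 = σ a - (if a = 0 then 1 else 0) := by
    intro a
    have h1 : (1 - ps ϑ)⁻¹ = 1 + ps ϑ * (1 - ps ϑ)⁻¹ := by
      have := mul_inv_one_sub h.1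
      linear_combination this
    have h2 : σ a = coeff a (1 + ps ϑ * (1 - ps ϑ)⁻¹) := by
      simp only [hσ]
      exact congrArg _ h1
    rw [map_add, MvPowerSeries.coeff_one, MvPowerSeries.coeff_mul] at h2
    rw [h2]
    simp only [coeff_ps, hσ]
    ring
  have hσ0 : σ 0 = 1 := by
    have := hrec 0
    simp [h.1] at this
    linarith
  have hle : ∀ a, ϑ a ≤ σ a := by
    intro a
    by_cases ha : a = 0
    · rw [ha, h.1, hσ0]
      norm_num
    · have h1 := hrec a
      rw [if_neg ha, sub_zero] at h1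
      rw [← h1]
      have h2 := Finset.single_le_sum (s := antidiagonal a) (f := fun p => ϑ p.1 * σ p.2)
        (fun p _ => mul_nonneg (hth _) (hσn _))
        (show (a, 0) ∈ antidiagonal a from HasAntidiagonal.mem_antidiagonal.mpr (add_zero a))
      simp only [hσ0, mul_one] at h2
      exact h2
  have hθs : Summable fun a => ϑ a * w a :=
    Summable.of_nonneg_of_le (fun a => mul_nonneg (hth a) (hw a))
      (fun a => mul_le_mul_of_nonneg_right (hle a) (hw a)) hσs
  refine ⟨hθs, ?_⟩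
  have hprod : (∑' a, ϑ a * w a) * (∑' a, σ a * w a) = ∑' a, σ a * w a - 1 := by
    rw [Summable.tsum_mul_tsum_eq_tsum_sum_antidiagonal hθs hσs
      (summable_mul_of_summable_norm hθs.norm hσs.norm)]
    · have h1 : ∀ n, ∑ p ∈ antidiagonal n, ϑ p.1 * w p.1 * (σ p.2 * w p.2)
          = σ n * w n - (if n = 0 then 1 else 0) := by
        intro n
        have h2 : ∑ p ∈ antidiagonal n, ϑ p.1 * w p.1 * (σ p.2 * w p.2)
            = (∑ p ∈ antidiagonal n, ϑ p.1 * σ p.2) * w n := by
          rw [Finset.sum_mul]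
          refine Finset.sum_congr rfl fun p hp => ?_
          rw [HasAntidiagonal.mem_antidiagonal] at hp
          rw [← hp, hwm]
          ring
        rw [h2, hrec]
        split_ifs with h3
        · rw [h3, hw1, mul_one, mul_one]
        · rw [sub_zero, sub_zero]
      simp only [h1]
      rw [Summable.tsum_sub hσs (summable_of_ne_finset_zero (s := {0}) (by
        intro b hb
        simp at hb
        simp [hb])), tsum_ite_eq]
  have hσ1 : 1 ≤ ∑' a, σ a * w a := by
    have := hσs.le_tsum 0 (fun a _ => mul_nonneg (hσn a) (hw a))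
    rw [hσ0, hw1, one_mul] at this
    exact this
  by_contra hcon
  push Not at hcon
  nlinarith

end Pool.Agent.K1H27.CP
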