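import Mathlib
import Pool.Agent.K1H27.CP.Exp
import Pool.Agent.K1H27.CP.Min

/-! # The geometric part -/

set_option autoImplicit false

namespace Pool.Agent.K1H27.CP

open Finset Filter Topology Metric
open scoped ComplexConjugate Real

variable {g : ℕ} {ϑ c : (Fin g →₀ ℕ) → ℝ}

lemma absMon_nonneg (a : Fin g →₀ ℕ) (x : Fin g → ℂ) : 0 ≤ absMon a x :=
  Finset.prod_nonneg fun _ _ => by positivity

lemma absMon_le (a : Fin g →₀ ℕ) {x x' : Fin g → ℂ} (h : ∀ j, ‖x j‖ ≤ ‖x' j‖) :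
    absMon a x ≤ absMon a x' := by
  unfold absMon
  refine Finset.prod_le_prod (fun j _ => by positivity) fun j _ => ?_
  exact pow_le_pow_left₀ (norm_nonneg _) (h j) _

lemma absMon_add (a b : Fin g →₀ ℕ) (x : Fin g → ℂ) :
    absMon (a + b) x = absMon a x * absMon b x := by
  simp only [absMon, Finsupp.add_apply, mul_add, pow_add, Finset.prod_mul_distrib]

lemma absMon_zero (x : Fin g → ℂ) : absMon 0 x = 1 := by simp [absMon]

lemma absMon_single (j : Fin g) (x : Fin g → ℂ) : absMon (Finsupp.single j 1) x = ‖x j‖ ^ 2 := by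
  unfold absMon
  rw [Finset.prod_eq_single j]
  · simp
  · intro i _ hi
    simp [hi.symm]
  · simp

/-- the set where the series of `ϑ` is smaller than one -/
def S1 (ϑ : (Fin g →₀ ℕ) → ℝ) : Set (Fin g → ℂ) :=
  {x | Summable (fun b => ϑ b * absMon b x) ∧ ∑' b, ϑ b * absMon b x < 1}

lemma S1_mono (hϑ : ∀ a, 0 ≤ ϑ a) {x x' : Fin g → ℂ} (h : ∀ j, ‖x j‖ ≤ ‖x' j‖)
    (hx' : x' ∈ S1 ϑ) : x ∈ S1 ϑ := by
  have hle : ∀ b, ϑ b * absMon b x ≤ ϑ b * absMon b x' := fun b =>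
    mul_le_mul_of_nonneg_left (absMon_le b h) (hϑ b)
  have hs : Summable fun b => ϑ b * absMon b x :=
    Summable.of_nonneg_of_le (fun b => mul_nonneg (hϑ b) (absMon_nonneg b x)) hle hx'.1
  exact ⟨hs, (hs.tsum_le_tsum hle hx'.1).trans_lt hx'.2⟩

/-- the set where the terms are bounded -/
def Bd (ϑ : (Fin g →₀ ℕ) → ℝ) : Set (Fin g → ℂ) :=
  {x | BddAbove (Set.range fun b => ϑ b * absMon b x)}

lemma Bd_mono (hϑ : ∀ a, 0 ≤ ϑ a) {x x' : Fin g → ℂ} (h : ∀ j, ‖x j‖ ≤ ‖x' j‖)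
    (hx' : x' ∈ Bd ϑ) : x ∈ Bd ϑ := by
  obtain ⟨B, hB⟩ := hx'
  refine ⟨B, ?_⟩
  rintro _ ⟨b, rfl⟩
  exact (mul_le_mul_of_nonneg_left (absMon_le b h) (hϑ b)).trans (hB ⟨b, rfl⟩)

lemma S1_subset_Bd (hϑ : ∀ a, 0 ≤ ϑ a) : S1 ϑ ⊆ Bd ϑ := by
  intro x hx
  refine ⟨1, ?_⟩
  rintro _ ⟨b, rfl⟩
  exact (hx.1.le_tsum b fun a _ => mul_nonneg (hϑ a) (absMon_nonneg a x)).trans hx.2.le

lemma omegaOne_eq : OmegaOne ϑ = {x | x ∈ interior (Bd ϑ) ∧ x ∈ S1 ϑ} := rfl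

lemma omegaOne_mono (hϑ : ∀ a, 0 ≤ ϑ a) {x x' : Fin g → ℂ} (h : ∀ j, ‖x j‖ ≤ ‖x' j‖)
    (hx' : x' ∈ OmegaOne ϑ) : x ∈ OmegaOne ϑ := by
  rw [omegaOne_eq] at hx' ⊢
  refine ⟨?_, S1_mono hϑ h hx'.2⟩
  obtain ⟨h1, -⟩ := hx'
  rw [mem_interior_iff_mem_nhds, Metric.mem_nhds_iff] at h1 ⊢
  obtain ⟨ε, hε, hB⟩ := h1
  refine ⟨ε, hε, fun w hw => ?_⟩
  rw [mem_ball] at hw
  set δ := dist w x with hδ
  set x'' : Fin g → ℂ := fun j => if x' j = 0 then (δ : ℂ) else x' j * (1 + δ / ‖x' j‖ : ℝ)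
    with hx''
  have hδ0 : 0 ≤ δ := dist_nonneg
  have e1 : ∀ j, ‖x'' j‖ = ‖x' j‖ + δ := by
    intro j
    simp only [hx'']
    split_ifs with h0
    · rw [h0, norm_zero, zero_add, Complex.norm_real, Real.norm_of_nonneg hδ0]
    · have : 0 < ‖x' j‖ := norm_pos_iff.mpr h0
      rw [norm_mul, Complex.norm_real, Real.norm_of_nonneg (by positivity)]
      field_simp
  have e2 : x'' ∈ ball x' ε := by
    rw [mem_ball]
    refine lt_of_le_of_lt ?_ hw
    rw [dist_pi_le_iff hδ0]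
    intro j
    rw [dist_eq_norm]
    simp only [hx'']
    split_ifs with h0
    · rw [h0, sub_zero, Complex.norm_real, Real.norm_of_nonneg hδ0]
    · have h3 : 0 < ‖x' j‖ := norm_pos_iff.mpr h0
      have h4 : x' j * ((1 + δ / ‖x' j‖ : ℝ) : ℂ) - x' j = x' j * ((δ / ‖x' j‖ : ℝ) : ℂ) := by
        push_cast
        ring
      rw [h4, norm_mul, Complex.norm_real, Real.norm_of_nonneg (by positivity)]
      rw [mul_div_cancel₀ _ h3.ne']
  refine Bd_mono hϑ (fun j => ?_) (hB e2)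
  rw [e1 j]
  have h3 : ‖w j - x j‖ ≤ δ := by
    rw [← dist_eq_norm]
    exact dist_le_pi_dist w x j
  have h4 := norm_sub_norm_le (w j) (x j)
  have h5 := h j
  linarith

lemma omegaOne_bound (hϑ : ∀ a, 0 ≤ ϑ a) (hM : IsMasterCertificate c ϑ) {x : Fin g → ℂ}
    (hx : x ∈ OmegaOne ϑ) (j : Fin g) : c (Finsupp.single j 1) * ‖x j‖ ^ 2 < 1 := by
  have h1 := hx.2.1.le_tsum (Finsupp.single j 1) fun a _ => mul_nonneg (hϑ a) (absMon_nonneg a x)
  rw [absMon_single, hM.2.1] at h1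
  exact h1.trans_lt hx.2.2

/-- clipping -/
lemma exists_clip {δ : ℝ} (hδ : 0 ≤ δ) (w : Fin g → ℂ) (x : Fin g → ℂ)
    (h : ∀ j, ‖w j‖ ≤ ‖x j‖ + δ) : ∃ w' : Fin g → ℂ, (∀ j, ‖w' j‖ ≤ ‖x j‖) ∧ dist w w' ≤ δ := by
  refine ⟨fun j => if ‖w j‖ ≤ ‖x j‖ then w j else w j * ((‖x j‖ / ‖w j‖ : ℝ) : ℂ), ?_, ?_⟩
  · intro j
    simp only
    split_ifs with h1
    · exact h1
    · push Not at h1
      have h2 : 0 < ‖w j‖ := (norm_nonneg _).trans_lt h1
      rw [norm_mul, Complex.norm_real, Real.norm_of_nonneg (by positivity),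
        mul_div_cancel₀ _ h2.ne']
  · rw [dist_pi_le_iff hδ]
    intro j
    rw [dist_eq_norm]
    split_ifs with h1
    · rw [sub_self, norm_zero]
      exact hδ
    · push Not at h1
      have h2 : 0 < ‖w j‖ := (norm_nonneg _).trans_lt h1
      have h3 : w j - w j * ((‖x j‖ / ‖w j‖ : ℝ) : ℂ) = w j * ((1 - ‖x j‖ / ‖w j‖ : ℝ) : ℂ) := by
        push_cast
        ring
      have h4 : 0 ≤ 1 - ‖x j‖ / ‖w j‖ := by
        rw [sub_nonneg, div_le_one h2]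
        exact h1.le
      rw [h3, norm_mul, Complex.norm_real, Real.norm_of_nonneg h4, mul_sub, mul_one,
        mul_div_cancel₀ _ h2.ne']
      linarith [h j]

theorem geom (hg : 1 ≤ g) {Ω : Set (Fin g → ℂ)} (hΩ : IsOpen Ω) (h0 : 0 ∈ Ω)
    (hc : ∀ a, 0 < c a) (hM : IsMasterCertificate c ϑ)
    (key : ∀ (y : Fin g → ℝ) (R : ℝ), (∀ j, 0 < y j) → 1 < R →
      (∀ u : Fin g → ℂ, ‖u‖ ≤ R → sc y u ∈ Ω) → ∀ x : Fin g → ℂ, (∀ j, ‖x j‖ < y j) → x ∈ S1 ϑ) :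
    ¬ closure (OmegaOne ϑ) ⊆ Ω := by
  intro hsub
  have hϑ := theta_nonneg hc hM
  -- open polydiscs
  have key' : ∀ (y : Fin g → ℝ) (R : ℝ), (∀ j, 0 < y j) → 1 < R →
      (∀ u : Fin g → ℂ, ‖u‖ ≤ R → sc y u ∈ Ω) →
      ∀ x : Fin g → ℂ, (∀ j, ‖x j‖ < y j) → x ∈ OmegaOne ϑ := by
    intro y R hy hR hyR x hx
    rw [omegaOne_eq]
    refine ⟨?_, key y R hy hR hyR x hx⟩
    rw [mem_interior]
    refine ⟨{x | ∀ j, ‖x j‖ < y j}, fun x hx => S1_subset_Bd hϑ (key y R hy hR hyR x hx), ?_, hx⟩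
    simp only [Set.ofPred_forall]
    refine isOpen_iInter_of_finite fun j => ?_
    exact isOpen_lt (continuous_norm.comp (continuous_apply j)) continuous_const
  -- the origin
  have hzero : (0 : Fin g → ℂ) ∈ OmegaOne ϑ := by
    obtain ⟨r, hr, hball⟩ := Metric.isOpen_iff.mp hΩ 0 h0
    refine key' (fun _ => r / 4) 2 (fun _ => by positivity) (by norm_num) (fun u hu => ?_) 0
      (fun j => ?_)
    · apply hball
      rw [mem_ball_zero_iff, pi_norm_lt_iff hr]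
      intro j
      simp only [sc]
      rw [norm_mul, Complex.norm_real, Real.norm_of_nonneg (by positivity)]
      have h1 : ‖u j‖ ≤ 2 := (norm_le_pi_norm u j).trans hu
      calc r / 4 * ‖u j‖ ≤ r / 4 * 2 := by gcongr
        _ < r := by linarith
    · simp only [Pi.zero_apply, norm_zero]
      positivity
  -- compactness
  have hbdd : Bornology.IsBounded (OmegaOne ϑ) := by
    rw [isBounded_iff_forall_norm_le]
    refine ⟨∑ j, Real.sqrt (c (Finsupp.single j 1))⁻¹, fun x hx => ?_⟩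
    rw [pi_norm_le_iff_of_nonneg (Finset.sum_nonneg fun _ _ => Real.sqrt_nonneg _)]
    intro j
    refine le_trans ?_ (Finset.single_le_sum (fun i _ => Real.sqrt_nonneg _) (mem_univ j))
    apply Real.le_sqrt_of_sq_le
    have h1 := omegaOne_bound hϑ hM hx j
    have h2 := hc (Finsupp.single j 1)
    rw [← one_div, le_div_iff₀ h2]
    linarith
  have hcomp : IsCompact (closure (OmegaOne ϑ)) :=
    Metric.isCompact_of_isClosed_isBounded isClosed_closure (Metric.isBounded_closure_iff.mpr hbdd)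
  obtain ⟨δ, hδ, hthick⟩ := hcomp.exists_cthickening_subset_open hΩ hsub
  -- the step
  have step : ∀ x ∈ OmegaOne ϑ, (fun j => ((‖x j‖ + δ / 4 : ℝ) : ℂ)) ∈ OmegaOne ϑ := by
    intro x hx
    have hxn : 0 ≤ ‖x‖ := norm_nonneg x
    refine key' (fun j => ‖x j‖ + δ / 2) (1 + (δ / 2) / (‖x‖ + δ / 2))
      (fun j => by positivity) (by
        have : 0 < (δ / 2) / (‖x‖ + δ / 2) := by positivity
        linarith) (fun u hu => ?_) _ (fun j => ?_)
    · apply hthick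
      obtain ⟨w', h1, h2⟩ := exists_clip (g := g) hδ.le
        (sc (fun j => ‖x j‖ + δ / 2) u) x (fun j => by
          simp only [sc]
          rw [norm_mul, Complex.norm_real, Real.norm_of_nonneg (by positivity)]
          have h1 : ‖u j‖ ≤ 1 + (δ / 2) / (‖x‖ + δ / 2) := (norm_le_pi_norm u j).trans hu
          have h2 : ‖x j‖ ≤ ‖x‖ := norm_le_pi_norm x j
          calc (‖x j‖ + δ / 2) * ‖u j‖
              ≤ (‖x j‖ + δ / 2) * (1 + (δ / 2) / (‖x‖ + δ / 2)) := by gcongr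
            _ = (‖x j‖ + δ / 2) + (δ / 2) * ((‖x j‖ + δ / 2) / (‖x‖ + δ / 2)) := by ring
            _ ≤ (‖x j‖ + δ / 2) + (δ / 2) * 1 := by
                gcongr
                rw [div_le_one (by positivity)]
                linarith
            _ = ‖x j‖ + δ := by ring)
      exact mem_cthickening_of_dist_le _ w' δ _ (subset_closure (omegaOne_mono hϑ h1 hx)) h2
    · rw [Complex.norm_real, Real.norm_of_nonneg (by positivity)]
      linarith
  have hall : ∀ n : ℕ, ∃ x ∈ OmegaOne ϑ, ∀ j, n * (δ / 4) ≤ ‖x j‖ := by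
    intro n
    induction n with
    | zero => exact ⟨0, hzero, fun j => by simp⟩
    | succ n ih =>
      obtain ⟨x, hx, hxn⟩ := ih
      refine ⟨_, step x hx, fun j => ?_⟩
      rw [Complex.norm_real, Real.norm_of_nonneg (by positivity)]
      have := hxn j
      push_cast
      linarith
  set j0 : Fin g := ⟨0, hg⟩ with hj0
  have hc0 := hc (Finsupp.single j0 1)
  obtain ⟨n, hn⟩ := exists_nat_gt ((c (Finsupp.single j0 1))⁻¹ / (δ / 4) ^ 2)
  obtain ⟨x, hx, hxn⟩ := hall (n + 1)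
  have h1 := omegaOne_bound hϑ hM hx j0
  have h2 : (((n + 1 : ℕ) : ℝ) * (δ / 4)) ^ 2 ≤ ‖x j0‖ ^ 2 :=
    pow_le_pow_left₀ (by positivity) (hxn j0) 2
  have h3 : (n : ℝ) ≤ ((n + 1 : ℕ) : ℝ) ^ 2 := by
    push_cast
    nlinarith [(Nat.cast_nonneg n : (0 : ℝ) ≤ n)]
  rw [div_lt_iff₀ (by positivity)] at hn
  have h4 : (c (Finsupp.single j0 1))⁻¹ < ‖x j0‖ ^ 2 := by
    calc (c (Finsupp.single j0 1))⁻¹ < n * (δ / 4) ^ 2 := hn
      _ ≤ ((n + 1 : ℕ) : ℝ) ^ 2 * (δ / 4) ^ 2 := by gcongr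
      _ = (((n + 1 : ℕ) : ℝ) * (δ / 4)) ^ 2 := by ring
      _ ≤ _ := h2
  have h5 : 1 < c (Finsupp.single j0 1) * ‖x j0‖ ^ 2 := by
    calc (1 : ℝ) = c (Finsupp.single j0 1) * (c (Finsupp.single j0 1))⁻¹ := by
          rw [mul_inv_cancel₀ hc0.ne']
      _ < _ := by gcongr
  linarith

end Pool.Agent.K1H27.CP
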