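import Mathlib
import Pool.Agent.K1H27.CP.Ext
import Pool.Agent.K1H27.CP.Geom

/-! # The theorem -/

set_option autoImplicit false

namespace Pool.Agent.K1H27.CP

open Finset Filter Topology Metric
open scoped ComplexConjugate ComplexOrder

variable {g : ℕ} {Ω : Set (Fin g → ℂ)}

lemma mon_at_zero {a : Fin g →₀ ℕ} (ha : a ≠ 0) : mon a (0 : Fin g → ℂ) = 0 := by
  obtain ⟨j, hj⟩ : ∃ j, a j ≠ 0 := by
    by_contra hcon
    push Not at hcon
    exact ha (Finsupp.ext hcon)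
  exact Finset.prod_eq_zero (mem_univ j) (by simp [hj])

/-- `k (x, 0) = 1` -/
lemma k_zero {k : (Fin g → ℂ) → (Fin g → ℂ) → ℂ} {c : (Fin g →₀ ℕ) → ℝ} (hΩ : IsOpen Ω)
    (hc : IsPreconnected Ω) (h0 : (0 : Fin g → ℂ) ∈ Ω) (hk : IsHolomorphic Ω k)
    (hc0 : c 0 = 1) (hd : HasDiagonalExpansion k c) : ∀ x ∈ Ω, k x 0 = 1 := by
  have h1 : ∀ᶠ x in 𝓝 (0 : Fin g → ℂ), k x 0 - 1 = 0 := by
    have h2 : Tendsto (fun x : Fin g → ℂ => ((x, 0) : (Fin g → ℂ) × (Fin g → ℂ))) (𝓝 0)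
        (𝓝 (0, 0)) :=
      (continuous_id.prodMk continuous_const).tendsto' _ _ rfl
    filter_upwards [h2.eventually hd] with x hx
    have h3 : HasSum (fun a : Fin g →₀ ℕ => (c a : ℂ) * mon a x * conj (mon a 0)) 1 := by
      have h4 := hasSum_ite_eq (0 : Fin g →₀ ℕ) (1 : ℂ)
      convert h4 using 2 with a
      by_cases ha : a = 0
      · rw [if_pos ha, ha, hc0, mon_zero, mon_zero]
        simp
      · rw [if_neg ha, mon_at_zero ha]
        simp
    rw [hx.unique h3, sub_self]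
  have h2 := ident hΩ hc ((holo_fst hk h0).sub_const 1) h0 h1
  intro x hx
  exact sub_eq_zero.mp (h2 x hx)

/-- the key statement on a polydisc contained in the domain -/
theorem key {k l : (Fin g → ℂ) → (Fin g → ℂ) → ℂ} {c ϑ : (Fin g →₀ ℕ) → ℝ} (hΩ : IsOpen Ω)
    (hconn : IsPreconnected Ω) (h0 : (0 : Fin g → ℂ) ∈ Ω) (hkk : IsKernel Ω k)
    (hk : IsHolomorphic Ω k) (hlk : IsKernel Ω l) (hl : IsHolomorphic Ω l) (hc : ∀ a, 0 < c a)
    (hc0 : c 0 = 1) (hd : HasDiagonalExpansion k c) (hM : IsMasterCertificate c ϑ)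
    (hcp : IsCPPair Ω k l) {y0 : Fin g → ℂ} (hy0 : y0 ∈ Ω) (hne : l y0 y0 ≠ 0)
    (y : Fin g → ℝ) (R : ℝ) (hy : ∀ j, 0 < y j) (hR : 1 < R)
    (hyR : ∀ u : Fin g → ℂ, ‖u‖ ≤ R → sc y u ∈ Ω) (x : Fin g → ℂ) (hx : ∀ j, ‖x j‖ < y j) :
    x ∈ S1 ϑ := by
  classical
  set S := SS Ω l y0 with hS
  have htor : ∀ u : Fin g → ℂ, (∀ j, ‖u j‖ = 1) → sc y u ∈ Ω := fun u hu =>
    hyR u ((norm_torus_le hu).trans hR.le)
  have hdiff : ∀ f : (Fin g → ℂ) → (Fin g → ℂ) → ℂ, IsHolomorphic Ω f →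
      ∀ p : (Fin g → ℂ) × (Fin g → ℂ), ‖p.1‖ ≤ R → ‖p.2‖ ≤ R →
        DifferentiableAt ℂ (fun p => f (sc y p.1) (star (sc y p.2))) p := by
    intro f hf p h1 h2
    have h3 : DifferentiableAt ℂ (fun q : (Fin g → ℂ) × (Fin g → ℂ) => f q.1 (star q.2))
        (sc y p.1, sc y p.2) := by
      refine DifferentiableOn.differentiableAt hf ((WW_open hΩ).mem_nhds ⟨hyR _ h1, ?_⟩)
      rw [star_sc]
      exact hyR _ (by rwa [norm_star])
    have h4 : Differentiable ℂ (fun u : Fin g → ℂ => sc y u) := by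
      rw [differentiable_pi]
      intro j
      simp only [sc]
      fun_prop
    have h5 : DifferentiableAt ℂ (fun p : (Fin g → ℂ) × (Fin g → ℂ) => (sc y p.1, sc y p.2)) p :=
      ((h4 p.1).comp p differentiableAt_fst).prodMk ((h4 p.2).comp p differentiableAt_snd)
    exact DifferentiableAt.comp (g := fun q : (Fin g → ℂ) × (Fin g → ℂ) => f q.1 (star q.2))
      (f := fun p : (Fin g → ℂ) × (Fin g → ℂ) => (sc y p.1, sc y p.2)) p h3 h5
  have hmemR : ∀ p : (Fin g → ℂ) × (Fin g → ℂ), ‖p.1‖ ≤ R → ‖p.2‖ ≤ R →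
      sc y p.1 ∈ Ω ∧ star (sc y p.2) ∈ Ω := by
    intro p h1 h2
    refine ⟨hyR _ h1, ?_⟩
    rw [star_sc]
    exact hyR _ (by rwa [norm_star])
  set c' : (Fin g →₀ ℕ) → ℝ := fun a => c a * yw y a ^ 2 with hc'
  have hkexp : HasExp (fun u v => k (sc y u) (sc y v)) (fun a => ((c' a : ℝ) : ℂ)) id id :=
    diag_exp (fun a => (hc a).le) hd hR (hdiff k hk)
  -- a small ball
  obtain ⟨r, hr, hrW⟩ := Metric.isOpen_iff.mp (WW_open hΩ) ((0 : Fin g → ℂ), (0 : Fin g → ℂ))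
    ⟨h0, by simpa using h0⟩
  -- the coefficients for fixed `z`
  have hq : ∀ z ∈ S, ∃ q : (Fin g →₀ ℕ) → ℝ, (∀ a, 0 ≤ q a) ∧
      (∀ T : Finset (Fin g →₀ ℕ), ∑ a ∈ T, q a ≤ 1) ∧
      (∀ ε : ℝ, (∀ u : Fin g → ℂ, (∀ j, ‖u j‖ = 1) → ‖k (sc y u) z - 1‖ ≤ ε) →
        0 < (k z z).re → ∀ a, a ≠ 0 → c' a - ε ^ 2 / (k z z).re
          ≤ ∑ p ∈ antidiagonal a, q p.1 * c' p.2) ∧
      (‖z‖ < r / 2 → q 0 ≤ 4 / r * ‖z‖) := by
    intro z hz
    obtain ⟨P, hP1, hP2, hP3, hP4, hP5⟩ := exists_P hΩ hconn hkk hk hlk hl hcp hy0 hne hz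
    obtain ⟨C, hC1, hC2⟩ := exp_pair hR (fun p => P (sc y p.1) (star (sc y p.2)))
      (hdiff P hP1) (M := 1) (fun p h1 h2 => hP2 _ (hmemR p h1 h2).1 _ (hmemR p h1 h2).2)
    have hC : HasExp (fun u v => P (sc y u) (sc y v)) C Prod.fst Prod.snd := by
      refine ⟨hC1, fun u v hu hv => ?_⟩
      have h1 := hC2 u (star v) ((norm_torus_le hu).trans_lt hR) (by
        rw [norm_star]
        exact (norm_torus_le hv).trans_lt hR)
      simp only [star_sc, star_star, mon_star] at h1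
      exact h1
    have hP2' : ∀ x ∈ Ω, (P x x).re ≤ 1 := fun x hx =>
      (Complex.re_le_norm _).trans (hP2 x hx x hx)
    obtain ⟨q1, q2, q3⟩ := coef hz.1 hkk hP3 hP2' hP4 htor hC hkexp
    refine ⟨fun a => (C (a, a)).re, q1, q2, q3, fun hzr => ?_⟩
    -- the value at the origin
    have h1 : C (0, 0) = P 0 0 := by
      have h2 := hC2 0 0 (by simp; linarith) (by simp; linarith)
      have h3 : sc y (0 : Fin g → ℂ) = 0 := by
        funext j
        simp [sc]
      simp only [h3, star_zero] at h2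
      refine HasSum.unique ?_ h2
      have h4 := hasSum_ite_eq ((0, 0) : (Fin g →₀ ℕ) × (Fin g →₀ ℕ)) (C (0, 0))
      convert h4 using 2 with p
      by_cases hp : p = (0, 0)
      · rw [if_pos hp, hp, mon_zero]
        simp
      · rw [if_neg hp]
        by_cases hp1 : p.1 = 0
        · have hp2 : p.2 ≠ 0 := fun h => hp (Prod.ext hp1 h)
          rw [mon_at_zero hp2, mul_zero]
        · rw [mon_at_zero hp1, mul_zero, zero_mul]
    have h5 : ‖P 0 0‖ ≤ 4 / r * ‖z‖ := by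
      have hbd : DifferentiableOn ℂ (fun p : (Fin g → ℂ) × (Fin g → ℂ) => P p.1 (star p.2))
          (ball ((0 : Fin g → ℂ), (0 : Fin g → ℂ)) r) := DifferentiableOn.mono hP1 hrW
      have hnz : ‖(z, star z) - ((0 : Fin g → ℂ), (0 : Fin g → ℂ))‖ = ‖z‖ := by
        rw [Prod.norm_def]
        simp
      have h6 := Pool.Agent.Helper417.Mer.Hartogs673.lipschitz_half (M := 1) hbd
        (fun p hp => hP2 _ (hrW hp).1 _ (hrW hp).2) (w := (0, 0)) (z := (z, star z))
        (mem_ball_self (by positivity)) (by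
          rw [mem_ball, dist_eq_norm, hnz]
          exact hzr)
      rw [hnz] at h6
      simp only [star_star, hP5, star_zero, zero_sub, norm_neg, mul_one] at h6
      exact h6
    show (C (0, 0)).re ≤ _
    rw [h1]
    exact (Complex.re_le_norm _).trans h5
  choose! q hq0 hq1 hq2 hq3 using hq
  -- the limit
  have hcl : (0 : Fin g → ℂ) ∈ closure S := SS_dense hΩ hconn hl hy0 hne h0
  rw [mem_closure_iff_nhdsWithin_neBot] at hcl
  set U : Ultrafilter (Fin g → ℂ) := Ultrafilter.of (𝓝[S] 0) with hU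
  have hUle : (U : Filter (Fin g → ℂ)) ≤ 𝓝[S] 0 := Ultrafilter.of_le _
  have hUS : ∀ᶠ z in (U : Filter (Fin g → ℂ)), z ∈ S := hUle self_mem_nhdsWithin
  have hU0 : (U : Filter (Fin g → ℂ)) ≤ 𝓝 0 := hUle.trans nhdsWithin_le_nhds
  have hqmem : ∀ z ∈ S, ∀ a, q z a ∈ Set.Icc (0 : ℝ) 1 := by
    intro z hz a
    refine ⟨hq0 z hz a, ?_⟩
    have := hq1 z hz {a}
    rwa [Finset.sum_singleton] at this
  have hlim : ∀ a, ∃ b : ℝ, Tendsto (fun z => q z a) U (𝓝 b) := by
    intro a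
    obtain ⟨b, _, hb⟩ := (isCompact_Icc (a := (0 : ℝ)) (b := 1)).ultrafilter_le_nhds
      (U.map fun z => q z a) (by
        rw [Ultrafilter.coe_map, Filter.le_principal_iff]
        exact Filter.mem_map.mpr (hUS.mono fun z hz => hqmem z hz a))
    exact ⟨b, hb⟩
  choose Q hQ using hlim
  have hQ0 : ∀ a, 0 ≤ Q a := fun a => ge_of_tendsto (hQ a) (hUS.mono fun z hz => hq0 z hz a)
  have hQ1 : ∀ T : Finset (Fin g →₀ ℕ), ∑ a ∈ T, Q a ≤ 1 := fun T =>
    le_of_tendsto (tendsto_finsetSum T fun a _ => hQ a) (hUS.mono fun z hz => hq1 z hz T)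
  have hQz : Q 0 = 0 := by
    refine le_antisymm ?_ (hQ0 0)
    have h1 : Tendsto (fun z : Fin g → ℂ => 4 / r * ‖z‖) U (𝓝 0) := by
      have : Tendsto (fun z : Fin g → ℂ => 4 / r * ‖z‖) (𝓝 0) (𝓝 0) := by
        have h2 : Continuous fun z : Fin g → ℂ => 4 / r * ‖z‖ := by fun_prop
        exact h2.tendsto' _ _ (by simp)
      exact this.mono_left hU0
    refine le_of_tendsto_of_tendsto (hQ 0) h1 ?_
    have h3 : ∀ᶠ z in (U : Filter (Fin g → ℂ)), ‖z‖ < r / 2 := by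
      have : ∀ᶠ z in 𝓝 (0 : Fin g → ℂ), ‖z‖ < r / 2 := by
        filter_upwards [ball_mem_nhds (0 : Fin g → ℂ) (by positivity : 0 < r / 2)] with z hz
        rwa [mem_ball_zero_iff] at hz
      exact hU0 this
    filter_upwards [hUS, h3] with z hz hzr
    exact hq3 z hz hzr
  -- the kernel near the origin
  have hk1 := k_zero hΩ hconn h0 hk hc0 hd
  have hkc := continuousOn_pair hk
  have hkdiag : Tendsto (fun z => (k z z).re) U (𝓝 1) := by
    have h1 : ContinuousAt (fun p : (Fin g → ℂ) × (Fin g → ℂ) => k p.1 p.2) (0, 0) :=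
      hkc.continuousAt ((hΩ.prod hΩ).mem_nhds ⟨h0, h0⟩)
    have h2 : Tendsto (fun z : Fin g → ℂ => ((z, z) : (Fin g → ℂ) × (Fin g → ℂ))) (𝓝 0)
        (𝓝 (0, 0)) := (continuous_id.prodMk continuous_id).tendsto' _ _ rfl
    have h3 := (Complex.continuous_re.tendsto _).comp (h1.tendsto.comp h2)
    simp only [hk1 0 h0, Complex.one_re] at h3
    exact h3.mono_left hU0
  have hunif : ∀ ε : ℝ, 0 < ε → ∀ᶠ z in (U : Filter (Fin g → ℂ)),
      ∀ u : Fin g → ℂ, (∀ j, ‖u j‖ = 1) → ‖k (sc y u) z - 1‖ ≤ ε := by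
    intro ε hε
    have hcs : Continuous (fun u : Fin g → ℂ => sc y u) := by
      refine continuous_pi fun j => ?_
      simp only [sc]
      fun_prop
    have hcomp : IsCompact ((fun u : Fin g → ℂ => sc y u) '' closedBall 0 1) :=
      (isCompact_closedBall _ _).image hcs
    have h1 := hcomp.eventually_forall_of_forall_eventually (x₀ := (0 : Fin g → ℂ))
      (P := fun z x => ‖k x z - 1‖ < ε) (by
        rintro _ ⟨u, hu, rfl⟩
        rw [mem_closedBall_zero_iff] at hu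
        have huΩ : sc y u ∈ Ω := hyR u (hu.trans hR.le)
        have h2 : ContinuousAt (fun p : (Fin g → ℂ) × (Fin g → ℂ) => k p.1 p.2) (sc y u, 0) :=
          hkc.continuousAt ((hΩ.prod hΩ).mem_nhds ⟨huΩ, h0⟩)
        have h3 : ContinuousAt (fun p : (Fin g → ℂ) × (Fin g → ℂ) => ‖k p.2 p.1 - 1‖)
            (0, sc y u) := by
          have h4 : ContinuousAt (fun p : (Fin g → ℂ) × (Fin g → ℂ) => k p.2 p.1) (0, sc y u) :=
            ContinuousAt.comp (g := fun p : (Fin g → ℂ) × (Fin g → ℂ) => k p.1 p.2)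
              (f := fun p : (Fin g → ℂ) × (Fin g → ℂ) => (p.2, p.1)) (x := (0, sc y u)) h2
              (continuous_snd.prodMk continuous_fst).continuousAt
          exact (h4.sub continuousAt_const).norm
        refine h3.eventually (gt_mem_nhds ?_)
        simp only [hk1 _ huΩ, sub_self, norm_zero]
        exact hε)
    have h2 := hU0 h1
    filter_upwards [h2] with z hz u hu
    exact (hz _ ⟨u, by
      rw [mem_closedBall_zero_iff]
      exact norm_torus_le hu, rfl⟩).le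
  have hQ2 : ∀ a, a ≠ 0 → c' a ≤ ∑ p ∈ antidiagonal a, Q p.1 * c' p.2 := by
    intro a ha
    have h1 : ∀ ε : ℝ, 0 < ε → c' a - ε ^ 2 ≤ ∑ p ∈ antidiagonal a, Q p.1 * c' p.2 := by
      intro ε hε
      have h2 : Tendsto (fun z => c' a - ε ^ 2 / (k z z).re) U (𝓝 (c' a - ε ^ 2 / 1)) :=
        tendsto_const_nhds.sub (tendsto_const_nhds.div hkdiag one_ne_zero)
      rw [div_one] at h2
      refine le_of_tendsto_of_tendsto h2
        (tendsto_finsetSum _ fun p _ => (hQ p.1).mul_const _) ?_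
      filter_upwards [hUS, hunif ε hε, hkdiag.eventually (lt_mem_nhds one_pos)] with z hz h3 h4
      exact hq2 z hz ε h3 h4 a ha
    have h2 : Tendsto (fun ε : ℝ => c' a - ε ^ 2) (𝓝[>] 0) (𝓝 (c' a)) := by
      have : Continuous fun ε : ℝ => c' a - ε ^ 2 := by fun_prop
      exact (this.tendsto' 0 (c' a) (by simp)).mono_left nhdsWithin_le_nhds
    refine le_of_tendsto h2 ?_
    filter_upwards [self_mem_nhdsWithin] with ε hε
    exact h1 ε hε
  -- the conclusion by the minimality of the master certificate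
  have hyw : ∀ a, 0 < yw y a := yw_pos hy
  set t : ℝ := ‖fun j => ‖x j‖ / y j‖ with ht
  have ht1 : t < 1 := by
    rw [ht, pi_norm_lt_iff one_pos]
    intro j
    rw [Real.norm_of_nonneg (div_nonneg (norm_nonneg _) (hy j).le), div_lt_one (hy j)]
    exact hx j
  have ht0 : 0 ≤ t := norm_nonneg _
  have hxt : ∀ j, ‖x j‖ ≤ t * y j := by
    intro j
    rw [← div_le_iff₀ (hy j)]
    have h1 := norm_le_pi_norm (fun j => ‖x j‖ / y j) j
    rwa [Real.norm_of_nonneg (div_nonneg (norm_nonneg _) (hy j).le)] at h1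
  have habs : ∀ a, absMon a x ≤ t ^ (2 * deg a) * yw y a ^ 2 := by
    intro a
    have h1 : t ^ (2 * deg a) * yw y a ^ 2 = ∏ j, (t * y j) ^ (2 * a j) := by
      simp only [mul_pow, Finset.prod_mul_distrib, yw, deg]
      rw [Finset.mul_sum, ← Finset.prod_pow_eq_pow_sum, ← Finset.prod_pow]
      congr 1
      refine Finset.prod_congr rfl fun j _ => ?_
      rw [← pow_mul, mul_comm]
    rw [h1]
    unfold absMon
    refine Finset.prod_le_prod (fun j _ => by positivity) fun j _ => ?_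
    exact pow_le_pow_left₀ (norm_nonneg _) (hxt j) _
  refine theta_lt_one (q := fun a => Q a / yw y a ^ 2) (w := fun a => absMon a x) hc0 hc hM
    (fun a => div_nonneg (hQ0 a) (by positivity)) (by simp [hQz]) ?_ (fun a => absMon_nonneg a x)
    (fun a b => absMon_add a b x) (absMon_zero x) (ρ := t ^ 2) (by nlinarith) ?_
  · intro a ha
    have h1 := hQ2 a ha
    have h2 : ∑ p ∈ antidiagonal a, Q p.1 / yw y p.1 ^ 2 * c p.2
        = (∑ p ∈ antidiagonal a, Q p.1 * c' p.2) / yw y a ^ 2 := by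
      rw [Finset.sum_div]
      refine Finset.sum_congr rfl fun p hp => ?_
      rw [HasAntidiagonal.mem_antidiagonal] at hp
      rw [← hp, yw_add]
      simp only [hc']
      have h3 := (hyw p.1).ne'
      have h4 := (hyw p.2).ne'
      field_simp
    rw [h2, le_div_iff₀ (by have := hyw a; positivity)]
    exact h1
  · intro T
    have h1 : ∀ a, Q a / yw y a ^ 2 * absMon a x ≤ Q a * t ^ 2 := by
      intro a
      by_cases ha : a = 0
      · rw [ha, hQz]
        simp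
      · have h2 : 1 ≤ deg a := by
          rcases Nat.eq_zero_or_pos (deg a) with h | h
          · exact absurd (deg_eq_zero.mp h) ha
          · exact h
        have h3 : t ^ (2 * deg a) ≤ t ^ 2 := pow_le_pow_of_le_one ht0 ht1.le (by omega)
        have h4 := hyw a
        have h5 := hQ0 a
        calc Q a / yw y a ^ 2 * absMon a x ≤ Q a / yw y a ^ 2 * (t ^ 2 * yw y a ^ 2) := by
              have h6 := habs a
              have h7 : t ^ (2 * deg a) * yw y a ^ 2 ≤ t ^ 2 * yw y a ^ 2 := by gcongr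
              have h8 := h6.trans h7
              gcongr
          _ = Q a * t ^ 2 := by field_simp
    calc ∑ a ∈ T, Q a / yw y a ^ 2 * absMon a x ≤ ∑ a ∈ T, Q a * t ^ 2 :=
          Finset.sum_le_sum fun a _ => h1 a
      _ = (∑ a ∈ T, Q a) * t ^ 2 := by rw [Finset.sum_mul]
      _ ≤ 1 * t ^ 2 := by
          have := hQ1 T
          gcongr
      _ = t ^ 2 := one_mul _

/-- The main theorem. -/
theorem main (hg : 1 ≤ g) {k l : (Fin g → ℂ) → (Fin g → ℂ) → ℂ} {c ϑ : (Fin g →₀ ℕ) → ℝ}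
    (hΩ : IsOpen Ω) (hconn : IsConnected Ω) (h0 : (0 : Fin g → ℂ) ∈ Ω) (hkk : IsKernel Ω k)
    (hk : IsHolomorphic Ω k) (hlk : IsKernel Ω l) (hl : IsHolomorphic Ω l)
    (hlne : ∃ z ∈ Ω, ∃ w ∈ Ω, l z w ≠ 0) (hc : ∀ a, 0 < c a)
    (hc0 : c 0 = 1) (hd : HasDiagonalExpansion k c) (hM : IsMasterCertificate c ϑ)
    (hcp : IsCPPair Ω k l) : ¬ closure (OmegaOne ϑ) ⊆ Ω := by
  obtain ⟨y0, hy0, w, hw, hne⟩ := hlne
  have hne' : l y0 y0 ≠ 0 := fun h => hne
    (Pool.Agent.H770R3.Shim.psd_zero_row (g := rest Ω l) hlk (z := ⟨y0, hy0⟩) h ⟨w, hw⟩)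
  exact geom hg hΩ h0 hc hM fun y R hy hR hyR x hx =>
    key hΩ hconn.isPreconnected h0 hkk hk hlk hl hc hc0 hd hM hcp hy0 hne' y R hy hR hyR x hx

end Pool.Agent.K1H27.CP
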